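import Pool.Agent.SYL.St

set_option autoImplicit false

/-!
# SYL, module Bonf: inclusion and exclusion for `G`
-/

namespace Pool.Agent.SYL

open MeasureTheory Set

noncomputable section

/-- all points in `T`, the point `i` outside `D` -/
def Bonf_A {d : ℕ} (T D : Set (Fin d → ℝ)) (i : Fin (d + 1)) : Set (Fin (d + 1) → (Fin d → ℝ)) :=
  {x | (∀ k, x k ∈ T) ∧ x i ∉ D}

theorem Bonf_A_pre {d : ℕ} (T D : Set (Fin d → ℝ)) (i : Fin (d + 1)) :
    Bonf_A T D i = (MeasurableEquiv.piFinSuccAbove (fun _ : Fin (d + 1) => (Fin d → ℝ)) i) ⁻¹'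
      ((T \ D) ×ˢ (Set.pi univ fun _ : Fin d => T)) := by
  ext x
  show ((∀ k, x k ∈ T) ∧ x i ∉ D) ↔
    ((x i ∈ T ∧ x i ∉ D) ∧ ∀ j, j ∈ univ → x (i.succAbove j) ∈ T)
  rw [Fin.forall_iff_succAbove i]
  constructor
  · rintro ⟨⟨h1, h2⟩, h3⟩
    exact ⟨⟨h1, h3⟩, fun j _ => h2 j⟩
  · rintro ⟨⟨h1, h3⟩, h2⟩
    exact ⟨⟨h1, fun j => h2 j (mem_univ j)⟩, h3⟩

theorem Bonf_sym {d : ℕ} (hsym : ∀ (σ : Equiv.Perm (Fin (d + 1))) (x : Fin (d + 1) → (Fin d → ℝ)),
    V (x ∘ σ) = V x) (i : Fin (d + 1)) (x : Fin (d + 1) → (Fin d → ℝ)) :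
    V (Fin.cons (x i) (fun j => x (i.succAbove j)) : Fin (d + 1) → (Fin d → ℝ)) = V x := by
  rw [← hsym i.cycleRange.symm x]
  congr 1
  funext k
  refine Fin.cases ?_ (fun j => ?_) k
  · simp
  · simp

theorem Bonf_cons_cont (d : ℕ) : Continuous (fun z : (Fin d → ℝ) × (Fin d → (Fin d → ℝ)) =>
    (Fin.cons z.1 z.2 : Fin (d + 1) → (Fin d → ℝ))) := by
  refine continuous_pi fun k => ?_
  refine Fin.cases ?_ (fun j => ?_) k
  · simp only [Fin.cons_zero]
    exact continuous_fst
  · simp only [Fin.cons_succ]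
    exact (continuous_apply j).comp continuous_snd

theorem Bonf_int {d : ℕ} (T D : Set (Fin d → ℝ)) (hT : IsCompact T) (hD : MeasurableSet D)
    (hV : Continuous (V : (Fin (d + 1) → (Fin d → ℝ)) → ℝ))
    (hsym : ∀ (σ : Equiv.Perm (Fin (d + 1))) (x : Fin (d + 1) → (Fin d → ℝ)), V (x ∘ σ) = V x)
    (i : Fin (d + 1)) :
    ∫ x in Bonf_A T D i, V x = ∫ x in T \ D, phi T x := by
  have hmp := volume_preserving_piFinSuccAbove (fun _ : Fin (d + 1) => (Fin d → ℝ)) i
  have hg : Continuous (fun z : (Fin d → ℝ) × (Fin d → (Fin d → ℝ)) =>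
      V (Fin.cons z.1 z.2 : Fin (d + 1) → (Fin d → ℝ))) := hV.comp (Bonf_cons_cont d)
  have e1 : ∫ x in Bonf_A T D i, V x =
      ∫ x in (MeasurableEquiv.piFinSuccAbove (fun _ : Fin (d + 1) => (Fin d → ℝ)) i) ⁻¹'
        ((T \ D) ×ˢ (Set.pi univ fun _ : Fin d => T)),
        (fun z : (Fin d → ℝ) × (Fin d → (Fin d → ℝ)) =>
          V (Fin.cons z.1 z.2 : Fin (d + 1) → (Fin d → ℝ)))
          ((MeasurableEquiv.piFinSuccAbove (fun _ : Fin (d + 1) => (Fin d → ℝ)) i) x) := by
    rw [Bonf_A_pre]
    apply integral_congr_ae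
    refine Filter.Eventually.of_forall fun x => ?_
    exact (Bonf_sym hsym i x).symm
  rw [e1, hmp.setIntegral_preimage_emb (MeasurableEquiv.measurableEmbedding _)
    (fun z : (Fin d → ℝ) × (Fin d → (Fin d → ℝ)) =>
      V (Fin.cons z.1 z.2 : Fin (d + 1) → (Fin d → ℝ)))]
  have hint : IntegrableOn (fun z : (Fin d → ℝ) × (Fin d → (Fin d → ℝ)) =>
      V (Fin.cons z.1 z.2 : Fin (d + 1) → (Fin d → ℝ)))
      ((T \ D) ×ˢ (Set.pi univ fun _ : Fin d => T))
      ((volume : Measure (Fin d → ℝ)).prod (volume : Measure (Fin d → (Fin d → ℝ)))) := by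
    have hc : IsCompact (T ×ˢ (Set.pi univ fun _ : Fin d => T)) :=
      hT.prod (isCompact_univ_pi fun _ => hT)
    exact (hg.continuousOn.integrableOn_compact hc).mono_set
      (prod_mono sdiff_subset le_rfl)
  exact setIntegral_prod _ hint

theorem Bonf_A_meas {d : ℕ} (T D : Set (Fin d → ℝ)) (hT : IsCompact T) (hD : MeasurableSet D)
    (i : Fin (d + 1)) : MeasurableSet (Bonf_A T D i) := by
  rw [Bonf_A_pre]
  apply (MeasurableEquiv.measurable _)
  exact (hT.measurableSet.diff hD).prod (MeasurableSet.univ_pi fun _ => hT.measurableSet)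

theorem Bonf_vol {d : ℕ} (T D : Set (Fin d → ℝ)) (i j : Fin (d + 1)) (hij : i ≠ j) :
    volume.real (Bonf_A T D i ∩ Bonf_A T D j) = vol (T \ D) ^ 2 * vol T ^ (d - 1) := by
  classical
  have e1 : Bonf_A T D i ∩ Bonf_A T D j =
      Set.pi univ (fun k : Fin (d + 1) => if k = i ∨ k = j then T \ D else T) := by
    ext x
    simp only [Bonf_A, mem_inter_iff, mem_setOf_eq, Set.mem_pi, mem_univ, true_implies]
    constructor
    · rintro ⟨⟨h1, h2⟩, -, h3⟩ k
      by_cases hk : k = i ∨ k = j
      · rw [if_pos hk]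
        refine ⟨h1 k, ?_⟩
        rcases hk with rfl | rfl
        · exact h2
        · exact h3
      · rw [if_neg hk]
        exact h1 k
    · intro h
      have hall : ∀ k, x k ∈ T := by
        intro k
        have := h k
        by_cases hk : k = i ∨ k = j
        · rw [if_pos hk] at this
          exact this.1
        · rw [if_neg hk] at this
          exact this
      have hi := h i
      have hj := h j
      rw [if_pos (Or.inl rfl)] at hi
      rw [if_pos (Or.inr rfl)] at hj
      exact ⟨⟨hall, hi.2⟩, hall, hj.2⟩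
  rw [e1, Measure.real, volume_pi_pi, ENNReal.toReal_prod]
  have e2 : ∀ k : Fin (d + 1), (volume (if k = i ∨ k = j then T \ D else T)).toReal =
      if k = i ∨ k = j then vol (T \ D) else vol T := by
    intro k
    split_ifs <;> rfl
  rw [Finset.prod_congr rfl fun k _ => e2 k, Finset.prod_ite, Finset.prod_const, Finset.prod_const]
  have c1 : (Finset.univ.filter fun k : Fin (d + 1) => k = i ∨ k = j).card = 2 := by
    have : (Finset.univ.filter fun k : Fin (d + 1) => k = i ∨ k = j) = {i, j} := by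
      ext k
      simp
    rw [this, Finset.card_pair hij]
  have c2 : (Finset.univ.filter fun k : Fin (d + 1) => ¬ (k = i ∨ k = j)).card = d - 1 := by
    have := Finset.card_filter_add_card_filter_not (s := (Finset.univ : Finset (Fin (d + 1))))
      (fun k => k = i ∨ k = j)
    rw [c1, Finset.card_univ, Fintype.card_fin] at this
    omega
  rw [c1, c2]

/-- the pointwise inequalities -/
theorem Bonf_pt {d : ℕ} (T D : Set (Fin d → ℝ)) (v : ℝ) (hv : 0 ≤ v)
    (x : Fin (d + 1) → (Fin d → ℝ)) :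
    ((Set.pi univ (fun _ : Fin (d + 1) => T)) \ (Set.pi univ (fun _ : Fin (d + 1) => D))).indicator
      (fun _ => v) x ≤ ∑ i, (Bonf_A T D i).indicator (fun _ => v) x ∧
    ∑ i, (Bonf_A T D i).indicator (fun _ => v) x -
      ∑ p ∈ (Finset.univ : Finset (Fin (d + 1))).offDiag,
        (Bonf_A T D p.1 ∩ Bonf_A T D p.2).indicator (fun _ => v) x ≤
    ((Set.pi univ (fun _ : Fin (d + 1) => T)) \ (Set.pi univ (fun _ : Fin (d + 1) => D))).indicator
      (fun _ => v) x := by
  classical
  by_cases hx : ∀ k, x k ∈ T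
  · set s : Finset (Fin (d + 1)) := Finset.univ.filter fun i => x i ∉ D with hs
    have m1 : ∀ i, x ∈ Bonf_A T D i ↔ i ∈ s := by
      intro i
      rw [hs, Finset.mem_filter]
      exact ⟨fun h => ⟨Finset.mem_univ _, h.2⟩, fun h => ⟨hx, h.2⟩⟩
    have e1 : ∑ i, (Bonf_A T D i).indicator (fun _ => v) x = s.card * v := by
      have : ∀ i, (Bonf_A T D i).indicator (fun _ => v) x = if i ∈ s then v else 0 := by
        intro i
        by_cases hi : i ∈ s
        · rw [indicator_of_mem ((m1 i).2 hi), if_pos hi]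
        · rw [indicator_of_notMem (fun h => hi ((m1 i).1 h)), if_neg hi]
      rw [Finset.sum_congr rfl fun i _ => this i, Finset.sum_ite_mem, Finset.univ_inter,
        Finset.sum_const, nsmul_eq_mul]
    have e2 : ∑ p ∈ (Finset.univ : Finset (Fin (d + 1))).offDiag,
        (Bonf_A T D p.1 ∩ Bonf_A T D p.2).indicator (fun _ => v) x =
        (s.card * s.card - s.card : ℝ) * v := by
      have : ∀ p : Fin (d + 1) × Fin (d + 1),
          (Bonf_A T D p.1 ∩ Bonf_A T D p.2).indicator (fun _ => v) x =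
          if p.1 ∈ s ∧ p.2 ∈ s then v else 0 := by
        intro p
        by_cases hp : p.1 ∈ s ∧ p.2 ∈ s
        · rw [indicator_of_mem (show x ∈ Bonf_A T D p.1 ∩ Bonf_A T D p.2 from
            ⟨(m1 _).2 hp.1, (m1 _).2 hp.2⟩), if_pos hp]
        · rw [indicator_of_notMem (show x ∉ Bonf_A T D p.1 ∩ Bonf_A T D p.2 from
            fun h => hp ⟨(m1 _).1 h.1, (m1 _).1 h.2⟩), if_neg hp]
      rw [Finset.sum_congr rfl fun p _ => this p, ← Finset.sum_filter]
      have hf : (Finset.univ : Finset (Fin (d + 1))).offDiag.filter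
          (fun p => p.1 ∈ s ∧ p.2 ∈ s) = s.offDiag := by
        ext p
        simp only [Finset.mem_filter, Finset.mem_offDiag, Finset.mem_univ, true_and]
        tauto
      rw [hf, Finset.sum_const, Finset.offDiag_card, nsmul_eq_mul,
        Nat.cast_sub (Nat.le_mul_self _)]
      push_cast
      rfl
    rw [e1, e2]
    by_cases hne : s.card = 0
    · have hnot : x ∉ ((Set.pi univ (fun _ : Fin (d + 1) => T)) \
          (Set.pi univ (fun _ : Fin (d + 1) => D))) := by
        rintro ⟨-, h2⟩
        apply h2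
        intro k _
        by_contra hk
        have : k ∈ s := by
          rw [hs, Finset.mem_filter]
          exact ⟨Finset.mem_univ _, hk⟩
        rw [Finset.card_eq_zero.1 hne] at this
        exact absurd this (Finset.notMem_empty k)
      rw [indicator_of_notMem hnot, hne]
      simp
    · have hmem : x ∈ ((Set.pi univ (fun _ : Fin (d + 1) => T)) \
          (Set.pi univ (fun _ : Fin (d + 1) => D))) := by
        refine ⟨fun k _ => hx k, fun h => hne ?_⟩
        rw [Finset.card_eq_zero, Finset.eq_empty_iff_forall_notMem]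
        intro k hk
        rw [hs, Finset.mem_filter] at hk
        exact hk.2 (h k (mem_univ k))
      rw [indicator_of_mem hmem]
      have h1 : (1 : ℝ) ≤ (s.card : ℝ) := by
        exact_mod_cast Nat.one_le_iff_ne_zero.2 hne
      constructor
      · nlinarith
      · have : (s.card : ℝ) * v - (s.card * s.card - s.card : ℝ) * v =
            v - ((s.card : ℝ) - 1) ^ 2 * v := by ring
        rw [this]
        have : 0 ≤ ((s.card : ℝ) - 1) ^ 2 * v := by positivity
        linarith
  · have hA : ∀ i, x ∉ Bonf_A T D i := fun i h => hx h.1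
    have hnot : x ∉ ((Set.pi univ (fun _ : Fin (d + 1) => T)) \
        (Set.pi univ (fun _ : Fin (d + 1) => D))) := by
      rintro ⟨h1, -⟩
      exact hx fun k => h1 k (mem_univ k)
    have e1 : ∀ i, (Bonf_A T D i).indicator (fun _ => v) x = 0 :=
      fun i => indicator_of_notMem (hA i) _
    have e2 : ∀ p : Fin (d + 1) × Fin (d + 1),
        (Bonf_A T D p.1 ∩ Bonf_A T D p.2).indicator (fun _ => v) x = 0 :=
      fun p => indicator_of_notMem (fun h => hA _ h.1) _
    rw [indicator_of_notMem hnot, Finset.sum_congr rfl fun i _ => e1 i,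
      Finset.sum_congr rfl fun p _ => e2 p]
    simp

theorem thm_bonf (h1 : St_V) : St_bonf := by
  classical
  intro d T D hT hTc hD hDT
  obtain ⟨hVc, -, -, hVs, hV0, hVb⟩ := h1 d
  set Tp : Set (Fin (d + 1) → (Fin d → ℝ)) := Set.pi univ (fun _ => T) with hTp
  set Dp : Set (Fin (d + 1) → (Fin d → ℝ)) := Set.pi univ (fun _ => D) with hDp
  have hTpc : IsCompact Tp := isCompact_univ_pi fun _ => hT
  have hTpm : MeasurableSet Tp := hTpc.measurableSet
  have hDpm : MeasurableSet Dp := MeasurableSet.univ_pi fun _ => hD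
  have hDTp : Dp ⊆ Tp := fun x hx k hk => hDT (hx k hk)
  have hint : IntegrableOn V Tp := hVc.continuousOn.integrableOn_compact hTpc
  have hAT : ∀ i, Bonf_A T D i ⊆ Tp := fun i x hx k _ => hx.1 k
  have hAm : ∀ i, MeasurableSet (Bonf_A T D i) := Bonf_A_meas T D hT hD
  have hG : G d T - G d D = ∫ x in Tp \ Dp, V x := by
    rw [setIntegral_sdiff hDpm hint hDTp]
    rfl
  have hone : ∀ i, ∫ x in Bonf_A T D i, V x = ∫ x in T \ D, phi T x :=
    Bonf_int T D hT hD hVc hVs
  -- the integrals of the indicators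
  have hi1 : ∀ i, Integrable ((Bonf_A T D i).indicator V) := fun i =>
    (integrable_indicator_iff (hAm i)).2 (hint.mono_set (hAT i))
  have hi2 : ∀ p : Fin (d + 1) × Fin (d + 1),
      Integrable ((Bonf_A T D p.1 ∩ Bonf_A T D p.2).indicator V) := fun p =>
    (integrable_indicator_iff ((hAm p.1).inter (hAm p.2))).2
      (hint.mono_set (inter_subset_left.trans (hAT p.1)))
  have hi3 : Integrable ((Tp \ Dp).indicator V) :=
    (integrable_indicator_iff (hTpm.diff hDpm)).2 (hint.mono_set sdiff_subset)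
  have s1 : ∫ x, ∑ i, (Bonf_A T D i).indicator V x = ((d : ℝ) + 1) * ∫ x in T \ D, phi T x := by
    rw [integral_finsetSum _ fun i _ => hi1 i]
    have : ∀ i, ∫ x, (Bonf_A T D i).indicator V x = ∫ x in T \ D, phi T x := by
      intro i
      rw [integral_indicator (hAm i), hone i]
    rw [Finset.sum_congr rfl fun i _ => this i, Finset.sum_const, Finset.card_univ,
      Fintype.card_fin, nsmul_eq_mul]
    push_cast
    rfl
  have s2 : ∫ x, (Tp \ Dp).indicator V x = G d T - G d D := by
    rw [integral_indicator (hTpm.diff hDpm), hG]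
  have hpt : ∀ (s : Set (Fin (d + 1) → (Fin d → ℝ))) x, s.indicator V x =
      s.indicator (fun _ => V x) x := by
    intro s x
    by_cases h : x ∈ s
    · rw [indicator_of_mem h, indicator_of_mem h]
    · rw [indicator_of_notMem h, indicator_of_notMem h]
  have p1 : ∀ x, (Tp \ Dp).indicator V x ≤ ∑ i, (Bonf_A T D i).indicator V x := by
    intro x
    have := (Bonf_pt T D (V x) (hV0 x) x).1
    rw [hpt, Finset.sum_congr rfl fun i _ => hpt (Bonf_A T D i) x]
    exact this
  have p2 : ∀ x, ∑ i, (Bonf_A T D i).indicator V x -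
      ∑ p ∈ (Finset.univ : Finset (Fin (d + 1))).offDiag,
        (Bonf_A T D p.1 ∩ Bonf_A T D p.2).indicator V x ≤ (Tp \ Dp).indicator V x := by
    intro x
    have := (Bonf_pt T D (V x) (hV0 x) x).2
    have f1 : ∑ i, (Bonf_A T D i).indicator V x =
        ∑ i, (Bonf_A T D i).indicator (fun _ => V x) x :=
      Finset.sum_congr rfl fun i _ => hpt (Bonf_A T D i) x
    have f2 : ∑ p ∈ (Finset.univ : Finset (Fin (d + 1))).offDiag,
        (Bonf_A T D p.1 ∩ Bonf_A T D p.2).indicator V x =
        ∑ p ∈ (Finset.univ : Finset (Fin (d + 1))).offDiag,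
        (Bonf_A T D p.1 ∩ Bonf_A T D p.2).indicator (fun _ => V x) x :=
      Finset.sum_congr rfl fun p _ => hpt (Bonf_A T D p.1 ∩ Bonf_A T D p.2) x
    rw [hpt (Tp \ Dp), f1, f2]
    exact this
  constructor
  · rw [← s1, ← s2]
    exact integral_mono hi3 (integrable_finsetSum _ fun i _ => hi1 i) p1
  · have q1 : ∫ x, (∑ i, (Bonf_A T D i).indicator V x -
        ∑ p ∈ (Finset.univ : Finset (Fin (d + 1))).offDiag,
          (Bonf_A T D p.1 ∩ Bonf_A T D p.2).indicator V x) ≤ G d T - G d D := by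
      rw [← s2]
      exact integral_mono ((integrable_finsetSum _ fun i _ => hi1 i).sub
        (integrable_finsetSum _ fun p _ => hi2 p)) hi3 p2
    rw [integral_sub (integrable_finsetSum _ fun i _ => hi1 i)
      (integrable_finsetSum _ fun p _ => hi2 p), s1] at q1
    have q2 : ∫ x, ∑ p ∈ (Finset.univ : Finset (Fin (d + 1))).offDiag,
        (Bonf_A T D p.1 ∩ Bonf_A T D p.2).indicator V x ≤
        ((d : ℝ) + 1) * d * vol T ^ d * vol (T \ D) ^ 2 := by
      rw [integral_finsetSum _ fun p _ => hi2 p]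
      have hb : ∀ p ∈ (Finset.univ : Finset (Fin (d + 1))).offDiag,
          ∫ x, (Bonf_A T D p.1 ∩ Bonf_A T D p.2).indicator V x ≤
          vol T * (vol (T \ D) ^ 2 * vol T ^ (d - 1)) := by
        intro p hp
        rw [Finset.mem_offDiag] at hp
        rw [integral_indicator ((hAm p.1).inter (hAm p.2)), ← Bonf_vol T D p.1 p.2 hp.2.2]
        refine (le_abs_self _).trans ?_
        rw [← Real.norm_eq_abs]
        apply norm_setIntegral_le_of_norm_le_const
        · exact (measure_mono (inter_subset_left.trans (hAT p.1))).trans_lt hTpc.measure_lt_top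
        · intro x hx
          rw [Real.norm_eq_abs, abs_of_nonneg (hV0 x)]
          exact hVb T hT hTc x hx.1.1
      refine (Finset.sum_le_card_nsmul _ _ _ hb).trans (le_of_eq ?_)
      rw [Finset.offDiag_card, Finset.card_univ, Fintype.card_fin, nsmul_eq_mul]
      rcases Nat.eq_zero_or_pos d with hd | hd
      · subst hd
        simp
      · have e1 : (d + 1) * (d + 1) - (d + 1) = (d + 1) * d := by
          rw [← Nat.mul_sub_one]
          rfl
        have e2 : vol T ^ d = vol T ^ (d - 1) * vol T := by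
          rw [← pow_succ]
          congr 1
          omega
        rw [e1, e2]
        push_cast
        ring
    linarith

end

end Pool.Agent.SYL
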