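import Pool.Agent.SYL.St

set_option autoImplicit false

/-! # SYL Dl: the solid standard simplex -/

namespace Pool.Agent.SYL

open MeasureTheory Set

theorem Dl_closed (n : ℕ) : IsClosed (Dl n) := by
  have h1 : Dl n = (⋂ i : Fin n, {x : Fin n → ℝ | 0 ≤ x i}) ∩ {x | ∑ i, x i ≤ 1} := by
    ext x
    simp [Dl]
  rw [h1]
  refine IsClosed.inter (isClosed_iInter fun i => ?_) ?_
  · exact isClosed_le continuous_const (continuous_apply i)
  · exact isClosed_le (by fun_prop) continuous_const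

theorem Dl_subset (n : ℕ) : Dl n ⊆ Icc 0 1 := by
  intro x hx
  refine ⟨fun i => hx.1 i, fun i => ?_⟩
  have h1 : x i ≤ ∑ j, x j := Finset.single_le_sum (fun j _ => hx.1 j) (Finset.mem_univ i)
  exact h1.trans hx.2

theorem Dl_compact (n : ℕ) : IsCompact (Dl n) :=
  isCompact_Icc.of_isClosed_subset (Dl_closed n) (Dl_subset n)

theorem Dl_convex (n : ℕ) : Convex ℝ (Dl n) := by
  intro x hx y hy a b ha hb hab
  refine ⟨fun i => ?_, ?_⟩
  · have h1 := mul_nonneg ha (hx.1 i)
    have h2 := mul_nonneg hb (hy.1 i)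
    change 0 ≤ a * x i + b * y i
    linarith
  · have h1 : ∑ i, (a • x + b • y) i = a * ∑ i, x i + b * ∑ i, y i := by
      rw [Finset.mul_sum, Finset.mul_sum, ← Finset.sum_add_distrib]
      rfl
    rw [h1]
    have h2 := mul_le_mul_of_nonneg_left hx.2 ha
    have h3 := mul_le_mul_of_nonneg_left hy.2 hb
    linarith

theorem thm_Dl : St_Dl := by
  intro n
  refine ⟨Dl_compact n, Dl_convex n, ?_⟩
  have hopen : IsOpen {x : Fin n → ℝ | (∀ i, 0 < x i) ∧ ∑ i, x i < 1} := by
    have h1 : {x : Fin n → ℝ | (∀ i, 0 < x i) ∧ ∑ i, x i < 1} =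
        (⋂ i : Fin n, {x : Fin n → ℝ | 0 < x i}) ∩ {x | ∑ i, x i < 1} := by
      ext x
      simp
    rw [h1]
    refine IsOpen.inter (isOpen_iInter_of_finite fun i => ?_) ?_
    · exact isOpen_lt continuous_const (continuous_apply i)
    · exact isOpen_lt (by fun_prop) continuous_const
  have hne : {x : Fin n → ℝ | (∀ i, 0 < x i) ∧ ∑ i, x i < 1}.Nonempty := by
    have hn : (0 : ℝ) < (n : ℝ) + 1 := by positivity
    refine ⟨fun _ => 1 / ((n : ℝ) + 1), fun i => by positivity, ?_⟩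
    rw [Finset.sum_const, Finset.card_univ, Fintype.card_fin, nsmul_eq_mul, mul_one_div,
      div_lt_one hn]
    linarith
  have h1 : 0 < volume {x : Fin n → ℝ | (∀ i, 0 < x i) ∧ ∑ i, x i < 1} :=
    hopen.measure_pos volume hne
  have h2 : {x : Fin n → ℝ | (∀ i, 0 < x i) ∧ ∑ i, x i < 1} ⊆ Dl n :=
    fun x hx => ⟨fun i => (hx.1 i).le, hx.2.le⟩
  exact ENNReal.toReal_pos (h1.trans_le (measure_mono h2)).ne' (Dl_compact n).measure_lt_top.ne

end Pool.Agent.SYL
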