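import Pool.Agent.SYL.St

set_option autoImplicit false

/-! # SYL Hull: the convex hull of `d+1` points -/

namespace Pool.Agent.SYL

open MeasureTheory Set

theorem thm_hull : St_hull := by
  intro d v
  apply Subset.antisymm
  · apply convexHull_min
    · rintro _ ⟨i, rfl⟩
      refine Fin.cases ?_ (fun j => ?_) i
      · refine ⟨0, ⟨fun i => le_rfl, ?_⟩, ?_⟩
        · simp
        · simp
      · refine ⟨Pi.single j 1, ⟨fun i => ?_, ?_⟩, ?_⟩
        · by_cases h : i = j
          · subst h
            simp
          · simp [Pi.single_eq_of_ne h]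
        · rw [Finset.sum_pi_single']
          simp
        · simp [Pi.single_apply]
    · have hconv : Convex ℝ (Dl d) := by
        intro x hx y hy a b ha hb hab
        refine ⟨fun i => ?_, ?_⟩
        · have h1 := mul_nonneg ha (hx.1 i)
          have h2 := mul_nonneg hb (hy.1 i)
          change 0 ≤ a * x i + b * y i
          linarith
        · have h1 : ∑ i, (a • x + b • y) i = a * ∑ i, x i + b * ∑ i, y i := by
            rw [Finset.mul_sum, Finset.mul_sum, ← Finset.sum_add_distrib]
            rfl
          rw [h1]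
          have h2 := mul_le_mul_of_nonneg_left hx.2 ha
          have h3 := mul_le_mul_of_nonneg_left hy.2 hb
          linarith
      rintro _ ⟨x, hx, rfl⟩ _ ⟨y, hy, rfl⟩ a b ha hb hab
      refine ⟨a • x + b • y, hconv hx hy ha hb hab, ?_⟩
      beta_reduce
      rw [smul_add, smul_add, Finset.smul_sum, Finset.smul_sum]
      have h1 : ∑ i, (a • x + b • y) i • (v i.succ - v 0) =
          ∑ i, a • x i • (v i.succ - v 0) + ∑ i, b • y i • (v i.succ - v 0) := by
        rw [← Finset.sum_add_distrib]
        refine Finset.sum_congr rfl fun i _ => ?_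
        rw [Pi.add_apply, Pi.smul_apply, Pi.smul_apply, add_smul, smul_eq_mul, smul_eq_mul,
          mul_smul, mul_smul]
      rw [h1]
      have h2 : v 0 = a • v 0 + b • v 0 := by rw [← add_smul, hab, one_smul]
      nth_rewrite 1 [h2]
      abel
  · rintro _ ⟨x, hx, rfl⟩
    beta_reduce
    have h1 : v 0 + ∑ i, x i • (v i.succ - v 0) =
        ∑ i : Fin (d + 1), (Fin.cons (1 - ∑ i, x i) x : Fin (d + 1) → ℝ) i • v i := by
      rw [Fin.sum_univ_succ]
      simp only [Fin.cons_zero, Fin.cons_succ]
      have h2 : ∑ i, x i • (v i.succ - v 0) = ∑ i, x i • v i.succ - (∑ i, x i) • v 0 := by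
        rw [Finset.sum_smul, ← Finset.sum_sub_distrib]
        exact Finset.sum_congr rfl fun i _ => smul_sub _ _ _
      rw [h2, sub_smul, one_smul]
      abel
    rw [h1]
    refine (convex_convexHull ℝ (range v)).sum_mem (fun i _ => ?_) ?_ (fun i _ => ?_)
    · refine Fin.cases ?_ (fun j => ?_) i
      · rw [Fin.cons_zero]
        linarith [hx.2]
      · rw [Fin.cons_succ]
        exact hx.1 j
    · rw [Fin.sum_univ_succ]
      simp only [Fin.cons_zero, Fin.cons_succ]
      ring
    · exact subset_convexHull ℝ _ ⟨i, rfl⟩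

end Pool.Agent.SYL
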