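import Pool.Agent.SYL.St

/-! # Sylvester problem: the mean volume function -/

namespace Pool.Agent.SYL

open MeasureTheory Set

noncomputable section

/-- the integrand is continuous -/
theorem Phi_cont {d : ℕ} (hV : Continuous (V : (Fin (d + 1) → (Fin d → ℝ)) → ℝ)) :
    Continuous (fun p : (Fin d → ℝ) × (Fin d → (Fin d → ℝ)) =>
      V (Fin.cons p.1 p.2 : Fin (d + 1) → (Fin d → ℝ))) := by
  refine hV.comp (continuous_pi fun i => ?_)
  refine Fin.cases ?_ (fun j => ?_) i
  · simp only [Fin.cons_zero]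
    exact continuous_fst
  · simp only [Fin.cons_succ]
    exact (continuous_apply j).comp continuous_snd

theorem Phi_cpt {d : ℕ} {T : Set (Fin d → ℝ)} (hT : IsCompact T) :
    IsCompact (Set.pi univ (fun _ : Fin d => T)) := isCompact_univ_pi fun _ => hT

theorem Phi_int {d : ℕ} {T : Set (Fin d → ℝ)} (hT : IsCompact T)
    (hV : Continuous (V : (Fin (d + 1) → (Fin d → ℝ)) → ℝ)) (x : Fin d → ℝ) :
    IntegrableOn (fun y : Fin d → (Fin d → ℝ) => V (Fin.cons x y : Fin (d + 1) → (Fin d → ℝ)))
      (Set.pi univ (fun _ : Fin d => T)) := by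
  have h1 : Continuous (fun y : Fin d → (Fin d → ℝ) => V (Fin.cons x y : Fin (d + 1) → (Fin d → ℝ))) :=
    (Phi_cont hV).comp (continuous_const.prodMk continuous_id)
  exact h1.continuousOn.integrableOn_compact (Phi_cpt hT)

/-- invariance under linear involutions -/
theorem Phi_invol {d : ℕ} (T : Set (Fin d → ℝ)) (M : (Fin d → ℝ) →ₗ[ℝ] (Fin d → ℝ))
    (hM : ∀ x, M (M x) = x) (hT : ∀ x, M x ∈ T ↔ x ∈ T)
    (hVM : ∀ (M : (Fin d → ℝ) →ₗ[ℝ] (Fin d → ℝ)) (b : Fin d → ℝ) (x : Fin (d + 1) → (Fin d → ℝ)),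
      V (fun i => M (x i) + b) = |LinearMap.det M| * V x) (x : Fin d → ℝ) :
    phi T (M x) = phi T x := by
  have hdet2 : LinearMap.det M * LinearMap.det M = 1 := by
    rw [← LinearMap.det_comp]
    have : M ∘ₗ M = LinearMap.id := LinearMap.ext hM
    rw [this, LinearMap.det_id]
  have hdet : |LinearMap.det M| = 1 := by
    rcases mul_self_eq_one_iff.mp hdet2 with h | h <;> rw [h] <;> simp
  have hdet0 : LinearMap.det M ≠ 0 := by
    intro h
    rw [h] at hdet
    simp at hdet
  have hMc : Continuous M := M.continuous_of_finiteDimensional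
  have hmp : MeasurePreserving (M : (Fin d → ℝ) → (Fin d → ℝ)) volume volume := by
    refine ⟨hMc.measurable, ?_⟩
    rw [Real.map_linearMap_volume_pi_eq_smul_volume_pi hdet0, abs_inv, hdet]
    simp
  have hmpp : MeasurePreserving (fun (z : Fin d → (Fin d → ℝ)) i => M (z i)) volume volume :=
    volume_preserving_pi fun _ => hmp
  have hinv : Function.Involutive (fun (z : Fin d → (Fin d → ℝ)) i => M (z i)) := by
    intro z
    funext i
    exact hM (z i)
  have hcont : Continuous (fun (z : Fin d → (Fin d → ℝ)) i => M (z i)) :=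
    continuous_pi fun i => hMc.comp (continuous_apply i)
  have hemb : MeasurableEmbedding (fun (z : Fin d → (Fin d → ℝ)) i => M (z i)) := by
    let e : (Fin d → (Fin d → ℝ)) ≃ᵐ (Fin d → (Fin d → ℝ)) :=
      { toEquiv := hinv.toPerm
        measurable_toFun := hcont.measurable
        measurable_invFun := hcont.measurable }
    exact e.measurableEmbedding
  have hpre : (fun (z : Fin d → (Fin d → ℝ)) i => M (z i)) ⁻¹' (Set.pi univ (fun _ : Fin d => T)) =
      Set.pi univ (fun _ : Fin d => T) := by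
    ext z
    simp only [Set.mem_preimage, Set.mem_pi, Set.mem_univ, forall_true_left, hT]
  have h1 := hmpp.setIntegral_preimage_emb hemb
    (fun y : Fin d → (Fin d → ℝ) => V (Fin.cons (M x) y : Fin (d + 1) → (Fin d → ℝ)))
    (Set.pi univ (fun _ : Fin d => T))
  rw [hpre] at h1
  unfold phi
  rw [← h1]
  refine integral_congr_ae (Filter.Eventually.of_forall fun z => ?_)
  show V (Fin.cons (M x) (fun i => M (z i)) : Fin (d + 1) → (Fin d → ℝ)) = V (Fin.cons x z)
  have h2 : (Fin.cons (M x) (fun i => M (z i)) : Fin (d + 1) → (Fin d → ℝ)) =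
      fun i => M ((Fin.cons x z : Fin (d + 1) → (Fin d → ℝ)) i) + 0 := by
    funext i
    refine Fin.cases ?_ (fun j => ?_) i
    · simp
    · simp
  rw [h2, hVM, hdet, one_mul]

/-- exchange of coordinates as a linear map -/
theorem Phi_swap (n : ℕ) (i j : Fin (n + 1)) (x : Fin (n + 1) → ℝ)
    (hVM : ∀ (M : (Fin (n + 1) → ℝ) →ₗ[ℝ] (Fin (n + 1) → ℝ)) (b : Fin (n + 1) → ℝ)
      (x : Fin (n + 1 + 1) → (Fin (n + 1) → ℝ)), V (fun i => M (x i) + b) = |LinearMap.det M| * V x) :
    phi (T0 n) (x ∘ Equiv.swap i j) = phi (T0 n) x := by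
  refine Phi_invol (T0 n) (LinearMap.funLeft ℝ ℝ (Equiv.swap i j)) ?_ ?_ hVM x
  · intro y
    funext k
    simp [LinearMap.funLeft_apply]
  · intro y
    have hs : ∑ k, LinearMap.funLeft ℝ ℝ (Equiv.swap i j) y k = ∑ k, y k := by
      simp only [LinearMap.funLeft_apply]
      exact Equiv.sum_comp (Equiv.swap i j) y
    constructor
    · rintro ⟨h1, h2⟩
      rw [hs] at h1
      refine ⟨h1, fun k => ?_⟩
      have := h2 (Equiv.swap i j k)
      rw [hs, LinearMap.funLeft_apply, Equiv.swap_apply_self] at this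
      exact this
    · rintro ⟨h1, h2⟩
      refine ⟨by rw [hs]; exact h1, fun k => ?_⟩
      rw [hs, LinearMap.funLeft_apply]
      exact h2 _

theorem thm_phi (h1 : St_V) (h2 : St_L) (h3 : St_T0) (_h4 : St_Vdet) (_h5 : St_Dl) : St_phi := by
  intro n
  obtain ⟨hT1, -, hTc, hTx, hTn⟩ := h3 n
  obtain ⟨hVc, hVx, hVM, -, hV0, -⟩ := h1 (n + 1)
  have hmeas : MeasurableSet (Set.pi univ (fun _ : Fin (n + 1) => T0 n)) := (Phi_cpt hTc).measurableSet
  refine ⟨?_, ?_, ?_, ?_, ?_⟩
  · exact continuous_parametric_integral_of_continuous (f := fun (x : Fin (n + 1) → ℝ)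
      (y : Fin (n + 1) → (Fin (n + 1) → ℝ)) => V (Fin.cons x y : Fin (n + 1 + 1) → (Fin (n + 1) → ℝ)))
      (Phi_cont hVc) (Phi_cpt hTc)
  · refine ⟨convex_univ, ?_⟩
    intro x _ x' _ a b ha hb hab
    simp only [smul_eq_mul]
    unfold phi
    rw [← integral_const_mul, ← integral_const_mul, ← integral_add ((Phi_int hTc hVc x).const_mul a)
      ((Phi_int hTc hVc x').const_mul b)]
    refine integral_mono (Phi_int hTc hVc _) (((Phi_int hTc hVc x).const_mul a).add
      ((Phi_int hTc hVc x').const_mul b)) fun y => ?_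
    have := (hVx y).2 (Set.mem_univ x) (Set.mem_univ x') ha hb hab
    simpa only [smul_eq_mul] using this
  · intro j x
    exact Phi_invol (T0 n) (L n j) (h2 n j).1 (h2 n j).2.2 hVM x
  · intro σ
    induction σ using Equiv.Perm.swap_induction_on with
    | one =>
      intro x
      rfl
    | swap_mul f i j _ ih =>
      intro x
      have e1 : x ∘ (Equiv.swap i j * f : Equiv.Perm (Fin (n + 1))) = (x ∘ Equiv.swap i j) ∘ f := rfl
      rw [e1, ih, Phi_swap n i j x hVM]
  · -- positivity
    have hTpos : 0 < vol (T0 n) := by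
      rw [vol, ENNReal.toReal_pos_iff]
      exact ⟨MeasureTheory.Measure.measure_pos_of_mem_nhds volume hTn, hTc.measure_lt_top⟩
    have hVw : 0 < V (w n) := by
      rw [V, hT1]
      exact hTpos
    have hVh : 0 < V (fun i => (1 / 2 : ℝ) • w n i) := by
      have e1 := hVM ((1 / 2 : ℝ) • LinearMap.id) 0 (w n)
      have e2 : (fun i => ((1 / 2 : ℝ) • LinearMap.id : (Fin (n + 1) → ℝ) →ₗ[ℝ] (Fin (n + 1) → ℝ)) (w n i) + 0) =
          fun i => (1 / 2 : ℝ) • w n i := by
        funext i
        simp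
      rw [e2] at e1
      rw [e1, LinearMap.det_smul, LinearMap.det_id, mul_one]
      exact mul_pos (by positivity) hVw
    have hw : ∀ i, w n i ∈ T0 n := by
      intro i
      rw [← hT1]
      exact subset_convexHull ℝ _ (mem_range_self i)
    have hwi : ∀ i, (1 / 2 : ℝ) • w n i ∈ interior (T0 n) := by
      intro i
      have e1 := hTx.combo_interior_self_mem_interior (mem_interior_iff_mem_nhds.mpr hTn) (hw i)
        (by norm_num : (0 : ℝ) < 1 / 2) (by norm_num : (0 : ℝ) ≤ 1 / 2) (by norm_num)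
      rw [smul_zero, zero_add] at e1
      exact e1
    set S : Set (Fin (n + 1 + 1) → (Fin (n + 1) → ℝ)) := Set.pi univ (fun _ => T0 n) with hS
    have hSc : IsCompact S := isCompact_univ_pi fun _ => hTc
    have hint : IntegrableOn (V : (Fin (n + 1 + 1) → (Fin (n + 1) → ℝ)) → ℝ) S :=
      hVc.continuousOn.integrableOn_compact hSc
    show 0 < ∫ x in S, V x
    rw [integral_pos_iff_support_of_nonneg hV0 hint]
    have hmS : MeasurableSet S := hSc.measurableSet
    have hsub : (Set.pi univ (fun _ : Fin (n + 1 + 1) => interior (T0 n))) ∩ {x | 0 < V x} ⊆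
        Function.support (V : (Fin (n + 1 + 1) → (Fin (n + 1) → ℝ)) → ℝ) ∩ S := by
      rintro x ⟨hx1, hx2⟩
      refine ⟨ne_of_gt hx2, fun i hi => interior_subset (hx1 i hi)⟩
    have hopen : IsOpen ((Set.pi univ (fun _ : Fin (n + 1 + 1) => interior (T0 n))) ∩
        {x : Fin (n + 1 + 1) → (Fin (n + 1) → ℝ) | 0 < V x}) :=
      (isOpen_set_pi Set.finite_univ fun _ _ => isOpen_interior).inter (isOpen_lt continuous_const hVc)
    have hne : ((Set.pi univ (fun _ : Fin (n + 1 + 1) => interior (T0 n))) ∩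
        {x : Fin (n + 1 + 1) → (Fin (n + 1) → ℝ) | 0 < V x}).Nonempty :=
      ⟨fun i => (1 / 2 : ℝ) • w n i, fun i _ => hwi i, hVh⟩
    rw [Measure.restrict_apply' hmS]
    exact (hopen.measure_pos volume hne).trans_le (measure_mono hsub)

end

end Pool.Agent.SYL
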