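import Pool.Agent.SYL.St

/-! # Sylvester problem, module Phis: the strict minimum of the mean volume on the facet -/

set_option autoImplicit false

namespace Pool.Agent.SYL

open MeasureTheory Set

noncomputable section

theorem Phis_pos {X : Type*} [TopologicalSpace X] [MeasurableSpace X] [OpensMeasurableSpace X]
    [T2Space X] (μ : Measure X) [IsFiniteMeasureOnCompacts μ] [μ.IsOpenPosMeasure] {S : Set X}
    (hS : IsCompact S) (hSi : S ⊆ closure (interior S)) {f : X → ℝ} (hf : Continuous f)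
    (h0 : ∀ x, 0 ≤ f x) {y : X} (hy : y ∈ S) (hfy : 0 < f y) : 0 < ∫ x in S, f x ∂μ := by
  rw [setIntegral_pos_iff_support_of_nonneg_ae (Filter.Eventually.of_forall h0)
    (hf.continuousOn.integrableOn_compact hS)]
  have h1 : IsOpen {x | 0 < f x} := isOpen_lt continuous_const hf
  obtain ⟨z, hz1, hz2⟩ := mem_closure_iff.1 (hSi hy) _ h1 hfy
  have h2 : 0 < μ ({x | 0 < f x} ∩ interior S) :=
    (h1.inter isOpen_interior).measure_pos μ ⟨z, hz1, hz2⟩
  refine lt_of_lt_of_le h2 (measure_mono ?_)
  rintro x ⟨hx1, hx2⟩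
  exact ⟨ne_of_gt hx1, interior_subset hx2⟩

/-- the test configuration -/
def Phis_y {n : ℕ} (i k : Fin (n + 1)) : Fin (n + 1) → (Fin (n + 1) → ℝ) := fun l =>
  if l = i then (fun _ => -1)
  else if l = k then (fun j => (if j = i then 1 / 2 else 0) + (if j = k then 1 / 2 else 0))
  else fun j => if j = l then 1 else 0

theorem Phis_mem {n : ℕ} {i k : Fin (n + 1)} (l : Fin (n + 1)) :
    Phis_y i k l ∈ T0 n := by
  unfold Phis_y
  split_ifs with h1 h2
  · refine ⟨?_, fun j => ?_⟩
    · simp
      linarith [Nat.cast_nonneg (α := ℝ) n]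
    · simp
      have : (0 : ℝ) < (n : ℝ) + 2 := by positivity
      rw [le_div_iff₀ this]
      linarith
  · refine ⟨?_, fun j => ?_⟩
    · rw [Finset.sum_add_distrib]
      simp
      norm_num
    · rw [Finset.sum_add_distrib]
      simp only [Finset.sum_ite_eq', Finset.mem_univ, if_true]
      norm_num
      split_ifs <;> norm_num
  · refine ⟨?_, fun j => ?_⟩
    · simp
    · simp only [Finset.sum_ite_eq', Finset.mem_univ, if_true]
      norm_num
      split_ifs <;> norm_num

theorem Phis_zero {n : ℕ} {i k : Fin (n + 1)} (hik : i ≠ k) (x : Fin (n + 1) → ℝ)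
    (hx : x i = x k) :
    dt (Fin.cons x (Phis_y i k) : Fin (n + 1 + 1) → (Fin (n + 1) → ℝ)) = 0 := by
  unfold dt
  rw [← Matrix.exists_mulVec_eq_zero_iff]
  refine ⟨Pi.single i 1 - Pi.single k 1, ?_, ?_⟩
  · intro h
    have h1 := congrFun h i
    simp [hik] at h1
  · funext j
    rw [Matrix.mulVec_sub]
    simp only [Matrix.mulVec_single_one, Pi.sub_apply, Matrix.col_apply, Matrix.of_apply,
      Fin.cons_succ, Fin.cons_zero, Pi.zero_apply]
    rw [hx]
    have h2 : Phis_y i k j i = Phis_y i k j k := by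
      unfold Phis_y
      split_ifs with h3 h4
      · rfl
      · simp [hik, hik.symm]
      · have h5 : i ≠ j := fun h => h3 h.symm
        have h6 : k ≠ j := fun h => h4 h.symm
        simp [h5, h6]
    rw [h2]
    ring

theorem Phis_ne {n : ℕ} {i k : Fin (n + 1)} (x : Fin (n + 1) → ℝ)
    (hx : x i ≠ x k) :
    dt (Fin.cons x (Phis_y i k) : Fin (n + 1 + 1) → (Fin (n + 1) → ℝ)) ≠ 0 := by
  have hik : i ≠ k := fun h => hx (by rw [h])
  intro h
  unfold dt at h
  obtain ⟨v, hv, hMv⟩ := Matrix.exists_mulVec_eq_zero_iff.2 h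
  obtain ⟨c, hc⟩ : ∃ c, c = ∑ l, x l * v l := ⟨_, rfl⟩
  have h1 : ∀ j, ∑ l, Phis_y i k j l * v l = c := by
    intro j
    have h2 := congrFun hMv j
    simp only [Matrix.mulVec, dotProduct, Matrix.of_apply, Fin.cons_succ, Fin.cons_zero,
      Pi.sub_apply, Pi.zero_apply, sub_mul, Finset.sum_sub_distrib] at h2
    rw [hc]
    linarith
  have h2 := h1 i
  have h3 := h1 k
  have h4 : ∀ l, l ≠ i → l ≠ k → v l = c := by
    intro l hl1 hl2
    have h5 := h1 l
    simp only [Phis_y, hl1, hl2, if_false, ite_mul, one_mul, zero_mul, Finset.sum_ite_eq',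
      Finset.mem_univ, if_true] at h5
    exact h5
  simp only [Phis_y, if_true, hik.symm, if_false, add_mul, ite_mul, zero_mul,
    Finset.sum_add_distrib, Finset.sum_ite_eq', Finset.mem_univ, neg_mul, one_mul,
    Finset.sum_neg_distrib] at h2 h3
  have h5 : ∀ l, v l - c = (if l = i then v i - c else 0) + (if l = k then v k - c else 0) := by
    intro l
    by_cases h6 : l = i
    · rw [h6]
      simp [hik]
    · by_cases h7 : l = k
      · rw [h7]
        simp [hik.symm]
      · rw [h4 l h6 h7]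
        simp [h6, h7]
  have h6 : ∑ l, (v l - c) = (v i - c) + (v k - c) := by
    rw [Finset.sum_congr rfl fun l _ => h5 l, Finset.sum_add_distrib]
    simp
  rw [Finset.sum_sub_distrib] at h6
  simp only [Finset.sum_const, Finset.card_univ, Fintype.card_fin, nsmul_eq_mul] at h6
  push_cast at h6
  have hc0 : c = 0 := by
    have h7 : ((n : ℝ) + 2) * c = 0 := by linarith
    rcases mul_eq_zero.1 h7 with h8 | h8
    · exfalso
      have : (0 : ℝ) < (n : ℝ) + 2 := by positivity
      linarith
    · exact h8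
  have h7 : ∀ l, v l = (if l = i then v i else 0) + (if l = k then v k else 0) := by
    intro l
    have := h5 l
    rw [hc0] at this
    simp only [sub_zero] at this
    exact this
  have h8 : ∑ l, x l * v l = x i * v i + x k * v k := by
    have h9 : ∀ l, x l * v l = (if l = i then x i * v i else 0) +
        (if l = k then x k * v k else 0) := by
      intro l
      rw [h7 l]
      by_cases h10 : l = i
      · rw [h10]
        simp [hik]
      · by_cases h11 : l = k
        · rw [h11]
          simp [hik.symm]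
        · simp [h10, h11]
    rw [Finset.sum_congr rfl fun l _ => h9 l, Finset.sum_add_distrib]
    simp
  rw [← hc, hc0] at h8
  have h9 : v k = - v i := by
    rw [hc0] at h3
    linarith
  rw [h9] at h8
  have h10 : (x i - x k) * v i = 0 := by linarith
  have h11 : v i = 0 := by
    rcases mul_eq_zero.1 h10 with h12 | h12
    · exfalso
      exact hx (by linarith)
    · exact h12
  apply hv
  funext l
  rw [h7 l, h9, h11]
  simp

theorem Phis_closure (h5 : St_T0) (n : ℕ) : IsCompact (Set.pi univ (fun _ : Fin (n + 1) => T0 n)) ∧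
    Set.pi univ (fun _ : Fin (n + 1) => T0 n) ⊆
      closure (interior (Set.pi univ (fun _ : Fin (n + 1) => T0 n))) := by
  obtain ⟨-, -, hc, hv, hn⟩ := h5 n
  refine ⟨isCompact_univ_pi fun _ => hc, ?_⟩
  rw [interior_pi_set finite_univ, closure_pi_set]
  have h1 : T0 n ⊆ closure (interior (T0 n)) := by
    rw [hv.closure_interior_eq_closure_of_nonempty_interior ⟨0, mem_interior_iff_mem_nhds.2 hn⟩]
    exact subset_closure
  exact Set.pi_mono fun _ _ => h1

theorem Phis_step (h1 : St_V) (h2 : St_phi) (h3 : St_Vdet) (h4 : St_Dl) (h5 : St_T0) (n : ℕ)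
    (p : Fin (n + 1) → ℝ) (hp : p ∈ stdSimplex ℝ (Fin (n + 1))) (i k : Fin (n + 1))
    (hik : p i ≠ p k) : ∃ m ∈ stdSimplex ℝ (Fin (n + 1)), phi (T0 n) m < phi (T0 n) p := by
  obtain ⟨p', hp'⟩ : ∃ p', p' = p ∘ Equiv.swap i k := ⟨_, rfl⟩
  have hik' : i ≠ k := fun h => hik (by rw [h])
  have hp'S : p' ∈ stdSimplex ℝ (Fin (n + 1)) := by
    rw [hp']
    refine ⟨fun l => hp.1 _, ?_⟩
    rw [← hp.2]
    exact Equiv.sum_comp (Equiv.swap i k) p
  obtain ⟨hVc, hVx, -, -, hV0, -⟩ := h1 (n + 1)
  obtain ⟨hS, hSi⟩ := Phis_closure h5 n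
  obtain ⟨-, -, -, hsym, -⟩ := h2 n
  refine ⟨(1 / 2 : ℝ) • p + (1 / 2 : ℝ) • p', ?_, ?_⟩
  · exact convex_stdSimplex ℝ _ hp hp'S (by norm_num) (by norm_num) (by norm_num)
  · have hcont : ∀ x : Fin (n + 1) → ℝ, Continuous fun y : Fin (n + 1) → (Fin (n + 1) → ℝ) =>
        V (Fin.cons x y : Fin (n + 1 + 1) → (Fin (n + 1) → ℝ)) := by
      intro x
      refine hVc.comp ?_
      refine continuous_pi fun j => ?_
      refine Fin.cases ?_ (fun j => ?_) j
      · exact continuous_const
      · exact continuous_apply j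
    have hint : ∀ x : Fin (n + 1) → ℝ, IntegrableOn (fun y : Fin (n + 1) → (Fin (n + 1) → ℝ) =>
        V (Fin.cons x y : Fin (n + 1 + 1) → (Fin (n + 1) → ℝ)))
        (Set.pi univ (fun _ : Fin (n + 1) => T0 n)) := fun x =>
      (hcont x).continuousOn.integrableOn_compact hS
    have hpos : 0 < ∫ y in Set.pi univ (fun _ : Fin (n + 1) => T0 n),
        ((1 / 2 * V (Fin.cons p y : Fin (n + 1 + 1) → (Fin (n + 1) → ℝ)) +
          1 / 2 * V (Fin.cons p' y : Fin (n + 1 + 1) → (Fin (n + 1) → ℝ))) -
          V (Fin.cons ((1 / 2 : ℝ) • p + (1 / 2 : ℝ) • p') y :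
            Fin (n + 1 + 1) → (Fin (n + 1) → ℝ))) := by
      refine Phis_pos volume hS hSi ?_ ?_ (y := Phis_y i k) ?_ ?_
      · exact ((continuous_const.mul (hcont p)).add (continuous_const.mul (hcont p'))).sub
          (hcont _)
      · intro y
        have h6 := (hVx y).2 (mem_univ p) (mem_univ p') (show (0 : ℝ) ≤ 1 / 2 by norm_num)
          (show (0 : ℝ) ≤ 1 / 2 by norm_num) (by norm_num)
        simp only [smul_eq_mul] at h6
        linarith
      · intro l _
        exact Phis_mem l
      · have h6 : V (Fin.cons ((1 / 2 : ℝ) • p + (1 / 2 : ℝ) • p') (Phis_y i k) :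
            Fin (n + 1 + 1) → (Fin (n + 1) → ℝ)) = 0 := by
          rw [h3, Phis_zero hik', abs_zero, mul_zero]
          rw [hp']
          simp only [Pi.add_apply, Pi.smul_apply, Function.comp_apply, Equiv.swap_apply_left,
            Equiv.swap_apply_right, smul_eq_mul]
          ring
        have h7 : 0 < V (Fin.cons p (Phis_y i k) : Fin (n + 1 + 1) → (Fin (n + 1) → ℝ)) := by
          rw [h3]
          exact mul_pos (h4 _).2.2 (abs_pos.2 (Phis_ne p hik))
        have h8 := hV0 (Fin.cons p' (Phis_y i k) : Fin (n + 1 + 1) → (Fin (n + 1) → ℝ))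
        rw [h6]
        linarith
    rw [integral_sub, integral_add, integral_const_mul, integral_const_mul] at hpos
    · have h6 : phi (T0 n) p' = phi (T0 n) p := by
        rw [hp']
        exact hsym _ p
      unfold phi at h6 ⊢
      rw [h6] at hpos
      linarith
    · exact (hint p).const_mul _
    · exact (hint p').const_mul _
    · exact ((hint p).const_mul _).add ((hint p').const_mul _)
    · exact hint _

theorem Phis_two {n : ℕ} (p : Fin (n + 1) → ℝ) (hp : p ∈ stdSimplex ℝ (Fin (n + 1)))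
    (hg : p ≠ gS n) : ∃ i k, p i ≠ p k := by
  by_contra hcon
  push Not at hcon
  apply hg
  funext i
  have h1 : ∑ j, p j = ∑ _j : Fin (n + 1), p i := Finset.sum_congr rfl fun j _ => hcon j i
  rw [hp.2] at h1
  simp only [Finset.sum_const, Finset.card_univ, Fintype.card_fin, nsmul_eq_mul] at h1
  push_cast at h1
  unfold gS
  rw [eq_div_iff (by positivity)]
  linarith

theorem thm_phistrict (h1 : St_V) (h2 : St_phi) (h3 : St_Vdet) (h4 : St_Dl) (h5 : St_T0) :
    St_phistrict := by
  intro n p hp hg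
  obtain ⟨i, k, hik⟩ := Phis_two p hp hg
  obtain ⟨m, hm, hlt⟩ := Phis_step h1 h2 h3 h4 h5 n p hp i k hik
  obtain ⟨q, hq, hmin⟩ := (isCompact_stdSimplex ℝ (Fin (n + 1))).exists_isMinOn ⟨p, hp⟩
    (h2 n).1.continuousOn
  have hqg : q = gS n := by
    by_contra hq2
    obtain ⟨i', k', hik'⟩ := Phis_two q hq hq2
    obtain ⟨m', hm', hlt'⟩ := Phis_step h1 h2 h3 h4 h5 n q hq i' k' hik'
    exact absurd (hmin hm') (not_le.2 hlt')
  rw [← hqg]
  exact lt_of_le_of_lt (hmin hm) hlt

end

end Pool.Agent.SYL
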