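import Pool.Agent.SYL.St

/-! # Sylvester problem: elementary properties of the volume of a simplex -/

namespace Pool.Agent.SYL

open MeasureTheory Set

/-- the bordered matrix -/
noncomputable def VProp_B {d : ℕ} (v : Fin (d + 1) → (Fin d → ℝ)) : Matrix (Fin (d + 1)) (Fin (d + 1)) ℝ :=
  Matrix.of fun i => (Fin.cons (1 : ℝ) (v i) : Fin (d + 1) → ℝ)

theorem VProp_dt {d : ℕ} (v : Fin (d + 1) → (Fin d → ℝ)) : dt v = (VProp_B v).det := by
  have h1 := Matrix.det_eq_of_forall_row_eq_smul_add_const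
    (A := Matrix.of fun i : Fin (d + 1) => fun j : Fin (d + 1) =>
      VProp_B v i j + (if i = 0 then 0 else -1) * VProp_B v 0 j)
    (B := VProp_B v) (fun i => if i = 0 then 0 else -1) 0 (by simp) (fun i j => rfl)
  rw [← h1, Matrix.det_succ_column_zero, Fin.sum_univ_succ]
  have h2 : ∑ i : Fin d, (-1 : ℝ) ^ ((i.succ : Fin (d + 1)) : ℕ) *
      (Matrix.of fun i : Fin (d + 1) => fun j : Fin (d + 1) =>
      VProp_B v i j + (if i = 0 then 0 else -1) * VProp_B v 0 j) i.succ 0 *
      ((Matrix.of fun i : Fin (d + 1) => fun j : Fin (d + 1) =>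
      VProp_B v i j + (if i = 0 then 0 else -1) * VProp_B v 0 j).submatrix i.succ.succAbove Fin.succ).det = 0 := by
    apply Finset.sum_eq_zero
    intro i _
    have : (Matrix.of fun i : Fin (d + 1) => fun j : Fin (d + 1) =>
      VProp_B v i j + (if i = 0 then 0 else -1) * VProp_B v 0 j) i.succ 0 = 0 := by
      simp [VProp_B]
    rw [this]
    ring
  rw [h2, add_zero]
  have h3 : (Matrix.of fun i : Fin (d + 1) => fun j : Fin (d + 1) =>
      VProp_B v i j + (if i = 0 then 0 else -1) * VProp_B v 0 j) 0 0 = 1 := by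
    simp [VProp_B]
  rw [h3]
  unfold dt
  have h4 : (Matrix.of fun i : Fin (d + 1) => fun j : Fin (d + 1) =>
      VProp_B v i j + (if i = 0 then 0 else -1) * VProp_B v 0 j).submatrix
      (Fin.succAbove 0) Fin.succ = Matrix.of fun i : Fin d => v i.succ - v 0 := by
    ext i j
    simp [VProp_B]
    ring
  rw [h4]
  simp

theorem VProp_affine {d : ℕ} (y : Fin d → (Fin d → ℝ)) (x x' : Fin d → ℝ) (a b : ℝ) (hab : a + b = 1) :
    dt (Fin.cons (a • x + b • x') y : Fin (d + 1) → (Fin d → ℝ)) =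
      a * dt (Fin.cons x y : Fin (d + 1) → (Fin d → ℝ)) +
        b * dt (Fin.cons x' y : Fin (d + 1) → (Fin d → ℝ)) := by
  rw [VProp_dt, VProp_dt, VProp_dt]
  have key : ∀ z : Fin d → ℝ, VProp_B (Fin.cons z y : Fin (d + 1) → (Fin d → ℝ)) =
      (VProp_B (Fin.cons x y : Fin (d + 1) → (Fin d → ℝ))).updateRow 0
        (Fin.cons (1 : ℝ) z : Fin (d + 1) → ℝ) := by
    intro z
    ext i j
    refine Fin.cases ?_ (fun i => ?_) i
    · simp [VProp_B, Matrix.updateRow_apply]
    · simp [VProp_B, Matrix.updateRow_apply]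
  have hrow : (Fin.cons (1 : ℝ) (a • x + b • x') : Fin (d + 1) → ℝ) =
      a • (Fin.cons (1 : ℝ) x : Fin (d + 1) → ℝ) + b • (Fin.cons (1 : ℝ) x' : Fin (d + 1) → ℝ) := by
    ext j
    refine Fin.cases ?_ (fun j => ?_) j
    · simp [hab]
    · simp
  rw [key (a • x + b • x'), hrow, Matrix.det_updateRow_add, Matrix.det_updateRow_smul,
    Matrix.det_updateRow_smul, ← key x, ← key x']

theorem VProp_cont {d : ℕ} : Continuous (fun v : Fin (d + 1) → (Fin d → ℝ) => dt v) := by
  unfold dt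
  apply Continuous.matrix_det
  apply continuous_matrix
  intro i j
  simp only [Matrix.of_apply, Pi.sub_apply]
  fun_prop

theorem VProp_lin {d : ℕ} (M : (Fin d → ℝ) →ₗ[ℝ] (Fin d → ℝ)) (b : Fin d → ℝ)
    (x : Fin (d + 1) → (Fin d → ℝ)) :
    dt (fun i => M (x i) + b) = dt x * LinearMap.det M := by
  unfold dt
  rw [← LinearMap.det_toMatrix', ← Matrix.det_transpose (LinearMap.toMatrix' M), ← Matrix.det_mul]
  congr 1
  ext i j
  have h1 : (M (x i.succ) + b - (M (x 0) + b)) = M (x i.succ - x 0) := by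
    rw [map_sub]
    abel
  have h2 : M (x i.succ - x 0) = (LinearMap.toMatrix' M).mulVec (x i.succ - x 0) := by
    rw [← Matrix.toLin'_apply, Matrix.toLin'_toMatrix']
  simp only [Matrix.of_apply]
  rw [h1, h2, Matrix.mul_apply]
  simp only [Matrix.mulVec, dotProduct, Matrix.transpose_apply, Matrix.of_apply]
  apply Finset.sum_congr rfl
  intro k _
  ring

/-- A4. -/
theorem thm_V (h1 : St_Vdet) (_h2 : St_hull) (_h3 : St_Dl) : St_V := by
  intro d
  have hv : 0 ≤ vol (Dl d) := ENNReal.toReal_nonneg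
  refine ⟨?_, ?_, ?_, ?_, ?_, ?_⟩
  · have : (V : (Fin (d + 1) → (Fin d → ℝ)) → ℝ) = fun v => vol (Dl d) * |dt v| := by
      funext v
      exact h1 d v
    rw [this]
    exact continuous_const.mul VProp_cont.abs
  · intro y
    refine ⟨convex_univ, ?_⟩
    intro x _ x' _ a b ha hb hab
    show V (Fin.cons (a • x + b • x') y : Fin (d + 1) → (Fin d → ℝ)) ≤
      a * V (Fin.cons x y : Fin (d + 1) → (Fin d → ℝ)) +
        b * V (Fin.cons x' y : Fin (d + 1) → (Fin d → ℝ))
    rw [h1 d (Fin.cons (a • x + b • x') y), h1 d (Fin.cons x y), h1 d (Fin.cons x' y),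
      VProp_affine y x x' a b hab]
    have h4 : |a * dt (Fin.cons x y : Fin (d + 1) → (Fin d → ℝ)) +
        b * dt (Fin.cons x' y : Fin (d + 1) → (Fin d → ℝ))| ≤
        a * |dt (Fin.cons x y : Fin (d + 1) → (Fin d → ℝ))| +
        b * |dt (Fin.cons x' y : Fin (d + 1) → (Fin d → ℝ))| := by
      refine (abs_add_le _ _).trans (le_of_eq ?_)
      rw [abs_mul, abs_mul, abs_of_nonneg ha, abs_of_nonneg hb]
    have h5 := mul_le_mul_of_nonneg_left h4 hv
    linarith
  · intro M b x
    rw [h1, h1, VProp_lin, abs_mul]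
    ring
  · intro σ x
    unfold V
    rw [σ.surjective.range_comp]
  · intro x
    exact ENNReal.toReal_nonneg
  · intro T hT hc x hx
    unfold V vol
    apply ENNReal.toReal_mono hT.measure_ne_top
    apply measure_mono
    apply convexHull_min _ hc
    rintro _ ⟨i, rfl⟩
    exact hx i

end Pool.Agent.SYL
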