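import Pool.Agent.SYL.St

set_option autoImplicit false

/-! # SYL Vdet: the volume of a simplex -/

namespace Pool.Agent.SYL

open MeasureTheory Set

theorem Vdet_lin {d : ℕ} (u : Fin d → (Fin d → ℝ)) (x : Fin d → ℝ) :
    Matrix.toLin' (Matrix.of u).transpose x = ∑ i, x i • u i := by
  ext j
  rw [Matrix.toLin'_apply, Matrix.mulVec, dotProduct, Finset.sum_apply]
  refine Finset.sum_congr rfl fun i _ => ?_
  rw [Matrix.transpose_apply, Matrix.of_apply, Pi.smul_apply, smul_eq_mul, mul_comm]

theorem thm_Vdet (h1 : St_hull) (_h2 : St_Dl) : St_Vdet := by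
  intro d v
  unfold V vol
  rw [h1 d v]
  have h3 : (fun x : Fin d → ℝ => v 0 + ∑ i, x i • (v i.succ - v 0)) '' Dl d =
      (fun y => v 0 + y) ''
        (Matrix.toLin' (Matrix.of fun i : Fin d => v i.succ - v 0).transpose '' Dl d) := by
    rw [image_image]
    refine image_congr fun x _ => ?_
    rw [Vdet_lin]
  rw [h3, image_add_left, measure_preimage_add, Measure.addHaar_image_linearMap,
    LinearMap.det_toLin', Matrix.det_transpose, ENNReal.toReal_mul,
    ENNReal.toReal_ofReal (abs_nonneg _), mul_comm]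
  rfl

end Pool.Agent.SYL
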