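import Pool.Agent.SYL.St

set_option autoImplicit false

/-! # SYL Aff: affine maps -/

namespace Pool.Agent.SYL

open MeasureTheory Set

/-- the linear map on the `d+1` points -/
noncomputable def Aff_P {d : ℕ} (M : (Fin d → ℝ) →ₗ[ℝ] (Fin d → ℝ)) :
    (Fin (d + 1) → Fin d → ℝ) →ₗ[ℝ] (Fin (d + 1) → Fin d → ℝ) :=
  LinearMap.pi fun i => M.comp (LinearMap.proj i)

theorem Aff_det {d : ℕ} (M : (Fin d → ℝ) →ₗ[ℝ] (Fin d → ℝ)) :
    LinearMap.det (Aff_P M) = LinearMap.det M ^ (d + 1) := by
  unfold Aff_P
  rw [LinearMap.det_pi (fun _ : Fin (d + 1) => M), Finset.prod_const, Finset.card_univ,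
    Fintype.card_fin]

theorem Aff_inj {d : ℕ} {M : (Fin d → ℝ) →ₗ[ℝ] (Fin d → ℝ)} (h : LinearMap.det M ≠ 0) :
    Function.Injective M := (M.equivOfDetNeZero h).injective

theorem thm_aff (h1 : St_V) : St_aff := by
  intro d M b K hM hK
  constructor
  · unfold vol
    have h3 : (fun x => M x + b) '' K = (fun y => y + b) '' (M '' K) := by
      rw [image_image]
    rw [h3, image_add_right, measure_preimage_add_right, Measure.addHaar_image_linearMap,
      ENNReal.toReal_mul, ENNReal.toReal_ofReal (abs_nonneg _)]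
  · unfold G
    have h3 : Set.pi univ (fun _ : Fin (d + 1) => (fun x => M x + b) '' K) =
        (fun x : Fin (d + 1) → Fin d → ℝ => Aff_P M x + fun _ => b) ''
          Set.pi univ (fun _ : Fin (d + 1) => K) := by
      ext x
      constructor
      · intro hx
        choose y hy hxy using fun i => hx i (mem_univ i)
        refine ⟨y, fun i _ => hy i, ?_⟩
        funext i
        exact hxy i
      · rintro ⟨y, hy, rfl⟩ i _
        exact ⟨y i, hy i (mem_univ i), rfl⟩
    have hKm : MeasurableSet (Set.pi univ (fun _ : Fin (d + 1) => K)) :=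
      MeasurableSet.univ_pi fun _ => hK
    have hder : ∀ x ∈ Set.pi univ (fun _ : Fin (d + 1) => K),
        HasFDerivWithinAt (fun x : Fin (d + 1) → Fin d → ℝ => Aff_P M x + fun _ => b)
          (LinearMap.toContinuousLinearMap (Aff_P M)) (Set.pi univ (fun _ : Fin (d + 1) => K)) x := by
      intro x _
      exact ((LinearMap.toContinuousLinearMap (Aff_P M)).hasFDerivAt.add_const _).hasFDerivWithinAt
    have hinj : InjOn (fun x : Fin (d + 1) → Fin d → ℝ => Aff_P M x + fun _ => b)
        (Set.pi univ (fun _ : Fin (d + 1) => K)) := by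
      intro x _ y _ hxy
      have h4 : Aff_P M x = Aff_P M y := add_right_cancel hxy
      funext i
      exact Aff_inj hM (congrFun h4 i)
    rw [h3, integral_image_eq_integral_abs_det_fderiv_smul volume hKm hder hinj]
    have h4 : |(LinearMap.toContinuousLinearMap (Aff_P M)).det| = |LinearMap.det M| ^ (d + 1) := by
      rw [LinearMap.det_toContinuousLinearMap, Aff_det, abs_pow]
    rw [h4]
    have h5 : ∀ x : Fin (d + 1) → Fin d → ℝ,
        |LinearMap.det M| ^ (d + 1) • V (Aff_P M x + fun _ => b) =
          |LinearMap.det M| ^ (d + 2) * V x := by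
      intro x
      have h6 := (h1 d).2.2.1 M b x
      have h7 : (Aff_P M x + fun _ => b) = fun i => M (x i) + b := rfl
      rw [h7, h6, smul_eq_mul]
      ring
    simp_rw [h5]
    rw [integral_const_mul]

end Pool.Agent.SYL
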