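import Pool.Agent.SYL.St

/-!
# Sylvester problem, module Norm: the simplices are the affine images of `T0`
-/

set_option autoImplicit false

namespace Pool.Agent.SYL

open MeasureTheory Set

/-- The basis of the edge vectors. -/
private theorem Norm_basis {n : ℕ} (u : Fin (n + 2) → (Fin (n + 1) → ℝ))
    (hu : AffineIndependent ℝ u) :
    ∃ B : Module.Basis (Fin (n + 1)) ℝ (Fin (n + 1) → ℝ), ∀ i, B i = u i.succ - u 0 := by
  have h1 := (affineIndependent_iff_linearIndependent_vsub ℝ u 0).1 hu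
  have h2 : LinearIndependent ℝ (fun i : Fin (n + 1) => u i.succ - u 0) := by
    have h3 := h1.comp (fun i : Fin (n + 1) => (⟨i.succ, Fin.succ_ne_zero i⟩ : {x : Fin (n + 2) // x ≠ 0}))
      (by
        intro i j hij
        exact Fin.succ_injective _ (congrArg Subtype.val hij))
    exact h3
  refine ⟨basisOfLinearIndependentOfCardEqFinrank h2 (by simp), fun i => ?_⟩
  rw [coe_basisOfLinearIndependentOfCardEqFinrank]

/-- The affine map `x ↦ M x + b`. -/
private def Norm_aff {n : ℕ} (M : (Fin (n + 1) → ℝ) →ₗ[ℝ] (Fin (n + 1) → ℝ))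
    (b : Fin (n + 1) → ℝ) : (Fin (n + 1) → ℝ) →ᵃ[ℝ] (Fin (n + 1) → ℝ) :=
  M.toAffineMap + AffineMap.const ℝ _ b

private theorem Norm_coe {n : ℕ} (M : (Fin (n + 1) → ℝ) →ₗ[ℝ] (Fin (n + 1) → ℝ))
    (b : Fin (n + 1) → ℝ) : ⇑(Norm_aff M b) = fun x => M x + b := by
  funext x
  simp [Norm_aff]

private theorem Norm_hull {n : ℕ} (M : (Fin (n + 1) → ℝ) →ₗ[ℝ] (Fin (n + 1) → ℝ))
    (b : Fin (n + 1) → ℝ) (u : Fin (n + 2) → (Fin (n + 1) → ℝ)) :
    (fun x => M x + b) '' convexHull ℝ (range u) = convexHull ℝ (range fun i => M (u i) + b) := by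
  rw [← Norm_coe, AffineMap.image_convexHull, ← range_comp, Norm_coe]
  rfl

theorem thm_norm (h1 : St_T0) : St_norm := by
  intro n
  constructor
  · rintro T ⟨v, hv, rfl⟩
    obtain ⟨hw, hwi, -⟩ := h1 n
    obtain ⟨Bw, hBw⟩ := Norm_basis _ hwi
    obtain ⟨Bv, hBv⟩ := Norm_basis v hv
    let M : (Fin (n + 1) → ℝ) ≃ₗ[ℝ] (Fin (n + 1) → ℝ) := Bw.equiv Bv (Equiv.refl _)
    have hM : ∀ i : Fin (n + 1), M (w n i.succ - w n 0) = v i.succ - v 0 := by
      intro i
      rw [← hBw, ← hBv]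
      exact Bw.equiv_apply i Bv (Equiv.refl _)
    refine ⟨(M : (Fin (n + 1) → ℝ) →ₗ[ℝ] (Fin (n + 1) → ℝ)), v 0 - M (w n 0), ?_, ?_⟩
    · exact (LinearEquiv.isUnit_det' M).ne_zero
    · rw [← hw, Norm_hull]
      congr 2
      funext i
      refine Fin.cases ?_ (fun j => ?_) i
      · show M (w n 0) + (v 0 - M (w n 0)) = v 0
        abel
      · show M (w n j.succ) + (v 0 - M (w n 0)) = v j.succ
        have h2 := hM j
        rw [map_sub] at h2
        rw [show M (w n j.succ) + (v 0 - M (w n 0)) = (M (w n j.succ) - M (w n 0)) + v 0 by abel,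
          h2]
        abel
  · rintro T M b hM ⟨v, hv, rfl⟩
    refine ⟨fun i => M (v i) + b, ?_, Norm_hull M b v⟩
    have h2 : Function.Injective (Norm_aff M b) := by
      rw [Norm_coe]
      intro x y hxy
      have h3 : M x = M y := add_right_cancel hxy
      exact (LinearMap.equivOfDetNeZero M hM).injective h3
    have h4 := hv.map' (Norm_aff M b) h2
    rw [Norm_coe] at h4
    exact h4

end Pool.Agent.SYL
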