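import Pool.Agent.SYL.St

/-! # A6: barycentric coordinates of the normalised simplex -/

namespace Pool.Agent.SYL

open MeasureTheory Set

noncomputable section

/-- barycentric coordinates with respect to `w n` -/
def T0_b (n : ℕ) (x : Fin (n + 1) → ℝ) : Fin (n + 2) → ℝ :=
  (Fin.cons ((1 - ∑ k, x k) / ((n : ℝ) + 2)) (fun i => x i + (1 - ∑ k, x k) / ((n : ℝ) + 2)) :
    Fin (n + 2) → ℝ)

theorem T0_b_zero (n : ℕ) (x : Fin (n + 1) → ℝ) :
    T0_b n x 0 = (1 - ∑ k, x k) / ((n : ℝ) + 2) := rfl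

theorem T0_b_succ (n : ℕ) (x : Fin (n + 1) → ℝ) (i : Fin (n + 1)) :
    T0_b n x i.succ = x i + (1 - ∑ k, x k) / ((n : ℝ) + 2) := rfl

theorem T0_w_zero (n : ℕ) (i : Fin (n + 1)) : w n 0 i = -1 := rfl

theorem T0_w_succ (n : ℕ) (j : Fin (n + 1)) : w n j.succ = Pi.single j (1 : ℝ) := rfl

theorem T0_b_sum (n : ℕ) (x : Fin (n + 1) → ℝ) : ∑ j, T0_b n x j = 1 := by
  rw [Fin.sum_univ_succ]
  simp only [T0_b_zero, T0_b_succ]
  rw [Finset.sum_add_distrib, Finset.sum_const, Finset.card_univ, Fintype.card_fin, nsmul_eq_mul]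
  have hn : ((n : ℝ) + 2) ≠ 0 := by positivity
  push_cast
  field_simp
  ring

theorem T0_comb (n : ℕ) (c : Fin (n + 2) → ℝ) (i : Fin (n + 1)) :
    (∑ j, c j • w n j) i = c i.succ - c 0 := by
  rw [Finset.sum_apply, Fin.sum_univ_succ]
  have h1 : ∀ j : Fin (n + 1), (c j.succ • w n j.succ) i = if j = i then c i.succ else 0 := by
    intro j
    rw [T0_w_succ, Pi.smul_apply, smul_eq_mul]
    by_cases h : j = i
    · subst h; simp
    · rw [Pi.single_eq_of_ne (Ne.symm h)]; simp [h]
  rw [Finset.sum_congr rfl (fun j _ => h1 j)]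
  rw [Pi.smul_apply, T0_w_zero, smul_eq_mul]
  simp
  ring

theorem T0_b_comb (n : ℕ) (x : Fin (n + 1) → ℝ) : ∑ j, T0_b n x j • w n j = x := by
  funext i
  rw [T0_comb, T0_b_zero, T0_b_succ]
  ring

theorem T0_mem_iff (n : ℕ) (x : Fin (n + 1) → ℝ) : x ∈ T0 n ↔ ∀ j, 0 ≤ T0_b n x j := by
  have hn : (0 : ℝ) < (n : ℝ) + 2 := by positivity
  constructor
  · rintro ⟨h1, h2⟩ j
    refine Fin.cases ?_ ?_ j
    · rw [T0_b_zero]; exact div_nonneg (by linarith) hn.le
    · intro i; rw [T0_b_succ]; exact h2 i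
  · intro h
    refine ⟨?_, fun i => ?_⟩
    · have := h 0
      rw [T0_b_zero, div_nonneg_iff] at this
      rcases this with ⟨h3, _⟩ | ⟨_, h4⟩
      · linarith
      · linarith
    · have := h i.succ
      rwa [T0_b_succ] at this

theorem T0_convex (n : ℕ) : Convex ℝ (T0 n) := by
  intro x hx y hy a b ha hb hab
  obtain ⟨hx1, hx2⟩ := hx
  obtain ⟨hy1, hy2⟩ := hy
  have hs : ∑ k, (a • x + b • y) k = a * ∑ k, x k + b * ∑ k, y k := by
    simp [Finset.sum_add_distrib, Finset.mul_sum]
  refine ⟨?_, fun i => ?_⟩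
  · rw [hs]; nlinarith
  · rw [hs]
    have e1 : (a • x + b • y) i + (1 - (a * ∑ k, x k + b * ∑ k, y k)) / ((n : ℝ) + 2) =
        a * (x i + (1 - ∑ k, x k) / ((n : ℝ) + 2)) + b * (y i + (1 - ∑ k, y k) / ((n : ℝ) + 2)) := by
      have hb' : b = 1 - a := by linarith
      subst hb'
      simp
      ring
    rw [e1]
    exact add_nonneg (mul_nonneg ha (hx2 i)) (mul_nonneg hb (hy2 i))

theorem T0_hull (n : ℕ) : convexHull ℝ (range (w n)) = T0 n := by
  apply Set.Subset.antisymm
  · refine convexHull_min ?_ (T0_convex n)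
    rintro _ ⟨j, rfl⟩
    refine Fin.cases ?_ ?_ j
    · refine ⟨?_, fun i => ?_⟩
      · simp only [T0_w_zero]
        rw [Finset.sum_const, Finset.card_univ, Fintype.card_fin, nsmul_eq_mul]
        push_cast
        have : (0 : ℝ) ≤ n := by positivity
        linarith
      · simp only [T0_w_zero]
        rw [Finset.sum_const, Finset.card_univ, Fintype.card_fin, nsmul_eq_mul]
        have hn : (0 : ℝ) < (n : ℝ) + 2 := by positivity
        push_cast
        have : (1 - ((n : ℝ) + 1) * -1) / ((n : ℝ) + 2) = 1 := by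
          rw [div_eq_one_iff_eq hn.ne']; ring
        rw [this]; norm_num
    · intro k
      rw [T0_w_succ]
      refine ⟨by simp, fun i => ?_⟩
      have : ∑ l, (Pi.single k (1 : ℝ) : Fin (n + 1) → ℝ) l = 1 := by simp
      rw [this, sub_self, zero_div, add_zero]
      by_cases h : i = k
      · subst h; simp
      · rw [Pi.single_eq_of_ne h]
  · intro x hx
    rw [← T0_b_comb n x]
    exact (convex_convexHull ℝ _).sum_mem (fun j _ => (T0_mem_iff n x).1 hx j) (T0_b_sum n x)
      (fun j _ => subset_convexHull ℝ _ (mem_range_self j))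

theorem T0_indep (n : ℕ) : AffineIndependent ℝ (w n) := by
  rw [affineIndependent_iff]
  intro s c hc hsum
  -- extend by zero
  classical
  let c' : Fin (n + 2) → ℝ := fun j => if j ∈ s then c j else 0
  have h1 : ∑ j, c' j = 0 := by
    simp only [c']
    rw [Finset.sum_ite_mem, Finset.univ_inter]
    exact hc
  have h2 : ∑ j, c' j • w n j = 0 := by
    rw [← hsum]
    simp only [c', ite_smul, zero_smul]
    rw [Finset.sum_ite_mem, Finset.univ_inter]
  have h3 : ∀ i : Fin (n + 1), c' i.succ = c' 0 := by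
    intro i
    have := congrFun h2 i
    rw [T0_comb] at this
    have h0 : (0 : Fin (n + 1) → ℝ) i = 0 := rfl
    rw [h0] at this
    linarith
  have h4 : c' 0 = 0 := by
    rw [Fin.sum_univ_succ] at h1
    simp only [h3] at h1
    rw [Finset.sum_const, Finset.card_univ, Fintype.card_fin, nsmul_eq_mul] at h1
    have h5 : ((n : ℝ) + 2) * c' 0 = 0 := by
      push_cast at h1
      linarith
    rcases mul_eq_zero.1 h5 with h6 | h6
    · exfalso
      have : (0 : ℝ) ≤ n := by positivity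
      linarith
    · exact h6
  have h5 : ∀ j, c' j = 0 := by
    intro j
    refine Fin.cases h4 ?_ j
    intro i; rw [h3, h4]
  intro j hj
  have := h5 j
  simpa [c', hj] using this

theorem thm_T0 : St_T0 := by
  intro n
  refine ⟨T0_hull n, T0_indep n, ?_, T0_convex n, ?_⟩
  · rw [← T0_hull n]
    exact (Set.finite_range (w n)).isCompact_convexHull (𝕜 := ℝ)
  · have hn : (0 : ℝ) < (n : ℝ) + 2 := by positivity
    have h1 : IsOpen {x : Fin (n + 1) → ℝ | ∑ k, x k < 1} :=
      isOpen_lt (by fun_prop) continuous_const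
    have h2 : ∀ i : Fin (n + 1), IsOpen {x : Fin (n + 1) → ℝ |
        0 < x i + (1 - ∑ k, x k) / ((n : ℝ) + 2)} := fun i =>
      isOpen_lt continuous_const (by fun_prop)
    have h3 : IsOpen (⋂ i, {x : Fin (n + 1) → ℝ |
        0 < x i + (1 - ∑ k, x k) / ((n : ℝ) + 2)}) := isOpen_iInter_of_finite h2
    refine Filter.mem_of_superset ((h1.inter h3).mem_nhds ?_) ?_
    · refine ⟨by simp, ?_⟩
      rw [mem_iInter]
      intro i
      simp
      positivity
    · rintro x ⟨hx1, hx2⟩
      refine ⟨(le_of_lt hx1), fun i => ?_⟩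
      have := mem_iInter.1 hx2 i
      exact le_of_lt this

end

end Pool.Agent.SYL
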