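import Pool.Agent.SYL.St

/-! # F3: the facet centroids of the least simplex -/

namespace Pool.Agent.SYL

open MeasureTheory Set

theorem thm_centroid (h1 : St_cent0) (h2 : St_L) (h3 : St_norm) (h4 : St_aff) (_h5 : St_T0)
    (h6 : St_simplexbody) : St_centroid := by
  intro n D hc hcv hsub hne hmin j
  by_contra hnot
  obtain ⟨hinv, hdet, hmem⟩ := h2 n j
  have hcont : Continuous (L n j) := LinearMap.continuous_of_finiteDimensional _
  have hdet0 : LinearMap.det (L n j) ≠ 0 := by
    intro h0
    rw [h0, abs_zero] at hdet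
    norm_num at hdet
  obtain ⟨T, hT, hDT, hvol⟩ := h1 n (L n j ⁻¹' D) (hc.preimage hcont)
    (hcv.linear_preimage (L n j)) (fun x hx => (hmem x).1 (hsub hx)) hnot (by
      obtain ⟨x, hx⟩ := hne
      exact ⟨L n j x, by
        show L n j (L n j x) ∈ D
        rw [hinv]
        exact hx⟩)
  have hT2 : IsSimplex ((fun x => L n j x + 0) '' T) := (h3 n).2 T (L n j) 0 hdet0 hT
  have hsub2 : D ⊆ (fun x => L n j x + 0) '' T := by
    intro x hx
    refine ⟨L n j x, hDT ?_, ?_⟩
    · show L n j (L n j x) ∈ D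
      rw [hinv]
      exact hx
    · show L n j (L n j x) + 0 = x
      rw [hinv, add_zero]
  have hmeas : MeasurableSet T := (h6 (n + 1) T hT).1.2.1.measurableSet
  have hv := (h4 (n + 1) (L n j) 0 T hdet0 hmeas).1
  rw [hdet, one_mul] at hv
  have hle := hmin _ hT2 hsub2
  rw [hv] at hle
  exact absurd hvol (not_lt.2 hle)

end Pool.Agent.SYL
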