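import Pool.Agent.SYL.St

/-! # Sylvester problem: a smaller simplex if the facet centroid is missed -/

namespace Pool.Agent.SYL

open MeasureTheory Set

noncomputable section

theorem Cent0_affine {d : ℕ} (v : Fin (d + 1) → (Fin d → ℝ)) (h : dt v ≠ 0) : AffineIndependent ℝ v := by
  have h1 : LinearIndependent ℝ (Matrix.of fun i : Fin d => v i.succ - v 0).row :=
    Matrix.linearIndependent_rows_of_det_ne_zero h
  rw [affineIndependent_iff_linearIndependent_vsub ℝ v 0]
  rw [← linearIndependent_equiv (finSuccAboveEquiv (0 : Fin (d + 1)))]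
  have h2 : ((fun i : {x : Fin (d + 1) // x ≠ 0} => (v i -ᵥ v 0 : Fin d → ℝ)) ∘ (finSuccAboveEquiv (0 : Fin (d + 1)))) =
      (Matrix.of fun i : Fin d => v i.succ - v 0).row := by
    funext i
    simp only [Function.comp, finSuccAboveEquiv_apply, Fin.succAbove_zero, vsub_eq_sub]
    rfl
  rw [h2]
  exact h1

/-- a product of numbers `1 - t α i` is larger than `1` for small `t` -/
theorem Cent0_prod {m : ℕ} (α : Fin m → ℝ) (α₀ : ℝ) (h : ∑ i, α i < 0) :
    ∃ t : ℝ, 0 < t ∧ t * |α₀| ≤ 1 ∧ (∀ i, t * |α i| ≤ 1 / 2) ∧ 1 < ∏ i, (1 - t * α i) := by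
  have hd : HasDerivAt (fun t : ℝ => ∏ i, (1 - t * α i)) (-∑ i, α i) 0 := by
    have h1 : ∀ i ∈ (Finset.univ : Finset (Fin m)), HasDerivAt (fun t : ℝ => 1 - t * α i) (-(α i)) 0 := by
      intro i _
      have := ((hasDerivAt_id (0 : ℝ)).mul_const (α i)).const_sub 1
      simpa using this
    have h2 := HasDerivAt.fun_finsetProd h1
    refine h2.congr_deriv ?_
    simp [Finset.sum_neg_distrib]
  have hs := hasDerivAt_iff_tendsto_slope.mp hd
  have h1 : ∀ᶠ t in nhdsWithin (0 : ℝ) {0}ᶜ, 0 < slope (fun t : ℝ => ∏ i, (1 - t * α i)) 0 t :=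
    hs.eventually (lt_mem_nhds (by linarith))
  have h2 : ∀ᶠ t in nhdsWithin (0 : ℝ) (Ioi 0), 1 < ∏ i, (1 - t * α i) := by
    have h3 : nhdsWithin (0 : ℝ) (Ioi 0) ≤ nhdsWithin (0 : ℝ) {0}ᶜ :=
      nhdsWithin_mono _ (fun x hx => ne_of_gt hx)
    filter_upwards [h3 h1, self_mem_nhdsWithin] with t ht ht0
    rw [slope_def_field] at ht
    have ht0' : (0 : ℝ) < t := ht0
    have h4 : 0 < (∏ i, (1 - t * α i)) - ∏ i, (1 - 0 * α i) := by
      have := mul_pos ht (by linarith : (0 : ℝ) < t - 0)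
      rwa [div_mul_cancel₀ _ (by linarith : t - 0 ≠ 0)] at this
    simp only [zero_mul, sub_zero, Finset.prod_const_one] at h4
    linarith
  have h3 : ∀ᶠ t in nhdsWithin (0 : ℝ) (Ioi 0), t * |α₀| ≤ 1 := by
    have hc : Filter.Tendsto (fun t : ℝ => t * |α₀|) (nhds 0) (nhds (0 * |α₀|)) :=
      (continuous_id.mul continuous_const).tendsto 0
    rw [zero_mul] at hc
    exact nhdsWithin_le_nhds (hc.eventually (ge_mem_nhds one_pos))
  have h4 : ∀ᶠ t in nhdsWithin (0 : ℝ) (Ioi 0), ∀ i, t * |α i| ≤ 1 / 2 := by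
    rw [Filter.eventually_all]
    intro i
    have hc : Filter.Tendsto (fun t : ℝ => t * |α i|) (nhds 0) (nhds (0 * |α i|)) :=
      (continuous_id.mul continuous_const).tendsto 0
    rw [zero_mul] at hc
    exact nhdsWithin_le_nhds (hc.eventually (ge_mem_nhds (by norm_num)))
  obtain ⟨t, ht1, ht2, ht3, ht4⟩ :=
    (h2.and (h3.and (h4.and self_mem_nhdsWithin))).exists
  exact ⟨t, ht4, ht2, ht3, ht1⟩

theorem thm_cent0 (h1 : St_hull) (h2 : St_Vdet) (h3 : St_T0) (_h4 : St_Dl) : St_cent0 := by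
  intro n D hDc hDx hDT hg _
  obtain ⟨hT1, -, hTc, -, hTn⟩ := h3 n
  obtain ⟨l, r, hlg, hlD⟩ := geometric_hahn_banach_point_closed hDx hDc hg
  -- the numbers
  set α₀ : ℝ := l (fun _ => (-1 : ℝ)) - r with hα₀
  set α : Fin (n + 1) → ℝ := fun i => l (Pi.single i (1 : ℝ)) - r with hα
  have hlx : ∀ x : Fin (n + 1) → ℝ, l x = ∑ i, x i * l (Pi.single i (1 : ℝ)) := by
    intro x
    have e1 : x = ∑ i, x i • (Pi.single i (1 : ℝ) : Fin (n + 1) → ℝ) := by
      funext j
      rw [Finset.sum_apply]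
      simp [Pi.single_apply]
    conv_lhs => rw [e1]
    rw [map_sum]
    refine Finset.sum_congr rfl fun i _ => ?_
    rw [map_smul, smul_eq_mul]
  have hsum : ∑ i, α i < 0 := by
    have e1 := hlx (gS n)
    have e2 : (n : ℝ) + 1 ≠ 0 := by positivity
    have e3 : ∑ i, α i = ((n : ℝ) + 1) * (l (gS n) - r) := by
      rw [e1]
      simp only [hα, gS, Finset.sum_sub_distrib, Finset.sum_const, Finset.card_univ, Fintype.card_fin,
        nsmul_eq_mul]
      rw [← Finset.mul_sum, mul_sub, ← mul_assoc, mul_one_div_cancel e2, one_mul]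
      push_cast
      ring
    rw [e3]
    exact mul_neg_of_pos_of_neg (by positivity) (by linarith)
  obtain ⟨t, ht0, htα₀, htα, htp⟩ := Cent0_prod α α₀ hsum
  have hfac : ∀ i, 1 / 2 ≤ 1 - t * α i := by
    intro i
    have e1 := htα i
    have e2 := le_abs_self (α i)
    have e3 := mul_le_mul_of_nonneg_left e2 ht0.le
    linarith
  have hfac0 : ∀ i, 0 < 1 - t * α i := fun i => by linarith [hfac i]
  -- the new simplex
  set w0 : Fin (n + 1) → ℝ := fun _ => (-1 : ℝ) with hw0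
  set v : Fin (n + 2) → (Fin (n + 1) → ℝ) :=
    (Fin.cons w0 (fun i => w0 + (1 - t * α i)⁻¹ • (Pi.single i (1 : ℝ) - w0)) :
      Fin (n + 2) → (Fin (n + 1) → ℝ)) with hv
  have hv0 : v 0 = w0 := by rw [hv, Fin.cons_zero]
  have hvs : ∀ i : Fin (n + 1), v i.succ - v 0 = (1 - t * α i)⁻¹ • (Pi.single i (1 : ℝ) - w0) := by
    intro i
    rw [hv0, hv, Fin.cons_succ]
    simp
  have hws : ∀ i : Fin (n + 1), w n i.succ - w n 0 = Pi.single i (1 : ℝ) - w0 := by
    intro i
    rw [w, Fin.cons_succ, Fin.cons_zero]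
  have hdt : dt v = (∏ i, (1 - t * α i)⁻¹) * dt (w n) := by
    unfold dt
    rw [← Matrix.det_mul_column]
    congr 1
    ext i j
    rw [Matrix.of_apply, Matrix.of_apply, hvs i, Matrix.of_apply, hws i]
    rfl
  -- volumes
  have hvolT : vol (T0 n) = V (w n) := by rw [V, hT1]
  have hTpos : 0 < vol (T0 n) := by
    rw [vol, ENNReal.toReal_pos_iff]
    exact ⟨MeasureTheory.Measure.measure_pos_of_mem_nhds volume hTn, hTc.measure_lt_top⟩
  have hdw : dt (w n) ≠ 0 := by
    intro h0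
    rw [hvolT, h2, h0, abs_zero, mul_zero] at hTpos
    exact lt_irrefl _ hTpos
  have hP : 0 < ∏ i, (1 - t * α i) := by linarith
  have hPi : ∏ i, (1 - t * α i)⁻¹ = (∏ i, (1 - t * α i))⁻¹ := by rw [Finset.prod_inv_distrib]
  have hdv : dt v ≠ 0 := by
    rw [hdt, hPi]
    exact mul_ne_zero (inv_ne_zero hP.ne') hdw
  refine ⟨convexHull ℝ (range v), ⟨v, Cent0_affine v hdv, rfl⟩, ?_, ?_⟩
  · -- containment
    intro x hx
    obtain ⟨hx1, hx2⟩ := hDT hx
    have hax := hlD x hx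
    set b₀ : ℝ := (1 - ∑ k, x k) / ((n : ℝ) + 2) with hb₀
    have hn2 : (0 : ℝ) < (n : ℝ) + 2 := by positivity
    have hb₀0 : 0 ≤ b₀ := div_nonneg (by linarith) hn2.le
    have hb₀e : ((n : ℝ) + 2) * b₀ = 1 - ∑ k, x k := by
      rw [hb₀]
      field_simp
    have hsb : ∑ i : Fin (n + 1), (x i + b₀) = 1 - b₀ := by
      rw [Finset.sum_add_distrib, Finset.sum_const, Finset.card_univ, Fintype.card_fin, nsmul_eq_mul]
      push_cast
      linarith
    -- value of the separating function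
    have hval : ∑ i, (x i + b₀) * α i + b₀ * α₀ = l x - r := by
      have e1 : l w0 = ∑ i, (-1) * l (Pi.single i (1 : ℝ)) := hlx w0
      have e2 := hlx x
      have e3 : ∑ i, (x i + b₀) * α i = ∑ i, x i * l (Pi.single i (1 : ℝ)) + b₀ * ∑ i, l (Pi.single i (1 : ℝ)) -
          (∑ i, (x i + b₀)) * r := by
        rw [Finset.mul_sum, ← Finset.sum_add_distrib, Finset.sum_mul, ← Finset.sum_sub_distrib]
        refine Finset.sum_congr rfl fun i _ => ?_
        simp only [hα]
        ring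
      rw [e3, hsb, hα₀, e1, ← Finset.mul_sum, e2]
      ring
    rw [h1]
    refine ⟨fun i => (x i + b₀) * (1 - t * α i), ⟨fun i => mul_nonneg (hx2 i) (hfac0 i).le, ?_⟩, ?_⟩
    · have e1 : ∑ i, (x i + b₀) * (1 - t * α i) = ∑ i, (x i + b₀) - t * ∑ i, (x i + b₀) * α i := by
        rw [Finset.mul_sum, ← Finset.sum_sub_distrib]
        refine Finset.sum_congr rfl fun i _ => ?_
        ring
      rw [e1, hsb]
      have e2 : t * ∑ i, (x i + b₀) * α i = t * (l x - r) - t * α₀ * b₀ := by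
        rw [← hval]
        ring
      rw [e2]
      have e3 : 0 ≤ t * (l x - r) := mul_nonneg ht0.le (by linarith)
      have e4 : t * α₀ * b₀ ≤ 1 * b₀ := by
        refine mul_le_mul_of_nonneg_right ?_ hb₀0
        have := mul_le_mul_of_nonneg_left (le_abs_self α₀) ht0.le
        linarith
      linarith
    · have e1 : ∀ i : Fin (n + 1), ((x i + b₀) * (1 - t * α i)) • (v i.succ - v 0) =
          (x i + b₀) • ((Pi.single i (1 : ℝ) : Fin (n + 1) → ℝ) - w0) := by
        intro i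
        rw [hvs i, smul_smul, mul_assoc, mul_inv_cancel₀ (hfac0 i).ne', mul_one]
      show v 0 + ∑ i, ((x i + b₀) * (1 - t * α i)) • (v i.succ - v 0) = x
      simp only [e1]
      rw [hv0]
      funext j
      rw [Pi.add_apply, Finset.sum_apply]
      simp only [Pi.smul_apply, Pi.sub_apply, smul_eq_mul, hw0, sub_neg_eq_add, mul_add, mul_one,
        Finset.sum_add_distrib]
      rw [show ∑ i : Fin (n + 1), x i + ∑ _i : Fin (n + 1), b₀ = 1 - b₀ by rw [← Finset.sum_add_distrib, hsb]]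
      simp only [Pi.single_apply, mul_ite, mul_one, mul_zero, Finset.sum_ite_eq, Finset.mem_univ, if_true]
      ring
  · have e1 : vol (convexHull ℝ (range v)) = V v := rfl
    rw [e1, hvolT, h2, h2, hdt, abs_mul, hPi, abs_of_pos (inv_pos.mpr hP)]
    have e2 : 0 < vol (Dl (n + 1)) * |dt (w n)| := by
      rw [← h2, ← hvolT]
      exact hTpos
    have e3 : (∏ i, (1 - t * α i))⁻¹ < 1 := inv_lt_one_of_one_lt₀ htp
    calc vol (Dl (n + 1)) * ((∏ i, (1 - t * α i))⁻¹ * |dt (w n)|)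
        = (∏ i, (1 - t * α i))⁻¹ * (vol (Dl (n + 1)) * |dt (w n)|) := by ring
      _ < 1 * (vol (Dl (n + 1)) * |dt (w n)|) := mul_lt_mul_of_pos_right e3 e2
      _ = _ := one_mul _

end

end Pool.Agent.SYL
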