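import Pool.Agent.SYL.St

/-! # Sylvester problem, module Cone: the estimate in one cone -/

set_option autoImplicit false

namespace Pool.Agent.SYL

open MeasureTheory Set

noncomputable section

theorem Cone_e {n : ℕ} (y : Fin n → ℝ) (hy : y ∈ Dl n) : e y ∈ stdSimplex ℝ (Fin (n + 1)) := by
  refine ⟨fun i => ?_, ?_⟩
  · refine Fin.cases ?_ (fun j => ?_) i
    · show 0 ≤ 1 - ∑ i, y i
      linarith [hy.2]
    · exact hy.1 j
  · unfold e
    rw [Fin.sum_univ_succ]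
    simp

theorem Cone_econt (n : ℕ) : Continuous (e : (Fin n → ℝ) → (Fin (n + 1) → ℝ)) := by
  unfold e
  refine continuous_pi fun i => ?_
  refine Fin.cases ?_ (fun j => ?_) i
  · simp only [Fin.cons_zero]
    fun_prop
  · simp only [Fin.cons_succ]
    fun_prop

theorem Cone_unif {n : ℕ} (ψ : (Fin (n + 1) → ℝ) → ℝ) (hψ : Continuous ψ) {η : ℝ} (hη : 0 < η) :
    ∃ δ : ℝ, 0 < δ ∧ ∀ s : ℝ, 1 - δ < s → s < 1 + δ → ∀ p ∈ stdSimplex ℝ (Fin (n + 1)),
      |ψ (s • p) - ψ p| < η := by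
  have hopen : IsOpen {z : ℝ × (Fin (n + 1) → ℝ) | |ψ (z.1 • z.2) - ψ z.2| < η} :=
    isOpen_lt (by fun_prop) continuous_const
  obtain ⟨u, v, hu, hv, h1, h2, h3⟩ := generalized_tube_lemma (isCompact_singleton (x := (1 : ℝ)))
    (isCompact_stdSimplex ℝ (Fin (n + 1))) hopen (by
      rintro ⟨s, p⟩ ⟨hs, hp⟩
      have hs1 : s = 1 := hs
      rw [hs1]
      simp only [mem_ofPred_eq, one_smul, sub_self, abs_zero]
      exact hη)
  obtain ⟨δ, hδ, hb⟩ := Metric.isOpen_iff.1 hu 1 (h1 rfl)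
  refine ⟨δ, hδ, fun s hs1 hs2 p hp => h3 (Set.mk_mem_prod (hb ?_) (h2 hp))⟩
  rw [Metric.mem_ball, Real.dist_eq, abs_lt]
  constructor <;> linarith

theorem Cone_num (n : ℕ) (u A ω M δ : ℝ) (hu0 : 0 ≤ u) (hu : u ≤ 2 * δ) (hM : 0 ≤ M)
    (hA : |A| ≤ M) (h1 : u * (1 - (n + 1) * u) ≤ ω) (h2 : ω ≤ u) :
    u * A - u * (2 * (n + 1) * δ * M) ≤ ω * A := by
  have h3 : u - ω ≤ (n + 1) * u * u := by nlinarith
  have h4 : ((n : ℝ) + 1) * u * u ≤ (n + 1) * (2 * δ) * u := by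
    have : (0 : ℝ) ≤ (n : ℝ) + 1 := by positivity
    apply mul_le_mul_of_nonneg_right _ hu0
    exact mul_le_mul_of_nonneg_left hu this
  have h5 : (u - ω) * A ≤ (u - ω) * M :=
    mul_le_mul_of_nonneg_left (le_trans (le_abs_self A) hA) (by linarith)
  have h6 : (u - ω) * M ≤ ((n + 1) * (2 * δ) * u) * M :=
    mul_le_mul_of_nonneg_right (by linarith) hM
  nlinarith

theorem Cone_inner (h2 : St_omega) {n : ℕ} (ψ : (Fin (n + 1) → ℝ) → ℝ) (hψ : Continuous ψ)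
    (κ c M δ δ₀ : ℝ) (hc : 0 < c) (hM0 : 0 ≤ M) (hδ1 : δ ≤ δ₀ / 2)
    (hδ4 : 2 * (n + 1) * δ * (M + c) ≤ c / 4) (D : Set (Fin (n + 1) → ℝ)) (hDcl : IsClosed D)
    (p : Fin (n + 1) → ℝ) (hM : |ψ p - κ| ≤ M) (up : ℝ) (hu0 : 0 ≤ up) (hu : up ≤ 2 * δ)
    (hδ0 : 0 < δ)
    (hs : ∀ s ∈ Ioc (0 : ℝ) 1, (s • p ∈ D ↔ s * (1 + up) ≤ 1))
    (hcl : ∀ s : ℝ, 1 - δ₀ < s → s < 1 + δ₀ → |ψ (s • p) - ψ p| < c / 8) :
    up * (ψ p - κ) - c * up ≤
      ∫ s in Ioc (0 : ℝ) 1, s ^ n * (Dᶜ.indicator (fun x => ψ x - κ - c / 2) (s • p)) := by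
  obtain ⟨hω1, hω2, hω3⟩ := h2 n up hu0
  obtain ⟨A, hA⟩ : ∃ A, A = ψ p - κ - c / 2 - c / 8 := ⟨_, rfl⟩
  have hA1 : |A| ≤ M + c := by
    rw [abs_le] at hM ⊢
    rw [hA]
    constructor <;> linarith [hM.1, hM.2]
  have h3 := Cone_num n up A _ (M + c) δ hu0 hu (by linarith) hA1 hω2 hω3
  have h4 : (∫ s in Ioc (0 : ℝ) 1, if s * (1 + up) ≤ 1 then 0 else s ^ n) * A ≤
      ∫ s in Ioc (0 : ℝ) 1, s ^ n * (Dᶜ.indicator (fun x => ψ x - κ - c / 2) (s • p)) := by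
    rw [← integral_mul_const]
    refine setIntegral_mono_on (hω1.mul_const A) ?_ measurableSet_Ioc ?_
    · have h5 : (fun s : ℝ => s ^ n * (Dᶜ.indicator (fun x => ψ x - κ - c / 2) (s • p))) =
          ((fun s : ℝ => s • p) ⁻¹' Dᶜ).indicator
            (fun s : ℝ => s ^ n * (ψ (s • p) - κ - c / 2)) := by
        funext s
        by_cases h6 : s • p ∈ Dᶜ
        · rw [indicator_of_mem h6, indicator_of_mem (show s ∈ (fun s : ℝ => s • p) ⁻¹' Dᶜ from h6)]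
        · rw [indicator_of_notMem h6,
            indicator_of_notMem (show s ∉ (fun s : ℝ => s • p) ⁻¹' Dᶜ from h6), mul_zero]
      rw [h5]
      have h6 : IntegrableOn (fun s : ℝ => s ^ n * (ψ (s • p) - κ - c / 2)) (Icc (0 : ℝ) 1) :=
        ContinuousOn.integrableOn_compact isCompact_Icc (Continuous.continuousOn (by fun_prop))
      refine (h6.mono_set Ioc_subset_Icc_self).indicator ?_
      exact (hDcl.isOpen_compl.preimage (by fun_prop)).measurableSet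
    · intro s hsI
      by_cases h5 : s * (1 + up) ≤ 1
      · have h6 : s • p ∉ Dᶜ := fun h => h ((hs s hsI).2 h5)
        rw [indicator_of_notMem h6, if_pos h5, zero_mul, mul_zero]
      · have h6 : s • p ∈ Dᶜ := fun h => h5 ((hs s hsI).1 h)
        rw [indicator_of_mem h6, if_neg h5]
        apply mul_le_mul_of_nonneg_left _ (pow_nonneg hsI.1.le n)
        push Not at h5
        have h7 : s * up ≤ up := by nlinarith [hsI.1, hsI.2]
        have h8 := hcl s (by nlinarith) (by linarith [hsI.2])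
        rw [abs_lt] at h8
        rw [hA]
        linarith [h8.1]
  refine le_trans ?_ h4
  refine le_trans ?_ h3
  rw [hA]
  have h6 : up * (2 * (n + 1) * δ * (M + c)) ≤ up * (c / 4) := mul_le_mul_of_nonneg_left hδ4 hu0
  have h7 : 0 ≤ c * up := mul_nonneg hc.le hu0
  linarith

theorem thm_cone (h1 : St_gauge) (h2 : St_omega) (h3 : St_polar) (h4 : St_Dl) : St_cone := by
  intro n ψ κ c hψ hc hSC
  obtain ⟨M, hM0, hM⟩ : ∃ M : ℝ, 0 ≤ M ∧ ∀ p ∈ stdSimplex ℝ (Fin (n + 1)), |ψ p - κ| ≤ M := by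
    obtain ⟨C, hC⟩ := (isCompact_stdSimplex ℝ (Fin (n + 1))).exists_bound_of_continuousOn
      (f := fun p => ψ p - κ) (by fun_prop)
    exact ⟨max C 0, le_max_right _ _, fun p hp => le_trans (hC p hp) (le_max_left _ _)⟩
  obtain ⟨δ₀, hδ₀, hu⟩ := Cone_unif ψ hψ (η := c / 8) (by positivity)
  have hMc : 0 < M + c := by linarith
  have hn1 : (0 : ℝ) < (n : ℝ) + 1 := by positivity
  obtain ⟨δ, hδ⟩ : ∃ δ, δ = min (δ₀ / 2) (min (1 / 2) (c / (8 * (n + 1) * (M + c)))) := ⟨_, rfl⟩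
  have hδ1 : δ ≤ δ₀ / 2 := by rw [hδ]; exact min_le_left _ _
  have hδ2 : δ ≤ 1 / 2 := by rw [hδ]; exact le_trans (min_le_right _ _) (min_le_left _ _)
  have hδ3 : δ ≤ c / (8 * (n + 1) * (M + c)) := by
    rw [hδ]
    exact le_trans (min_le_right _ _) (min_le_right _ _)
  have hδ4 : 2 * (n + 1) * δ * (M + c) ≤ c / 4 := by
    rw [le_div_iff₀ (by positivity)] at hδ3
    linarith
  have hδ0 : 0 < δ := by
    rw [hδ]
    exact lt_min (by positivity) (lt_min (by norm_num) (by positivity))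
  refine ⟨δ, hδ0, hδ2, ?_⟩
  intro D hDconv hDcl hDn hDs hDd hDg
  obtain ⟨u, huc, hux, hu2, hug, hus⟩ := h1 n D δ hδ0 hδ2 hDconv hDcl hDn hDs hDd hDg
  have hDm : MeasurableSet Dᶜ := hDcl.measurableSet.compl
  obtain ⟨H, hH⟩ : ∃ H : (Fin (n + 1) → ℝ) → ℝ,
    H = Dᶜ.indicator (fun x => ψ x - κ - c / 2) := ⟨_, rfl⟩
  have hHint : IntegrableOn H (Dl (n + 1)) := by
    rw [hH]
    have h5 : IntegrableOn (fun x => ψ x - κ - c / 2) (Dl (n + 1)) :=
      ContinuousOn.integrableOn_compact (h4 (n + 1)).1 (Continuous.continuousOn (by fun_prop))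
    exact h5.indicator hDm
  obtain ⟨hFint, hFeq⟩ := h3 n H hHint
  have hFint' : Integrable (fun p : ℝ × (Fin n → ℝ) => p.1 ^ n * H (p.1 • e p.2))
      ((volume.restrict (Ioc (0 : ℝ) 1)).prod (volume.restrict (Dl n))) := by
    rw [Measure.prod_restrict]
    exact hFint
  have hFeq' : ∫ x in Dl (n + 1), H x =
      ∫ y in Dl n, ∫ s in Ioc (0 : ℝ) 1, s ^ n * H (s • e y) := by
    rw [hFeq, Measure.volume_eq_prod, ← Measure.prod_restrict, integral_prod_symm _ hFint']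
  have hSC' := hSC u huc hux (fun p hp => (hu2 p hp).1) hug
  have hc1 := Cone_econt n
  have hi1 : IntegrableOn (fun y => u (e y) * (ψ (e y) - κ)) (Dl n) :=
    ContinuousOn.integrableOn_compact (h4 n).1 (Continuous.continuousOn (by fun_prop))
  have hi2 : IntegrableOn (fun y => u (e y)) (Dl n) :=
    ContinuousOn.integrableOn_compact (h4 n).1 (Continuous.continuousOn (by fun_prop))
  have hlow : ∫ y in Dl n, (u (e y) * (ψ (e y) - κ) - c * u (e y)) ≤
      ∫ y in Dl n, ∫ s in Ioc (0 : ℝ) 1, s ^ n * H (s • e y) := by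
    refine setIntegral_mono_on (hi1.sub (hi2.const_mul c)) hFint'.integral_prod_right
      (h4 n).1.measurableSet ?_
    intro y hy
    have hp := Cone_e y hy
    have h5 := Cone_inner h2 ψ hψ κ c M δ δ₀ hc hM0 hδ1 hδ4 D hDcl (e y) (hM _ hp) (u (e y))
      (hu2 _ hp).1 (hu2 _ hp).2 hδ0 (hus _ hp) (fun s hs1 hs2 => hu s hs1 hs2 _ hp)
    rw [hH]
    exact h5
  rw [integral_sub hi1 (hi2.const_mul c), integral_const_mul, ← hFeq', hH,
    setIntegral_indicator hDm, ← Set.sdiff_eq] at hlow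
  have hi3 : IntegrableOn (fun x => ψ x - κ) (Dl (n + 1) \ D) := by
    have h5 : IntegrableOn (fun x => ψ x - κ) (Dl (n + 1)) :=
      ContinuousOn.integrableOn_compact (h4 (n + 1)).1 (Continuous.continuousOn (by fun_prop))
    exact h5.mono_set sdiff_subset
  have hfin : volume (Dl (n + 1) \ D) ≠ ⊤ :=
    ne_top_of_le_ne_top (h4 (n + 1)).1.measure_lt_top.ne (measure_mono sdiff_subset)
  rw [integral_sub hi3 (integrableOn_const hfin), setIntegral_const, smul_eq_mul] at hlow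
  unfold vol
  have h6 : volume.real (Dl (n + 1) \ D) = (volume (Dl (n + 1) \ D)).toReal := rfl
  rw [h6] at hlow
  linarith

end

end Pool.Agent.SYL
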