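import Pool.Agent.SYL.St

/-! # Sylvester problem: the covariance inequality -/

namespace Pool.Agent.SYL

open MeasureTheory Set

noncomputable section

/-- The affine chart used in the induction. -/
def Cov_pt {n : ℕ} (s : ℝ) (q : Fin (n + 1) → ℝ) : Fin (n + 2) → ℝ :=
  (Fin.cons (1 - s) (s • q) : Fin (n + 2) → ℝ)

/-- The inner integral. -/
def Cov_I (n : ℕ) (F : (Fin (n + 2) → ℝ) → ℝ) (s : ℝ) : ℝ := ∫ z in Dl n, F (Cov_pt s (e z))

theorem Cov_sum_e {n : ℕ} (y : Fin n → ℝ) : ∑ i, e y i = 1 := by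
  simp [e, Fin.sum_univ_succ]

theorem Cov_cont_e {n : ℕ} : Continuous (e : (Fin n → ℝ) → (Fin (n + 1) → ℝ)) := by
  refine continuous_pi fun i => ?_
  refine Fin.cases ?_ (fun i => ?_) i
  · simp only [e, Fin.cons_zero]
    fun_prop
  · simp only [e, Fin.cons_succ]
    fun_prop

theorem Cov_cont_pt {n : ℕ} :
    Continuous (fun p : ℝ × (Fin (n + 1) → ℝ) => Cov_pt p.1 p.2) := by
  refine continuous_pi fun i => ?_
  refine Fin.cases ?_ (fun i => ?_) i
  · simp only [Cov_pt, Fin.cons_zero]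
    fun_prop
  · simp only [Cov_pt, Fin.cons_succ, Pi.smul_apply, smul_eq_mul]
    fun_prop

theorem Cov_e_smul {n : ℕ} (s : ℝ) (z : Fin n → ℝ) : e (s • e z) = Cov_pt s (e z) := by
  have h : ∑ i, (s • e z) i = s := by
    simp only [Pi.smul_apply, smul_eq_mul, ← Finset.mul_sum, Cov_sum_e, mul_one]
  unfold Cov_pt
  rw [e, h]

theorem Cov_cont2 {n : ℕ} {F : (Fin (n + 2) → ℝ) → ℝ} (hF : Continuous F) :
    Continuous (Function.uncurry fun (s : ℝ) (z : Fin n → ℝ) => F (Cov_pt s (e z))) := by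
  refine hF.comp ?_
  exact Cov_cont_pt.comp (continuous_fst.prodMk (Cov_cont_e.comp continuous_snd))

theorem Cov_int {n : ℕ} (h5 : St_Dl) {H : (Fin n → ℝ) → ℝ} (hH : Continuous H) :
    IntegrableOn H (Dl n) :=
  hH.continuousOn.integrableOn_compact (h5 n).1

theorem Cov_I_cont {n : ℕ} (h5 : St_Dl) {F : (Fin (n + 2) → ℝ) → ℝ} (hF : Continuous F) :
    Continuous (Cov_I n F) :=
  continuous_parametric_integral_of_continuous (Cov_cont2 hF) (h5 n).1

theorem Cov_I_int {n : ℕ} (h5 : St_Dl) {F : (Fin (n + 2) → ℝ) → ℝ} (hF : Continuous F) (s : ℝ) :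
    IntegrableOn (fun z => F (Cov_pt s (e z))) (Dl n) := by
  apply Cov_int h5
  exact (Cov_cont2 hF).comp (continuous_const.prodMk continuous_id)

theorem Cov_pt_combo {n : ℕ} (q : Fin (n + 1) → ℝ) (s t a b : ℝ) (hab : a + b = 1) :
    Cov_pt (a • s + b • t) q = a • Cov_pt s q + b • Cov_pt t q := by
  funext i
  refine Fin.cases ?_ (fun i => ?_) i
  · simp only [Cov_pt, Fin.cons_zero, Pi.add_apply, Pi.smul_apply, smul_eq_mul]
    linear_combination -hab
  · simp only [Cov_pt, Fin.cons_succ, Pi.add_apply, Pi.smul_apply, smul_eq_mul]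
    ring

theorem Cov_pt_combo' {n : ℕ} (s : ℝ) (q r : Fin (n + 1) → ℝ) (a b : ℝ) (hab : a + b = 1) :
    Cov_pt s (a • q + b • r) = a • Cov_pt s q + b • Cov_pt s r := by
  funext i
  refine Fin.cases ?_ (fun i => ?_) i
  · simp only [Cov_pt, Fin.cons_zero, Pi.add_apply, Pi.smul_apply, smul_eq_mul]
    rw [← add_mul, hab, one_mul]
  · simp only [Cov_pt, Fin.cons_succ, Pi.add_apply, Pi.smul_apply, smul_eq_mul]
    ring

theorem Cov_I_convex {n : ℕ} (h5 : St_Dl) {F : (Fin (n + 2) → ℝ) → ℝ} (hF : Continuous F)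
    (hc : ConvexOn ℝ univ F) : ConvexOn ℝ univ (Cov_I n F) := by
  refine ⟨convex_univ, fun s _ t _ a b ha hb hab => ?_⟩
  have h1 : a • Cov_I n F s + b • Cov_I n F t =
      ∫ z in Dl n, (a * F (Cov_pt s (e z)) + b * F (Cov_pt t (e z))) := by
    rw [integral_add ((Cov_I_int h5 hF s).const_mul a) ((Cov_I_int h5 hF t).const_mul b),
      integral_const_mul, integral_const_mul]
    rfl
  rw [h1]
  refine integral_mono (Cov_I_int h5 hF _)
    (((Cov_I_int h5 hF s).const_mul a).add ((Cov_I_int h5 hF t).const_mul b)) fun z => ?_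
  simp only
  rw [Cov_pt_combo _ _ _ _ _ hab]
  exact hc.2 (mem_univ _) (mem_univ _) ha hb hab

theorem Cov_red {n : ℕ} (h1 : St_polar) (h5 : St_Dl) {F : (Fin (n + 2) → ℝ) → ℝ}
    (hF : Continuous F) :
    ∫ y in Dl (n + 1), F (e y) = ∫ s in Ioc (0 : ℝ) 1, s ^ n * Cov_I n F s := by
  obtain ⟨p1, p2⟩ := h1 n (fun y => F (e y)) (Cov_int h5 (hF.comp Cov_cont_e))
  rw [p2]
  have e1 : (fun p : ℝ × (Fin n → ℝ) => p.1 ^ n * F (e (p.1 • e p.2))) =
      fun p => p.1 ^ n * F (Cov_pt p.1 (e p.2)) := by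
    funext p
    rw [Cov_e_smul]
  simp only [Cov_e_smul] at p1 ⊢
  rw [Measure.volume_eq_prod, setIntegral_prod _ p1]
  refine setIntegral_congr_fun measurableSet_Ioc fun s _ => ?_
  simp only [Cov_I, integral_const_mul]

theorem Cov_sint {G : ℝ → ℝ} (hG : Continuous G) : IntegrableOn G (Ioc (0 : ℝ) 1) :=
  (hG.continuousOn.integrableOn_compact isCompact_Icc).mono_set Ioc_subset_Icc_self

theorem Cov_pow (n : ℕ) : ∫ s in Ioc (0 : ℝ) 1, s ^ n = 1 / ((n : ℝ) + 1) := by
  rw [← intervalIntegral.integral_of_le zero_le_one, integral_pow]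
  simp

theorem Cov_first {n : ℕ} (h1 : St_polar) (h2 : St_sym) (h5 : St_Dl)
    {f : (Fin (n + 2) → ℝ) → ℝ} (hf : Continuous f)
    (hs : ∀ (σ : Equiv.Perm (Fin (n + 2))) x, f (x ∘ σ) = f x) :
    ((n : ℝ) + 2) * ∫ s in Ioc (0 : ℝ) 1, s ^ n * ((1 - s) * Cov_I n f s) =
      ∫ y in Dl (n + 1), f (e y) := by
  have hG : ∀ i : Fin (n + 2), Continuous fun x : Fin (n + 2) → ℝ => x i * f x := fun i =>
    (continuous_apply i).mul hf
  have hi : ∀ i : Fin (n + 2), ∫ y in Dl (n + 1), e y i * f (e y) =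
      ∫ y in Dl (n + 1), e y 0 * f (e y) := by
    intro i
    have h := h2 (n + 1) (fun x => x 0 * f x) (hG 0) (Equiv.swap 0 i)
    simp only [hs, Function.comp_apply, Equiv.swap_apply_left] at h
    exact h
  have hsum : ∫ y in Dl (n + 1), f (e y) = ∑ i : Fin (n + 2), ∫ y in Dl (n + 1), e y i * f (e y) := by
    rw [← integral_finsetSum]
    · congr 1
      funext y
      rw [← Finset.sum_mul, Cov_sum_e, one_mul]
    · intro i _
      exact Cov_int h5 ((hG i).comp Cov_cont_e)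
  rw [hsum]
  simp only [hi]
  rw [Cov_red (F := fun x => x 0 * f x) h1 h5 (hG 0)]
  simp only [Finset.sum_const, Finset.card_univ, Fintype.card_fin, nsmul_eq_mul]
  push_cast
  congr 2
  funext s
  congr 1
  simp only [Cov_I, Cov_pt, Fin.cons_zero, integral_const_mul]

theorem Cov_perm {n : ℕ} {f : (Fin (n + 2) → ℝ) → ℝ}
    (hs : ∀ (σ : Equiv.Perm (Fin (n + 2))) x, f (x ∘ σ) = f x) (s : ℝ)
    (σ : Equiv.Perm (Fin (n + 1))) (q : Fin (n + 1) → ℝ) :
    f (Cov_pt s (q ∘ σ)) = f (Cov_pt s q) := by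
  rw [← hs (Equiv.Perm.decomposeFin.symm (0, σ)) (Cov_pt s q)]
  congr 1
  funext i
  refine Fin.cases ?_ (fun i => ?_) i
  · simp [Cov_pt]
  · simp [Cov_pt]

theorem thm_cov (h1 : St_polar) (h2 : St_sym) (h3 : St_cov1) (h4 : St_vol) (h5 : St_Dl) :
    St_cov := by
  intro n
  induction n with
  | zero =>
    intro f h _ _ _ _ _
    have he : ∀ y : Fin 0 → ℝ, (e y : Fin (0 + 1) → ℝ) = e (0 : Fin 0 → ℝ) := fun y => by
      rw [Subsingleton.elim y 0]
    simp only [he, integral_const, MeasureTheory.measureReal_restrict_apply_univ, smul_eq_mul]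
    apply le_of_eq
    unfold vol Measure.real
    ring
  | succ n ih =>
    intro f h hf hh cf ch hs
    set A := ∫ y in Dl (n + 1), f (e y) with hA
    set B := ∫ y in Dl (n + 1), h (e y) with hB
    set C := ∫ y in Dl (n + 1), f (e y) * h (e y) with hC
    have hfh : Continuous fun x => f x * h x := hf.mul hh
    have rA : A = ∫ s in Ioc (0 : ℝ) 1, s ^ n * Cov_I n f s := Cov_red h1 h5 hf
    have rB : B = ∫ s in Ioc (0 : ℝ) 1, s ^ n * Cov_I n h s := Cov_red h1 h5 hh
    have rC : C = ∫ s in Ioc (0 : ℝ) 1, s ^ n * Cov_I n (fun x => f x * h x) s :=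
      Cov_red (F := fun x => f x * h x) h1 h5 hfh
    have cI := Cov_I_cont h5 hf
    have cJ := Cov_I_cont h5 hh
    have cK := Cov_I_cont h5 hfh
    have cpow : Continuous fun s : ℝ => s ^ n := continuous_pow n
    have hn1 : (0 : ℝ) < (n : ℝ) + 1 := by positivity
    have hn2 : (0 : ℝ) < (n : ℝ) + 2 := by positivity
    -- the induction hypothesis
    have hih : ∀ s : ℝ, Cov_I n f s * Cov_I n h s ≤ vol (Dl n) * Cov_I n (fun x => f x * h x) s := by
      intro s
      have cq : Continuous (fun q : Fin (n + 1) → ℝ => Cov_pt s q) :=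
        Cov_cont_pt.comp (continuous_const.prodMk continuous_id)
      refine ih (fun q => f (Cov_pt s q)) (fun q => h (Cov_pt s q)) (hf.comp cq) (hh.comp cq)
        ⟨convex_univ, fun q _ r _ a b ha hb hab => ?_⟩
        ⟨convex_univ, fun q _ r _ a b ha hb hab => ?_⟩ fun σ q => Cov_perm hs s σ q
      · simp only
        rw [Cov_pt_combo' _ _ _ _ _ hab]
        exact cf.2 (mem_univ _) (mem_univ _) ha hb hab
      · simp only
        rw [Cov_pt_combo' _ _ _ _ _ hab]
        exact ch.2 (mem_univ _) (mem_univ _) ha hb hab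
    have hfirst := Cov_first h1 h2 h5 hf hs
    rw [← hA] at hfirst
    have t1 : IntegrableOn (fun s : ℝ => s ^ n * Cov_I n f s) (Ioc (0 : ℝ) 1) :=
      Cov_sint (cpow.mul cI)
    have t1h : IntegrableOn (fun s : ℝ => s ^ n * Cov_I n h s) (Ioc (0 : ℝ) 1) :=
      Cov_sint (cpow.mul cJ)
    have t2 : IntegrableOn (fun s : ℝ => s ^ n * ((1 - s) * Cov_I n f s)) (Ioc (0 : ℝ) 1) :=
      Cov_sint (cpow.mul ((continuous_const.sub continuous_id).mul cI))
    have t3 : IntegrableOn (fun s : ℝ => s ^ n * (Cov_I n f s * Cov_I n h s)) (Ioc (0 : ℝ) 1) :=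
      Cov_sint (cpow.mul (cI.mul cJ))
    have t4 : IntegrableOn (fun s : ℝ => vol (Dl n) * (s ^ n *
        Cov_I n (fun x => f x * h x) s)) (Ioc (0 : ℝ) 1) :=
      Cov_sint (continuous_const.mul (cpow.mul cK))
    have t5 : ∀ (m : ℝ) (k : ℕ), IntegrableOn (fun s : ℝ => m * s ^ k) (Ioc (0 : ℝ) 1) :=
      fun m k => Cov_sint (continuous_const.mul (continuous_pow k))
    have t6 : ∀ m : ℝ, IntegrableOn (fun s : ℝ => m * (s ^ n * Cov_I n h s)) (Ioc (0 : ℝ) 1) :=
      fun m => t1h.const_mul m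
    set m : ℝ := ((n : ℝ) + 1) * A with hm
    have i1 : ∫ s in Ioc (0 : ℝ) 1, s ^ n * (Cov_I n f s - m) = 0 := by
      have : (fun s : ℝ => s ^ n * (Cov_I n f s - m)) =
          fun s => s ^ n * Cov_I n f s - m * s ^ n := by
        funext s
        ring
      rw [this, integral_sub t1 (t5 m n), integral_const_mul, Cov_pow, ← rA, hm]
      field_simp
      ring
    have i2 : ∫ s in Ioc (0 : ℝ) 1, s ^ n * (s * (Cov_I n f s - m)) = 0 := by
      have e2 : (fun s : ℝ => s ^ n * (s * (Cov_I n f s - m))) =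
          fun s => (s ^ n * Cov_I n f s - s ^ n * ((1 - s) * Cov_I n f s)) - m * s ^ (n + 1) := by
        funext s
        ring
      have t7 : IntegrableOn (fun s : ℝ => s ^ n * Cov_I n f s -
          s ^ n * ((1 - s) * Cov_I n f s)) (Ioc (0 : ℝ) 1) := t1.sub t2
      rw [e2, integral_sub t7 (t5 m (n + 1)), integral_sub t1 t2, integral_const_mul, Cov_pow,
        ← rA]
      have e3 : ∫ s in Ioc (0 : ℝ) 1, s ^ n * ((1 - s) * Cov_I n f s) = A / ((n : ℝ) + 2) := by
        rw [eq_div_iff hn2.ne', ← hfirst]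
        ring
      rw [e3, hm]
      push_cast
      have e4 : (n : ℝ) + 1 + 1 = (n : ℝ) + 2 := by ring
      rw [e4]
      field_simp
      ring
    have cvx : ConvexOn ℝ univ (fun s => Cov_I n f s - m) := by
      refine ⟨convex_univ, fun s _ t _ a b ha hb hab => ?_⟩
      have h6 := (Cov_I_convex h5 hf cf).2 (mem_univ s) (mem_univ t) ha hb hab
      simp only [smul_eq_mul] at h6 ⊢
      have h7 : m = a * m + b * m := by rw [← add_mul, hab, one_mul]
      linarith
    have i3 := h3 n (fun s => Cov_I n f s - m) (Cov_I n h) (cI.sub continuous_const) cJ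
      cvx (Cov_I_convex h5 hh ch) i1 i2
    have i4 : ∫ s in Ioc (0 : ℝ) 1, s ^ n * ((Cov_I n f s - m) * Cov_I n h s) =
        (∫ s in Ioc (0 : ℝ) 1, s ^ n * (Cov_I n f s * Cov_I n h s)) - m * B := by
      have : (fun s : ℝ => s ^ n * ((Cov_I n f s - m) * Cov_I n h s)) =
          fun s => s ^ n * (Cov_I n f s * Cov_I n h s) - m * (s ^ n * Cov_I n h s) := by
        funext s
        ring
      rw [this, integral_sub t3 (t6 m), integral_const_mul, ← rB]
    have i5 : ∫ s in Ioc (0 : ℝ) 1, s ^ n * (Cov_I n f s * Cov_I n h s) ≤ vol (Dl n) * C := by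
      rw [rC, ← integral_const_mul]
      refine setIntegral_mono_on t3 t4 measurableSet_Ioc fun s hs0 => ?_
      have h0 : 0 ≤ s ^ n := pow_nonneg hs0.1.le n
      calc s ^ n * (Cov_I n f s * Cov_I n h s)
          ≤ s ^ n * (vol (Dl n) * Cov_I n (fun x => f x * h x) s) :=
            mul_le_mul_of_nonneg_left (hih s) h0
        _ = vol (Dl n) * (s ^ n * Cov_I n (fun x => f x * h x) s) := by ring
    have hv := (h4 n).1
    rw [i4] at i3
    have i6 : ((n : ℝ) + 1) * (A * B) ≤ ((n : ℝ) + 1) * (vol (Dl (n + 1)) * C) := by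
      calc ((n : ℝ) + 1) * (A * B) = m * B := by rw [hm]; ring
        _ ≤ vol (Dl n) * C := by linarith
        _ = ((n : ℝ) + 1) * (vol (Dl (n + 1)) * C) := by rw [← hv]; ring
    exact le_of_mul_le_mul_left i6 hn1

end

end Pool.Agent.SYL
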