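import Pool.Agent.SYL.St

set_option autoImplicit false

/-! # SYL Cov1: two convex functions of one variable -/

namespace Pool.Agent.SYL

open MeasureTheory Set

theorem Cov1_three {H : ℝ → ℝ} (hH : ConvexOn ℝ univ H) {x y z : ℝ} (hxy : x < y) (hyz : y < z) :
    (z - x) * H y ≤ (z - y) * H x + (y - x) * H z := by
  have hxz : 0 < z - x := by linarith
  have ha : 0 ≤ (z - y) / (z - x) := div_nonneg (by linarith) hxz.le
  have hb : 0 ≤ (y - x) / (z - x) := div_nonneg (by linarith) hxz.le
  have hab : (z - y) / (z - x) + (y - x) / (z - x) = 1 := by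
    rw [← add_div, div_eq_one_iff_eq hxz.ne']
    ring
  have h1 := hH.2 (mem_univ x) (mem_univ z) ha hb hab
  have h2 : ((z - y) / (z - x)) • x + ((y - x) / (z - x)) • z = y := by
    rw [smul_eq_mul, smul_eq_mul]
    field_simp
    ring
  rw [h2, smul_eq_mul, smul_eq_mul] at h1
  have h3 := mul_le_mul_of_nonneg_left h1 hxz.le
  have h4 : (z - x) * ((z - y) / (z - x) * H x + (y - x) / (z - x) * H z) =
      (z - y) * H x + (y - x) * H z := by
    field_simp
  rwa [h4] at h3

theorem Cov1_int (n : ℕ) {f : ℝ → ℝ} (hf : Continuous f) :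
    IntegrableOn (fun s : ℝ => s ^ n * f s) (Ioc (0 : ℝ) 1) :=
  (Continuous.integrableOn_Icc (by fun_prop)).mono_set Ioc_subset_Icc_self

theorem thm_cov1 : St_cov1 := by
  intro n F H hF hH cF cH h0 h1
  by_cases hpos : ∀ s ∈ Icc (0 : ℝ) 1, 0 ≤ F s
  · have hz : ∀ s ∈ Ioc (0 : ℝ) 1, s ^ n * F s = 0 := by
      have h2 : Continuous fun s : ℝ => s ^ n * F s := by fun_prop
      have h3 : ∫ s in (0 : ℝ)..1, s ^ n * F s = 0 := by
        rw [intervalIntegral.integral_of_le zero_le_one]
        exact h0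
      by_contra hcon
      push Not at hcon
      obtain ⟨s, hs, hne⟩ := hcon
      have h4 : 0 < s ^ n * F s :=
        lt_of_le_of_ne (mul_nonneg (pow_nonneg hs.1.le n) (hpos s ⟨hs.1.le, hs.2⟩)) (Ne.symm hne)
      have h5 : 0 < ∫ s in (0 : ℝ)..1, s ^ n * F s := by
        refine intervalIntegral.integral_pos zero_lt_one h2.continuousOn (fun t ht => ?_)
          ⟨s, ⟨hs.1.le, hs.2⟩, h4⟩
        exact mul_nonneg (pow_nonneg ht.1.le n) (hpos t ⟨ht.1.le, ht.2⟩)
      rw [h3] at h5
      exact lt_irrefl _ h5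
    have h2 : ∫ s in Ioc (0 : ℝ) 1, s ^ n * (F s * H s) = 0 := by
      rw [setIntegral_congr_fun (g := fun _ => (0 : ℝ)) measurableSet_Ioc (fun s hs => by
        beta_reduce
        rw [← mul_assoc, hz s hs, zero_mul])]
      simp
    rw [h2]
  · push Not at hpos
    obtain ⟨s0, hs0, hneg⟩ := hpos
    -- the set where F is negative
    have hNne : {s : ℝ | s ∈ Icc (0 : ℝ) 1 ∧ F s < 0}.Nonempty := ⟨s0, hs0, hneg⟩
    have hbelow : BddBelow {s : ℝ | s ∈ Icc (0 : ℝ) 1 ∧ F s < 0} := ⟨0, fun s hs => hs.1.1⟩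
    have habove : BddAbove {s : ℝ | s ∈ Icc (0 : ℝ) 1 ∧ F s < 0} := ⟨1, fun s hs => hs.1.2⟩
    obtain ⟨a, ha⟩ : ∃ a, a = sInf {s : ℝ | s ∈ Icc (0 : ℝ) 1 ∧ F s < 0} := ⟨_, rfl⟩
    obtain ⟨b, hb⟩ : ∃ b, b = sSup {s : ℝ | s ∈ Icc (0 : ℝ) 1 ∧ F s < 0} := ⟨_, rfl⟩
    have hale : ∀ s ∈ {s : ℝ | s ∈ Icc (0 : ℝ) 1 ∧ F s < 0}, a ≤ s := fun s hs => by
      rw [ha]
      exact csInf_le hbelow hs
    have hble : ∀ s ∈ {s : ℝ | s ∈ Icc (0 : ℝ) 1 ∧ F s < 0}, s ≤ b := fun s hs => by
      rw [hb]
      exact le_csSup habove hs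
    have hab : a < b := by
      have h2 : ∀ᶠ s in nhds s0, F s < 0 := hF.continuousAt.eventually_lt_const hneg
      obtain ⟨ε, hε, h3⟩ := Metric.eventually_nhds_iff.1 h2
      obtain ⟨δ, hδ0, hδ1, hδ2⟩ : ∃ δ : ℝ, 0 < δ ∧ δ < ε ∧ δ ≤ 1 / 2 :=
        ⟨min (ε / 2) (1 / 2), lt_min (by linarith) (by norm_num),
          (min_le_left _ _).trans_lt (by linarith), min_le_right _ _⟩
      rcases le_total s0 (1 / 2) with h4 | h4
      · have h5 : s0 + δ ∈ {s : ℝ | s ∈ Icc (0 : ℝ) 1 ∧ F s < 0} := by
          refine ⟨⟨by linarith [hs0.1], by linarith⟩, h3 ?_⟩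
          rw [Real.dist_eq, add_sub_cancel_left, abs_of_pos hδ0]
          exact hδ1
        have h6 := hale s0 ⟨hs0, hneg⟩
        have h7 := hble _ h5
        linarith
      · have h5 : s0 - δ ∈ {s : ℝ | s ∈ Icc (0 : ℝ) 1 ∧ F s < 0} := by
          refine ⟨⟨by linarith, by linarith [hs0.2]⟩, h3 ?_⟩
          rw [Real.dist_eq, sub_sub_cancel_left, abs_neg, abs_of_pos hδ0]
          exact hδ1
        have h6 := hble s0 ⟨hs0, hneg⟩
        have h7 := hale _ h5
        linarith
    have hba : 0 < b - a := by linarith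
    -- the secant of H
    obtain ⟨m, hm⟩ : ∃ m, m = (H b - H a) / (b - a) := ⟨_, rfl⟩
    have hm' : m * (b - a) = H b - H a := by
      rw [hm, div_mul_cancel₀ _ hba.ne']
    have hkey : ∀ s ∈ Ioc (0 : ℝ) 1, 0 ≤ F s * (H s - (H a + (s - a) * m)) := by
      intro s hs
      have hs' : s ∈ Icc (0 : ℝ) 1 := ⟨hs.1.le, hs.2⟩
      rcases lt_trichotomy s a with h2 | h2 | h2
      · have h3 : 0 ≤ F s := by
          by_contra hcon
          push Not at hcon
          have := hale s ⟨hs', hcon⟩
          linarith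
        have h4 := Cov1_three cH h2 hab
        refine mul_nonneg h3 ?_
        have h5 : 0 ≤ (b - a) * (H s - (H a + (s - a) * m)) := by
          have h6 : (b - a) * (H s - (H a + (s - a) * m)) =
              (b - a) * H s - (b - a) * H a - (s - a) * (m * (b - a)) := by ring
          rw [h6, hm']
          nlinarith
        exact nonneg_of_mul_nonneg_right h5 hba
      · rw [h2]
        simp
      · rcases lt_trichotomy s b with h3 | h3 | h3
        · have h4 : F s < 0 := by
            obtain ⟨y1, hy1, hy1s⟩ := exists_lt_of_csInf_lt hNne (ha ▸ h2)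
            obtain ⟨y2, hy2, hy2s⟩ := exists_lt_of_lt_csSup hNne (hb ▸ h3)
            have h5 := Cov1_three cF hy1s hy2s
            have h6 : (y2 - s) * F y1 + (s - y1) * F y2 < 0 := by
              have h7 := mul_neg_of_pos_of_neg (sub_pos.2 hy2s) hy1.2
              have h8 := mul_neg_of_pos_of_neg (sub_pos.2 hy1s) hy2.2
              linarith
            by_contra hcon
            push Not at hcon
            have h7 : 0 ≤ (y2 - y1) * F s := mul_nonneg (by linarith) hcon
            linarith
          have h5 := Cov1_three cH h2 h3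
          have h6 : (b - a) * (H s - (H a + (s - a) * m)) ≤ 0 := by
            have h7 : (b - a) * (H s - (H a + (s - a) * m)) =
                (b - a) * H s - (b - a) * H a - (s - a) * (m * (b - a)) := by ring
            rw [h7, hm']
            nlinarith
          have h7 : H s - (H a + (s - a) * m) ≤ 0 := by
            by_contra hcon
            push Not at hcon
            have := mul_pos hba hcon
            linarith
          exact mul_nonneg_of_nonpos_of_nonpos h4.le h7
        · have h4 : H s - (H a + (s - a) * m) = 0 := by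
            rw [h3]
            linear_combination -hm'
          rw [h4, mul_zero]
        · have h4 : 0 ≤ F s := by
            by_contra hcon
            push Not at hcon
            have := hble s ⟨hs', hcon⟩
            linarith
          have h5 := Cov1_three cH hab h3
          refine mul_nonneg h4 ?_
          have h6 : 0 ≤ (b - a) * (H s - (H a + (s - a) * m)) := by
            have h7 : (b - a) * (H s - (H a + (s - a) * m)) =
                (b - a) * H s - (b - a) * H a - (s - a) * (m * (b - a)) := by ring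
            rw [h7, hm']
            nlinarith
          exact nonneg_of_mul_nonneg_right h6 hba
    have h2 : ∀ s : ℝ, s ^ n * (F s * H s) =
        s ^ n * (F s * (H s - (H a + (s - a) * m))) +
          ((H a - a * m) * (s ^ n * F s) + m * (s ^ n * (s * F s))) := by
      intro s
      ring
    have i1 : IntegrableOn (fun s : ℝ => s ^ n * (F s * (H s - (H a + (s - a) * m)))) (Ioc (0 : ℝ) 1) :=
      Cov1_int n (f := fun s => F s * (H s - (H a + (s - a) * m))) (by fun_prop)
    have i2 : IntegrableOn (fun s : ℝ => s ^ n * F s) (Ioc (0 : ℝ) 1) := Cov1_int n hF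
    have i3 : IntegrableOn (fun s : ℝ => s ^ n * (s * F s)) (Ioc (0 : ℝ) 1) :=
      Cov1_int n (f := fun s => s * F s) (by fun_prop)
    have i4 : IntegrableOn (fun s : ℝ => (H a - a * m) * (s ^ n * F s) + m * (s ^ n * (s * F s)))
        (Ioc (0 : ℝ) 1) := (i2.const_mul _).add (i3.const_mul _)
    have e1 : ∫ s in Ioc (0 : ℝ) 1, ((H a - a * m) * (s ^ n * F s) + m * (s ^ n * (s * F s))) = 0 := by
      rw [integral_add (i2.const_mul _) (i3.const_mul _), integral_const_mul, integral_const_mul,
        h0, h1, mul_zero, mul_zero, add_zero]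
    simp_rw [h2]
    rw [integral_add i1 i4, e1, add_zero]
    refine setIntegral_nonneg measurableSet_Ioc fun s hs => ?_
    exact mul_nonneg (pow_nonneg hs.1.le n) (hkey s hs)

end Pool.Agent.SYL
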