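import Pool.Agent.SYL.St

/-! # Sylvester problem: `T0` is the almost disjoint union of the images of `Dl` -/

namespace Pool.Agent.SYL

open MeasureTheory Set
open scoped ENNReal

noncomputable section

theorem Dec_L_zero (n : ℕ) (x : Fin (n + 1) → ℝ) : L n 0 x = x := by
  unfold L
  rw [Fin.cons_zero]
  rfl

theorem Dec_L_succ (n : ℕ) (j : Fin (n + 1)) (x : Fin (n + 1) → ℝ) (i : Fin (n + 1)) :
    L n j.succ x i = if i = j then - x j else x i - x j := by
  unfold L
  rw [Fin.cons_succ]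
  rfl

theorem Dec_sum (n : ℕ) (j : Fin (n + 1)) (x : Fin (n + 1) → ℝ) :
    ∑ i, L n j.succ x i = ∑ i, x i - ((n : ℝ) + 2) * x j := by
  have h : ∀ i, L n j.succ x i = x i - x j - (if i = j then x j else 0) := by
    intro i
    rw [Dec_L_succ]
    by_cases h : i = j
    · rw [if_pos h, if_pos h, h]
      ring
    · rw [if_neg h, if_neg h]
      ring
  rw [Finset.sum_congr rfl fun i _ => h i, Finset.sum_sub_distrib, Finset.sum_sub_distrib,
    Finset.sum_ite_eq' Finset.univ j, if_pos (Finset.mem_univ j), Finset.sum_const,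
    Finset.card_univ, Fintype.card_fin, nsmul_eq_mul]
  push_cast
  ring

theorem Dec_sub (n : ℕ) {x : Fin (n + 1) → ℝ} (hx : x ∈ Dl (n + 1)) : x ∈ T0 n := by
  obtain ⟨h1, h2⟩ := hx
  refine ⟨h2, fun i => ?_⟩
  have : 0 ≤ (1 - ∑ k, x k) / ((n : ℝ) + 2) := div_nonneg (by linarith) (by positivity)
  linarith [h1 i]

theorem Dec_cover (n : ℕ) {x : Fin (n + 1) → ℝ} (hx : x ∈ T0 n) :
    ∃ j : Fin (n + 2), L n j x ∈ Dl (n + 1) := by
  by_cases hneg : ∀ i, 0 ≤ x i
  · exact ⟨0, by rw [Dec_L_zero]; exact ⟨hneg, hx.1⟩⟩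
  push Not at hneg
  obtain ⟨k, hk⟩ := hneg
  obtain ⟨j, -, hj⟩ := Finset.exists_min_image Finset.univ x ⟨k, Finset.mem_univ k⟩
  have hj0 : x j < 0 := lt_of_le_of_lt (hj k (Finset.mem_univ k)) hk
  refine ⟨j.succ, fun i => ?_, ?_⟩
  · rw [Dec_L_succ]
    split_ifs with h
    · linarith
    · linarith [hj i (Finset.mem_univ i)]
  · rw [Dec_sum]
    have h1 := hx.2 j
    have hn : (0 : ℝ) < (n : ℝ) + 2 := by positivity
    have h2 : 0 ≤ ((n : ℝ) + 2) * x j + (1 - ∑ k, x k) := by
      have := mul_nonneg hn.le h1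
      have e : ((n : ℝ) + 2) * (x j + (1 - ∑ k, x k) / ((n : ℝ) + 2)) =
          ((n : ℝ) + 2) * x j + (1 - ∑ k, x k) := by
        field_simp
      rwa [e] at this
    linarith

theorem Dec_null_fun (n : ℕ) (φ : (Fin (n + 1) → ℝ) →ₗ[ℝ] ℝ) (x : Fin (n + 1) → ℝ)
    (hx : φ x ≠ 0) : (volume : Measure (Fin (n + 1) → ℝ)) {y | φ y = 0} = 0 := by
  have h : {y | φ y = 0} = (LinearMap.ker φ : Set (Fin (n + 1) → ℝ)) := by
    ext y
    simp
  rw [h]
  refine Measure.addHaar_submodule volume _ ?_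
  intro htop
  apply hx
  have : x ∈ LinearMap.ker φ := by
    rw [htop]
    trivial
  exact this

theorem Dec_disj (n : ℕ) {j k : Fin (n + 2)} (hjk : j ≠ k) :
    (volume : Measure (Fin (n + 1) → ℝ))
      ((fun x => L n j x) ⁻¹' Dl (n + 1) ∩ (fun x => L n k x) ⁻¹' Dl (n + 1)) = 0 := by
  have key0 : ∀ i : Fin (n + 1), (volume : Measure (Fin (n + 1) → ℝ))
      ((fun x => L n 0 x) ⁻¹' Dl (n + 1) ∩ (fun x => L n i.succ x) ⁻¹' Dl (n + 1)) = 0 := by
    intro i
    refine measure_mono_null (t := {y | (LinearMap.proj i : (Fin (n + 1) → ℝ) →ₗ[ℝ] ℝ) y = 0})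
      ?_ (Dec_null_fun n (LinearMap.proj i) (fun _ => 1) (by simp))
    rintro x ⟨hx1, hx2⟩
    have h1 : L n 0 x ∈ Dl (n + 1) := hx1
    rw [Dec_L_zero] at h1
    have h2 : L n i.succ x ∈ Dl (n + 1) := hx2
    have h3 := h1.1 i
    have h4 := h2.1 i
    rw [Dec_L_succ, if_pos rfl] at h4
    show x i = 0
    linarith
  refine Fin.cases (fun hjk => ?_) (fun i hjk => ?_) j hjk
  · obtain ⟨i, rfl⟩ := Fin.exists_succ_eq.2 hjk.symm
    exact key0 i
  · refine Fin.cases (fun _ => ?_) (fun l hil => ?_) k hjk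
    · rw [inter_comm]
      exact key0 i
    · have hil' : i ≠ l := fun h => hil (by rw [h])
      refine measure_mono_null
        (t := {y | ((LinearMap.proj i : (Fin (n + 1) → ℝ) →ₗ[ℝ] ℝ) -
          (LinearMap.proj l : (Fin (n + 1) → ℝ) →ₗ[ℝ] ℝ)) y = 0})
        ?_ (Dec_null_fun n
          ((LinearMap.proj i : (Fin (n + 1) → ℝ) →ₗ[ℝ] ℝ) -
            (LinearMap.proj l : (Fin (n + 1) → ℝ) →ₗ[ℝ] ℝ)) (Pi.single i 1) ?_)
      · rintro x ⟨hx1, hx2⟩
        have h1 : L n i.succ x ∈ Dl (n + 1) := hx1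
        have h2 : L n l.succ x ∈ Dl (n + 1) := hx2
        have h3 := h1.1 l
        have h4 := h2.1 i
        rw [Dec_L_succ, if_neg (Ne.symm hil')] at h3
        rw [Dec_L_succ, if_neg hil'] at h4
        show x i - x l = 0
        linarith
      · show (Pi.single i (1 : ℝ) : Fin (n + 1) → ℝ) i - (Pi.single i (1 : ℝ) : Fin (n + 1) → ℝ) l ≠ 0
        rw [Pi.single_eq_same, Pi.single_eq_of_ne (Ne.symm hil')]
        norm_num

theorem thm_dec (h1 : St_L) (_h2 : St_T0) (h3 : St_Dl) : St_dec := by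
  intro n f hf
  have hcont : ∀ j, Continuous fun x => L n j x := fun j => (L n j).continuous_of_finiteDimensional
  have hDl : MeasurableSet (Dl (n + 1)) := (h3 (n + 1)).1.measurableSet
  have hinv : ∀ j x, L n j (L n j x) = x := fun j x => (h1 n j).1 x
  have hmp : ∀ j, MeasurePreserving (fun x => L n j x)
      (volume : Measure (Fin (n + 1) → ℝ)) volume := by
    intro j
    refine ⟨(hcont j).measurable, ?_⟩
    have hdet : |LinearMap.det (L n j)| = 1 := (h1 n j).2.1
    have hne : LinearMap.det (L n j) ≠ 0 := by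
      intro h0
      rw [h0] at hdet
      simp at hdet
    have := Measure.map_linearMap_addHaar_eq_smul_addHaar
      (μ := (volume : Measure (Fin (n + 1) → ℝ))) hne
    rw [abs_inv, hdet, inv_one, ENNReal.ofReal_one, one_smul] at this
    exact this
  have hemb : ∀ j, MeasurableEmbedding (fun x => L n j x) := by
    intro j
    refine MeasurableEquiv.measurableEmbedding
      { toEquiv := ⟨fun x => L n j x, fun x => L n j x, hinv j, hinv j⟩
        measurable_toFun := (hcont j).measurable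
        measurable_invFun := (hcont j).measurable }
  have hU : T0 n = ⋃ j : Fin (n + 2), (fun x => L n j x) ⁻¹' Dl (n + 1) := by
    ext x
    rw [mem_iUnion]
    constructor
    · intro hx
      obtain ⟨j, hj⟩ := Dec_cover n hx
      exact ⟨j, hj⟩
    · rintro ⟨j, hj⟩
      exact ((h1 n j).2.2 x).1 (Dec_sub n hj)
  have hInt : ∀ j, IntegrableOn f ((fun x => L n j x) ⁻¹' Dl (n + 1)) := by
    intro j
    refine hf.mono_set ?_
    rw [hU]
    exact subset_iUnion (fun j : Fin (n + 2) => (fun x => L n j x) ⁻¹' Dl (n + 1)) j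
  have hcomp : ∀ j, (fun x => f (L n j x)) ∘ (fun x => L n j x) = f := by
    intro j
    funext x
    simp only [Function.comp_apply]
    rw [hinv]
  constructor
  · intro j
    rw [← (hmp j).integrableOn_comp_preimage (hemb j), hcomp j]
    exact hInt j
  · have hf' := hf
    rw [hU] at hf' ⊢
    rw [integral_iUnion_ae (fun j => ((hcont j).measurable hDl).nullMeasurableSet)
      (fun j k hjk => Dec_disj n hjk) hf', tsum_fintype]
    refine Finset.sum_congr rfl fun j _ => ?_
    rw [← (hmp j).setIntegral_preimage_emb (hemb j) (fun x => f (L n j x)) (Dl (n + 1))]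
    refine integral_congr_ae (Filter.Eventually.of_forall fun x => ?_)
    show f x = f (L n j (L n j x))
    rw [hinv]

end

end Pool.Agent.SYL
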