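import Pool.Agent.SYL.St

/-! # Sylvester problem: module eqvol (a closed subset of full volume of a convex body) -/

namespace Pool.Agent.SYL

open MeasureTheory Set

theorem thm_eqvol : St_eqvol := by
  intro d D T hD hT hDT hv
  obtain ⟨hc, hk, hi⟩ := hT
  have hTf : volume T ≠ ⊤ := hk.measure_lt_top.ne
  have hDf : volume D ≠ ⊤ := ((measure_mono hDT).trans_lt hk.measure_lt_top).ne
  have hle : volume T ≤ volume D := (ENNReal.toReal_le_toReal hTf hDf).mp hv
  have h0 : volume (T \ D) = 0 := by
    rw [measure_diff hDT hD.measurableSet.nullMeasurableSet hDf]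
    exact tsub_eq_zero_of_le hle
  have h1 : volume (interior T \ D) = 0 :=
    measure_mono_null (diff_subset_diff_left interior_subset) h0
  have h2 : interior T \ D = ∅ :=
    ((isOpen_interior.sdiff hD).measure_eq_zero_iff volume).mp h1
  have h3 : interior T ⊆ D := diff_eq_empty.mp h2
  apply Subset.antisymm hDT
  calc T = closure T := hk.isClosed.closure_eq.symm
    _ = closure (interior T) := (hc.closure_interior_eq_closure_of_nonempty_interior hi).symm
    _ ⊆ closure D := closure_mono h3
    _ = D := hD.closure_eq

end Pool.Agent.SYL
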