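import Pool.Agent.SYL.Cone

/-! # Sylvester problem, module Facet: the facet mean of the mean volume -/

set_option autoImplicit false

namespace Pool.Agent.SYL

open MeasureTheory Set

noncomputable section

theorem Facet_pow (n : ℕ) (s : ℝ) (hs0 : 0 < s) (hs1 : s < 1) :
    IntegrableOn (fun t : ℝ => if t ≤ s then 0 else t ^ n) (Ioc (0 : ℝ) 1) ∧
    ∫ t in Ioc (0 : ℝ) 1, (if t ≤ s then 0 else t ^ n) = (1 - s ^ (n + 1)) / ((n : ℝ) + 1) := by
  have h1 : (fun t : ℝ => if t ≤ s then 0 else t ^ n) = (Ioi s).indicator (fun t => t ^ n) := by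
    funext t
    by_cases h : t ≤ s
    · rw [if_pos h, indicator_of_notMem (show t ∉ Ioi s from fun h2 => absurd h (not_le.2 h2))]
    · rw [if_neg h, indicator_of_mem (show t ∈ Ioi s from not_le.1 h)]
  rw [h1]
  constructor
  · have h2 : IntegrableOn (fun t : ℝ => t ^ n) (Icc (0 : ℝ) 1) :=
      ContinuousOn.integrableOn_compact isCompact_Icc (Continuous.continuousOn (by fun_prop))
    exact (h2.mono_set Ioc_subset_Icc_self).indicator measurableSet_Ioi
  · rw [setIntegral_indicator measurableSet_Ioi]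
    have h2 : Ioc (0 : ℝ) 1 ∩ Ioi s = Ioc s 1 := by
      ext t
      constructor
      · rintro ⟨⟨_, h4⟩, h5⟩
        exact ⟨h5, h4⟩
      · rintro ⟨h4, h5⟩
        exact ⟨⟨lt_trans hs0 h4, h5⟩, h4⟩
    rw [h2, ← intervalIntegral.integral_of_le hs1.le, integral_pow]
    simp

theorem Facet_phi0 {d : ℕ} (T : Set (Fin d → ℝ)) (x : Fin d → ℝ) : 0 ≤ phi T x :=
  integral_nonneg fun _ => ENNReal.toReal_nonneg

theorem Facet_simplex {n : ℕ} (p : Fin (n + 1) → ℝ) (hp : p ∈ stdSimplex ℝ (Fin (n + 1))) :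
    p ∈ T0 n := by
  refine ⟨hp.2.le, fun i => ?_⟩
  rw [hp.2, sub_self, zero_div, add_zero]
  exact hp.1 i

theorem Facet_main (h1 : St_bonf) (h2 : St_aff) (h3 : St_dec) (h4 : St_polar) (h5 : St_phi)
    (h6 : St_T0) (h7 : St_L) (h8 : St_Dl) (n : ℕ) (η δ₀ : ℝ) (hδ₀ : 0 < δ₀)
    (hu : ∀ s : ℝ, 1 - δ₀ < s → s < 1 + δ₀ → ∀ p ∈ stdSimplex ℝ (Fin (n + 1)),
      |phi (T0 n) (s • p) - phi (T0 n) p| < η) (s : ℝ) (hs0 : 0 < s) (hs1 : s < 1)
    (hs2 : 1 - δ₀ < s) :
    (1 - (s ^ (n + 1)) ^ (n + 3)) * G (n + 1) (T0 n) ≤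
      ((n : ℝ) + 2) ^ 2 * ((1 - s ^ (n + 1)) / ((n : ℝ) + 1) *
        ((∫ y in Dl n, phi (T0 n) (e y)) + η * vol (Dl n))) := by
  obtain ⟨-, -, hTc, hTv, hTn⟩ := h6 n
  obtain ⟨hφ, -, hφL, -, -⟩ := h5 n
  have hT0 : (0 : Fin (n + 1) → ℝ) ∈ T0 n := mem_of_mem_nhds hTn
  have hsm : ∀ t : ℝ, 0 ≤ t → t ≤ 1 → ∀ x ∈ T0 n, t • x ∈ T0 n := by
    intro t ht0 ht1 x hx
    have := hTv hT0 hx (show 0 ≤ 1 - t by linarith) ht0 (by ring)
    rwa [smul_zero, zero_add] at this
  obtain ⟨D, hD⟩ : ∃ D : Set (Fin (n + 1) → ℝ), D = (fun x => s • x) '' T0 n := ⟨_, rfl⟩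
  have hDc : IsCompact D := by
    rw [hD]
    exact hTc.image (continuous_const_smul s)
  have hDT : D ⊆ T0 n := by
    rw [hD]
    rintro _ ⟨x, hx, rfl⟩
    exact hsm s hs0.le hs1.le x hx
  have hDm : MeasurableSet Dᶜ := hDc.measurableSet.compl
  -- the scaled simplex
  have hGD : G (n + 1) D = (s ^ (n + 1)) ^ (n + 3) * G (n + 1) (T0 n) := by
    have h9 : LinearMap.det (s • (LinearMap.id : (Fin (n + 1) → ℝ) →ₗ[ℝ] (Fin (n + 1) → ℝ))) =
        s ^ (n + 1) := by
      rw [LinearMap.det_smul, LinearMap.det_id, mul_one, Module.finrank_fin_fun]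
    have h10 := (h2 (n + 1) (s • LinearMap.id) 0 (T0 n) (by rw [h9]; positivity)
      hTc.measurableSet).2
    rw [h9, abs_of_pos (by positivity)] at h10
    have h11 : (fun x => (s • (LinearMap.id : (Fin (n + 1) → ℝ) →ₗ[ℝ] (Fin (n + 1) → ℝ))) x +
        (0 : Fin (n + 1) → ℝ)) '' T0 n = D := by
      rw [hD]
      simp
    rw [h11] at h10
    exact h10
  have hb := (h1 (n + 1) (T0 n) D hTc hTv hDc.measurableSet hDT).1
  rw [hGD] at hb
  -- decomposition
  obtain ⟨H, hH⟩ : ∃ H : (Fin (n + 1) → ℝ) → ℝ, H = Dᶜ.indicator (phi (T0 n)) := ⟨_, rfl⟩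
  have hHint : IntegrableOn H (T0 n) := by
    rw [hH]
    exact (hφ.continuousOn.integrableOn_compact hTc).indicator hDm
  have hHL : ∀ j x, H (L n j x) = H x := by
    intro j x
    have h9 : L n j x ∈ D ↔ x ∈ D := by
      have h10 : ∀ z ∈ D, L n j z ∈ D := by
        intro z hz
        rw [hD] at hz ⊢
        obtain ⟨t, ht, rfl⟩ := hz
        refine ⟨L n j t, ((h7 n j).2.2 t).2 ht, ?_⟩
        show s • L n j t = L n j (s • t)
        rw [map_smul]
      constructor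
      · intro h
        have := h10 _ h
        rwa [(h7 n j).1 x] at this
      · exact h10 x
    rw [hH]
    by_cases h10 : x ∈ D
    · rw [indicator_of_notMem (show L n j x ∉ Dᶜ from fun h => h (h9.2 h10)),
        indicator_of_notMem (show x ∉ Dᶜ from fun h => h h10)]
    · rw [indicator_of_mem (show L n j x ∈ Dᶜ from fun h => h10 (h9.1 h)),
        indicator_of_mem (show x ∈ Dᶜ from h10),
        hφL]
  have hdec : ∫ x in T0 n \ D, phi (T0 n) x = ((n : ℝ) + 2) * ∫ x in Dl (n + 1), H x := by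
    have h9 := (h3 n H hHint).2
    simp only [hHL, Finset.sum_const, Finset.card_univ, Fintype.card_fin, nsmul_eq_mul] at h9
    push_cast at h9
    rw [← h9, hH, setIntegral_indicator hDm, ← Set.sdiff_eq]
  have hHint2 : IntegrableOn H (Dl (n + 1)) := by
    rw [hH]
    exact (hφ.continuousOn.integrableOn_compact (h8 (n + 1)).1).indicator hDm
  obtain ⟨hFint, hFeq⟩ := h4 n H hHint2
  have hFint' : Integrable (fun p : ℝ × (Fin n → ℝ) => p.1 ^ n * H (p.1 • e p.2))
      ((volume.restrict (Ioc (0 : ℝ) 1)).prod (volume.restrict (Dl n))) := by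
    rw [Measure.prod_restrict]
    exact hFint
  have hFeq' : ∫ x in Dl (n + 1), H x =
      ∫ y in Dl n, ∫ s in Ioc (0 : ℝ) 1, s ^ n * H (s • e y) := by
    rw [hFeq, Measure.volume_eq_prod, ← Measure.prod_restrict, integral_prod_symm _ hFint']
  obtain ⟨hp1, hp2⟩ := Facet_pow n s hs0 hs1
  have hec := Cone_econt n
  have hi2 : IntegrableOn (fun y => phi (T0 n) (e y)) (Dl n) :=
    ContinuousOn.integrableOn_compact (h8 n).1 (hφ.comp hec).continuousOn
  have hfin : volume (Dl n) ≠ ⊤ := (h8 n).1.measure_lt_top.ne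
  have hup : ∫ y in Dl n, ∫ s in Ioc (0 : ℝ) 1, s ^ n * H (s • e y) ≤
      ∫ y in Dl n, (1 - s ^ (n + 1)) / ((n : ℝ) + 1) * (phi (T0 n) (e y) + η) := by
    refine setIntegral_mono_on hFint'.integral_prod_right
      ((hi2.add (integrableOn_const hfin)).const_mul _) (h8 n).1.measurableSet ?_
    intro y hy
    have hp := Cone_e y hy
    show ∫ t in Ioc (0 : ℝ) 1, t ^ n * H (t • e y) ≤ _
    rw [← hp2, ← integral_mul_const]
    refine setIntegral_mono_on ?_ (hp1.mul_const _) measurableSet_Ioc ?_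
    · have h9 : (fun t : ℝ => t ^ n * H (t • e y)) =
          ((fun t : ℝ => t • e y) ⁻¹' Dᶜ).indicator
            (fun t : ℝ => t ^ n * phi (T0 n) (t • e y)) := by
        funext t
        rw [hH]
        by_cases h6 : t • e y ∈ Dᶜ
        · rw [indicator_of_mem h6,
            indicator_of_mem (show t ∈ (fun t : ℝ => t • e y) ⁻¹' Dᶜ from h6)]
        · rw [indicator_of_notMem h6,
            indicator_of_notMem (show t ∉ (fun t : ℝ => t • e y) ⁻¹' Dᶜ from h6), mul_zero]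
      rw [h9]
      have h10 : IntegrableOn (fun t : ℝ => t ^ n * phi (T0 n) (t • e y)) (Icc (0 : ℝ) 1) :=
        ContinuousOn.integrableOn_compact isCompact_Icc (Continuous.continuousOn (by fun_prop))
      refine (h10.mono_set Ioc_subset_Icc_self).indicator ?_
      exact (hDc.isClosed.isOpen_compl.preimage (by fun_prop)).measurableSet
    · intro t ht
      rw [hH]
      by_cases h9 : t ≤ s
      · have h10 : t • e y ∈ D := by
          rw [hD]
          refine ⟨(t / s) • e y, hsm _ (by have := ht.1; positivity)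
            ((div_le_one hs0).2 h9) _ (Facet_simplex _ hp), ?_⟩
          show s • (t / s) • e y = t • e y
          rw [smul_smul, mul_div_cancel₀ _ hs0.ne']
        rw [indicator_of_notMem (show t • e y ∉ Dᶜ from fun h => h h10), if_pos h9, mul_zero,
          zero_mul]
      · rw [if_neg h9]
        apply mul_le_mul_of_nonneg_left _ (pow_nonneg ht.1.le n)
        push Not at h9
        have h10 := hu t (by linarith) (by linarith [ht.2]) _ hp
        rw [abs_lt] at h10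
        refine le_trans (indicator_le_self' (fun _ _ => Facet_phi0 _ _) _) ?_
        linarith [h10.2]
  rw [← hFeq', integral_const_mul, integral_add hi2 (integrableOn_const hfin), setIntegral_const,
    smul_eq_mul] at hup
  have h9 : volume.real (Dl n) = vol (Dl n) := rfl
  rw [h9] at hup
  rw [hdec] at hb
  push_cast at hb
  have h10 := mul_le_mul_of_nonneg_left hup (show (0 : ℝ) ≤ ((n : ℝ) + 2) ^ 2 by positivity)
  have h11 : ((n : ℝ) + 1 + 1) * (((n : ℝ) + 2) * ∫ x in Dl (n + 1), H x) =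
      ((n : ℝ) + 2) ^ 2 * ∫ x in Dl (n + 1), H x := by ring
  rw [h11] at hb
  rw [mul_comm η]
  linarith

theorem thm_facet (h1 : St_bonf) (h2 : St_aff) (h3 : St_dec) (h4 : St_polar) (h5 : St_phi)
    (h6 : St_T0) (h7 : St_L) (h8 : St_Dl) : St_facet := by
  intro n
  obtain ⟨I, hI⟩ : ∃ I, I = ∫ y in Dl n, phi (T0 n) (e y) := ⟨_, rfl⟩
  obtain ⟨g, hg⟩ : ∃ g, g = G (n + 1) (T0 n) := ⟨_, rfl⟩
  obtain ⟨v, hv⟩ : ∃ v, v = vol (Dl n) := ⟨_, rfl⟩
  rw [← hI, ← hg]
  have hv0 : 0 < v := by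
    rw [hv]
    exact (h8 n).2.2
  have key : ∀ η : ℝ, 0 < η → ((n : ℝ) + 3) * g ≤
      ((n : ℝ) + 2) ^ 2 * (1 / ((n : ℝ) + 1) * (I + η * v)) := by
    intro η hη
    obtain ⟨δ₀, hδ₀, hu⟩ := Cone_unif (phi (T0 n)) (h5 n).1 hη
    have h9 : Filter.Tendsto (fun s : ℝ => (∑ k ∈ Finset.range (n + 3), (s ^ (n + 1)) ^ k) * g)
        (nhdsWithin 1 (Iio 1)) (nhds (((n : ℝ) + 3) * g)) := by
      have h10 : Continuous
          (fun s : ℝ => (∑ k ∈ Finset.range (n + 3), (s ^ (n + 1)) ^ k) * g) := by fun_prop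
      have h11 := h10.tendsto 1
      simp only [one_pow, Finset.sum_const, Finset.card_range, nsmul_eq_mul, mul_one] at h11
      push_cast at h11
      exact h11.mono_left nhdsWithin_le_nhds
    refine le_of_tendsto h9 ?_
    filter_upwards [Ioo_mem_nhdsLT (show max 0 (1 - δ₀) < (1 : ℝ) from
      max_lt one_pos (by linarith))] with s hs
    have hs0 : 0 < s := lt_of_le_of_lt (le_max_left _ _) hs.1
    have hs2 : 1 - δ₀ < s := lt_of_le_of_lt (le_max_right _ _) hs.1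
    have h10 := Facet_main h1 h2 h3 h4 h5 h6 h7 h8 n η δ₀ hδ₀ hu s hs0 hs.2 hs2
    rw [← hI, ← hg, ← hv] at h10
    have hx : s ^ (n + 1) < 1 := pow_lt_one₀ hs0.le hs.2 (by omega)
    have h11 : (1 - (s ^ (n + 1)) ^ (n + 3)) =
        (1 - s ^ (n + 1)) * ∑ k ∈ Finset.range (n + 3), (s ^ (n + 1)) ^ k := by
      rw [mul_neg_geom_sum]
    rw [h11] at h10
    have h12 : (1 - s ^ (n + 1)) * ((∑ k ∈ Finset.range (n + 3), (s ^ (n + 1)) ^ k) * g) ≤
        (1 - s ^ (n + 1)) * (((n : ℝ) + 2) ^ 2 * (1 / ((n : ℝ) + 1) * (I + η * v))) := by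
      calc _ = (1 - s ^ (n + 1)) * (∑ k ∈ Finset.range (n + 3), (s ^ (n + 1)) ^ k) * g := by ring
        _ ≤ _ := h10
        _ = _ := by ring
    exact le_of_mul_le_mul_left h12 (by linarith)
  have hn1 : (0 : ℝ) < (n : ℝ) + 1 := by positivity
  have key2 : ∀ η : ℝ, 0 < η → ((n : ℝ) + 1) * ((n : ℝ) + 3) * g ≤
      ((n : ℝ) + 2) ^ 2 * I + ((n : ℝ) + 2) ^ 2 * v * η := by
    intro η hη
    have h9 := mul_le_mul_of_nonneg_left (key η hη) hn1.le
    calc ((n : ℝ) + 1) * ((n : ℝ) + 3) * g = ((n : ℝ) + 1) * (((n : ℝ) + 3) * g) := by ring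
      _ ≤ _ := h9
      _ = _ := by
        field_simp
  refine le_of_forall_pos_le_add fun ε hε => ?_
  have h9 : (0 : ℝ) < ((n : ℝ) + 2) ^ 2 * v := by positivity
  have h10 := key2 (ε / (((n : ℝ) + 2) ^ 2 * v)) (by positivity)
  rw [mul_div_cancel₀ _ h9.ne'] at h10
  exact h10

end

end Pool.Agent.SYL
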