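import Pool.Agent.SYL.St

/-! # Sylvester problem: the gauge defect on the facet -/

set_option autoImplicit false

namespace Pool.Agent.SYL

open MeasureTheory Set

noncomputable section

theorem Gauge_convex {n : ℕ} {D : Set (Fin n → ℝ)} (hD : Convex ℝ D)
    (h0 : D ∈ nhds (0 : Fin n → ℝ)) : ConvexOn ℝ univ (gauge D) := by
  refine ⟨convex_univ, fun x _ y _ a b ha hb _ => ?_⟩
  refine (gauge_add_le hD (absorbent_nhds_zero h0) _ _).trans ?_
  rw [gauge_smul_of_nonneg ha, gauge_smul_of_nonneg hb]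

theorem Gauge_sum {n : ℕ} : ConcaveOn ℝ univ (fun p : Fin n → ℝ => ∑ i, p i) := by
  refine ⟨convex_univ, fun x _ y _ a b _ _ _ => le_of_eq ?_⟩
  simp only [smul_eq_mul, Pi.add_apply, Pi.smul_apply, Finset.sum_add_distrib, Finset.mul_sum]

theorem thm_gauge : St_gauge := by
  intro n D δ hδ hδ2 hD hcl h0 h1 h2 hg
  have hmem : ∀ x : Fin (n + 1) → ℝ, x ∈ D ↔ gauge D x ≤ 1 := by
    intro x
    rw [gauge_le_one_iff_mem_closure hD h0, hcl.closure_eq]
  have hsm : ∀ (s : ℝ) (p : Fin (n + 1) → ℝ), 0 < s → (s • p ∈ D ↔ s * gauge D p ≤ 1) := by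
    intro s p hs
    rw [hmem, gauge_smul_of_nonneg hs.le, smul_eq_mul]
  have hge : ∀ p ∈ stdSimplex ℝ (Fin (n + 1)), 1 ≤ gauge D p := by
    intro p hp
    by_contra hcon
    rw [not_le] at hcon
    obtain ⟨r, hr⟩ : ∃ r, r = gauge D p := ⟨_, rfl⟩
    have hr0 : 0 ≤ r := by rw [hr]; exact gauge_nonneg _
    rw [← hr] at hcon
    have h3 : (2 / (1 + r)) • p ∈ D := by
      rw [hsm _ _ (by positivity), ← hr, div_mul_eq_mul_div, div_le_one (by positivity)]
      linarith
    have h4 := h1 _ h3 (fun i => by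
      have := hp.1 i
      simp only [Pi.smul_apply, smul_eq_mul]
      positivity)
    simp only [Pi.smul_apply, smul_eq_mul, ← Finset.mul_sum, hp.2, mul_one] at h4
    rw [div_le_one (by positivity)] at h4
    linarith
  refine ⟨fun p => gauge D p - ∑ i, p i, ?_, ?_, ?_, ?_, ?_⟩
  · exact (continuous_gauge hD h0).sub (continuous_finsetSum _ fun i _ => continuous_apply i)
  · exact (Gauge_convex hD h0).sub Gauge_sum
  · intro p hp
    simp only [hp.2]
    refine ⟨by linarith [hge p hp], ?_⟩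
    have hpD : p ∈ Dl (n + 1) := ⟨hp.1, hp.2.le⟩
    have h3 := (hsm (1 - δ) p (by linarith)).1 (h2 p hpD)
    have h4 : gauge D p ≤ 1 / (1 - δ) := by
      rw [le_div_iff₀ (by linarith), mul_comm]
      exact h3
    have h5 : 1 / (1 - δ) ≤ 1 + 2 * δ := by
      rw [div_le_iff₀ (by linarith)]
      nlinarith
    linarith
  · have hgs : gS n ∈ stdSimplex ℝ (Fin (n + 1)) := by
      refine ⟨fun i => ?_, ?_⟩
      · unfold gS
        positivity
      · simp only [gS, Finset.sum_const, Finset.card_univ, Fintype.card_fin, nsmul_eq_mul]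
        push_cast
        field_simp
    have h3 := hge _ hgs
    have h4 := (hmem _).1 hg
    simp only [hgs.2]
    linarith
  · intro p hp s hs
    simp only [hp.2]
    rw [hsm s p hs.1]
    have e : 1 + (gauge D p - 1) = gauge D p := by ring
    rw [e]

end

end Pool.Agent.SYL
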