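import Pool.Agent.SYL.St

set_option autoImplicit false

/-! # SYL Int: interior bound for convex functions -/

namespace Pool.Agent.SYL

open MeasureTheory Set

theorem Int_e_zero {n : ℕ} (y : Fin n → ℝ) : e y 0 = 1 - ∑ i, y i := rfl

theorem Int_e_succ {n : ℕ} (y : Fin n → ℝ) (i : Fin n) : e y i.succ = y i := rfl

theorem Int_e_cont (n : ℕ) : Continuous (e : (Fin n → ℝ) → (Fin (n + 1) → ℝ)) := by
  refine continuous_pi fun i => ?_
  refine Fin.cases ?_ (fun j => ?_) i
  · change Continuous fun y : Fin n → ℝ => 1 - ∑ i, y i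
    fun_prop
  · change Continuous fun y : Fin n → ℝ => y j
    fun_prop

theorem Int_e_sum {n : ℕ} (y : Fin n → ℝ) : ∑ i, e y i = 1 := by
  rw [Fin.sum_univ_succ, Int_e_zero]
  simp_rw [Int_e_succ]
  ring

theorem Int_e_mem {n : ℕ} {y : Fin n → ℝ} (hy : y ∈ Dl n) : e y ∈ stdSimplex ℝ (Fin (n + 1)) := by
  refine ⟨fun i => ?_, Int_e_sum y⟩
  refine Fin.cases ?_ (fun j => ?_) i
  · rw [Int_e_zero]
    linarith [hy.2]
  · rw [Int_e_succ]
    exact hy.1 j

theorem Int_mean (h1 : St_sym) (h2 : St_Dl) (n : ℕ) (i : Fin (n + 1)) :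
    ∫ y in Dl n, e y i = vol (Dl n) / ((n : ℝ) + 1) := by
  have hn : (n : ℝ) + 1 ≠ 0 := by positivity
  have hint : ∀ i : Fin (n + 1), IntegrableOn (fun y : Fin n → ℝ => e y i) (Dl n) := fun i =>
    (((continuous_apply i).comp (Int_e_cont n)).continuousOn).integrableOn_compact (h2 n).1
  have h3 : ∀ i : Fin (n + 1), ∫ y in Dl n, e y i = ∫ y in Dl n, e y 0 := by
    intro i
    have h4 := h1 n (fun p => p 0) (continuous_apply 0) (Equiv.swap 0 i)
    simp only [Function.comp_apply, Equiv.swap_apply_left] at h4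
    exact h4
  have h4 : ∑ i : Fin (n + 1), ∫ y in Dl n, e y i = vol (Dl n) := by
    rw [← integral_finsetSum _ fun i _ => hint i]
    simp_rw [Int_e_sum]
    rw [setIntegral_const, smul_eq_mul, mul_one]
    rfl
  rw [Finset.sum_congr rfl fun i _ => h3 i, Finset.sum_const, Finset.card_univ, Fintype.card_fin,
    nsmul_eq_mul] at h4
  rw [h3 i, eq_div_iff hn, ← h4]
  push_cast
  ring

theorem Int_sub (h2 : St_Dl) (n : ℕ) (h : (Fin n → ℝ) → ℝ) (hc : Continuous h)
    (h0 : ∀ y ∈ Dl n, 0 ≤ h y) (q : Fin n → ℝ) (hq : q ∈ Dl n) :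
    ∫ z in Dl n, h ((1 / 2 : ℝ) • (q + z)) ≤ 2 ^ n * ∫ y in Dl n, h y := by
  have hDm : MeasurableSet (Dl n) := (h2 n).1.isClosed.measurableSet
  have hSm : MeasurableSet {y : Fin n → ℝ | (2 : ℝ) • y - q ∈ Dl n} := by
    have h3 : Continuous fun y : Fin n → ℝ => (2 : ℝ) • y - q := by fun_prop
    exact ((h2 n).1.isClosed.preimage h3).measurableSet
  have h3 : ∀ z : Fin n → ℝ, (Dl n).indicator (fun z => h ((1 / 2 : ℝ) • (q + z))) z =
      {y : Fin n → ℝ | (2 : ℝ) • y - q ∈ Dl n}.indicator h ((1 / 2 : ℝ) • (q + z)) := by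
    intro z
    have h4 : (2 : ℝ) • ((1 / 2 : ℝ) • (q + z)) - q = z := by
      rw [smul_smul]
      norm_num
    by_cases hz : z ∈ Dl n
    · rw [indicator_of_mem hz, indicator_of_mem]
      change (2 : ℝ) • ((1 / 2 : ℝ) • (q + z)) - q ∈ Dl n
      rwa [h4]
    · rw [indicator_of_notMem hz, indicator_of_notMem]
      change ¬ ((2 : ℝ) • ((1 / 2 : ℝ) • (q + z)) - q ∈ Dl n)
      rwa [h4]
  rw [← integral_indicator hDm]
  simp_rw [h3]
  rw [integral_add_left_eq_self (fun z : Fin n → ℝ =>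
    {y : Fin n → ℝ | (2 : ℝ) • y - q ∈ Dl n}.indicator h ((1 / 2 : ℝ) • z)) q,
    Measure.integral_comp_smul, Module.finrank_fin_fun, integral_indicator hSm, smul_eq_mul]
  have h4 : |((1 / 2 : ℝ) ^ n)⁻¹| = 2 ^ n := by
    rw [one_div, inv_pow, inv_inv, abs_of_nonneg (by positivity)]
  rw [h4]
  refine mul_le_mul_of_nonneg_left ?_ (by positivity)
  refine setIntegral_mono_set (hc.continuousOn.integrableOn_compact (h2 n).1) ?_ ?_
  · rw [Filter.EventuallyLE, ae_restrict_iff' hDm]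
    exact Filter.Eventually.of_forall fun y hy => h0 y hy
  · refine LE.le.eventuallyLE ?_
    intro y hy
    have h5 := (h2 n).2.1 hq hy (show (0 : ℝ) ≤ 1 / 2 by norm_num)
      (show (0 : ℝ) ≤ 1 / 2 by norm_num) (by norm_num)
    have h6 : (1 / 2 : ℝ) • q + (1 / 2 : ℝ) • ((2 : ℝ) • y - q) = y := by
      rw [smul_sub, smul_smul]
      norm_num
    rwa [h6] at h5

theorem thm_int (h1 : St_sym) (h2 : St_Dl) : St_int := by
  intro n u hu hcx h0 q hq
  have hvol := (h2 n).2.2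
  have hn : (n : ℝ) + 1 ≠ 0 := by positivity
  have hfc : Continuous fun z : Fin n → ℝ => (1 / 2 : ℝ) • (q + e z) := by
    have := Int_e_cont n
    fun_prop
  have hfi : IntegrableOn (fun z : Fin n → ℝ => (1 / 2 : ℝ) • (q + e z)) (Dl n) :=
    hfc.continuousOn.integrableOn_compact (h2 n).1
  have hv0 : volume (Dl n) ≠ 0 := by
    intro h
    unfold vol at hvol
    rw [h] at hvol
    simp at hvol
  have hJ := ConvexOn.map_set_average_le hcx hu.continuousOn isClosed_univ hv0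
    (h2 n).1.measure_lt_top.ne (Filter.Eventually.of_forall fun z => mem_univ _) hfi
    ((hu.comp hfc).continuousOn.integrableOn_compact (h2 n).1)
  have hav : ⨍ z in Dl n, (1 / 2 : ℝ) • (q + e z) = (1 / 2 : ℝ) • (q + gS n) := by
    rw [setAverage_eq]
    funext i
    rw [Pi.smul_apply]
    have h3 : (∫ z in Dl n, (1 / 2 : ℝ) • (q + e z)) i = ∫ z in Dl n, (1 / 2 : ℝ) * (q i + e z i) := by
      have h4 := (ContinuousLinearMap.proj (R := ℝ) (φ := fun _ : Fin (n + 1) => ℝ) i).integral_comp_comm hfi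
      exact h4.symm
    have hint : IntegrableOn (fun y : Fin n → ℝ => e y i) (Dl n) :=
      (((continuous_apply i).comp (Int_e_cont n)).continuousOn).integrableOn_compact (h2 n).1
    have hci : IntegrableOn (fun _ : Fin n → ℝ => q i) (Dl n) :=
      continuous_const.continuousOn.integrableOn_compact (h2 n).1
    rw [h3, integral_const_mul, integral_add hci hint, setIntegral_const, Int_mean h1 h2]
    change (vol (Dl n))⁻¹ * (1 / 2 * (vol (Dl n) * q i + vol (Dl n) / ((n : ℝ) + 1))) =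
      1 / 2 * (q i + 1 / ((n : ℝ) + 1))
    have := hvol.ne'
    field_simp
  rw [hav, setAverage_eq, smul_eq_mul] at hJ
  have h5 : vol (Dl n) * u ((1 / 2 : ℝ) • (q + gS n)) ≤ ∫ z in Dl n, u ((1 / 2 : ℝ) • (q + e z)) := by
    have h6 := mul_le_mul_of_nonneg_left hJ hvol.le
    have h7 : vol (Dl n) * ((volume.real (Dl n))⁻¹ * ∫ z in Dl n, u ((1 / 2 : ℝ) • (q + e z))) =
        ∫ z in Dl n, u ((1 / 2 : ℝ) • (q + e z)) := by
      change vol (Dl n) * ((vol (Dl n))⁻¹ * _) = _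
      rw [← mul_assoc, mul_inv_cancel₀ hvol.ne', one_mul]
    rwa [h7] at h6
  refine h5.trans ?_
  have hq0 : 0 ≤ q 0 := hq.1 0
  have hqs : q 0 + ∑ i : Fin n, q i.succ = 1 := by
    rw [← Fin.sum_univ_succ]
    exact hq.2
  have hq' : (fun i : Fin n => q i.succ) ∈ Dl n := ⟨fun i => hq.1 i.succ, by linarith⟩
  have h6 : ∀ z : Fin n → ℝ, (1 / 2 : ℝ) • (q + e z) =
      e ((1 / 2 : ℝ) • ((fun i : Fin n => q i.succ) + z)) := by
    intro z
    funext i
    refine Fin.cases ?_ (fun j => ?_) i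
    · rw [Int_e_zero]
      change (1 / 2 : ℝ) * (q 0 + (1 - ∑ i, z i)) = 1 - ∑ i, (1 / 2 : ℝ) * (q i.succ + z i)
      rw [← Finset.mul_sum, Finset.sum_add_distrib]
      linarith
    · rw [Int_e_succ]
      rfl
  simp_rw [h6]
  exact Int_sub h2 n (fun y => u (e y)) (hu.comp (Int_e_cont n))
    (fun y hy => h0 _ (Int_e_mem hy)) _ hq'

end Pool.Agent.SYL
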