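import Pool.Agent.SYL.St

set_option autoImplicit false

/-! # SYL Lsw: the swaps -/

namespace Pool.Agent.SYL

open MeasureTheory Set

theorem Lsw_apply (n : ℕ) (j : Fin (n + 1)) (x : Fin (n + 1) → ℝ) (i : Fin (n + 1)) :
    Lsw n j x i = if i = j then - x j else x i - x j := rfl

theorem Lsw_invol (n : ℕ) (j : Fin (n + 1)) (x : Fin (n + 1) → ℝ) : Lsw n j (Lsw n j x) = x := by
  funext i
  rw [Lsw_apply]
  by_cases h : i = j
  · subst h
    rw [if_pos rfl, Lsw_apply, if_pos rfl, neg_neg]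
  · rw [if_neg h, Lsw_apply, Lsw_apply, if_neg h, if_pos rfl]
    ring

theorem Lsw_sum (n : ℕ) (j : Fin (n + 1)) (x : Fin (n + 1) → ℝ) :
    ∑ i, Lsw n j x i = ∑ i, x i - ((n : ℝ) + 2) * x j := by
  have h1 : ∀ i, Lsw n j x i = (x i - x j) - if i = j then x j else 0 := by
    intro i
    rw [Lsw_apply]
    by_cases h : i = j
    · subst h
      simp
    · simp [h]
  rw [Finset.sum_congr rfl fun i _ => h1 i, Finset.sum_sub_distrib, Finset.sum_sub_distrib,
    Finset.sum_const, Finset.card_univ, Fintype.card_fin, Finset.sum_ite_eq' Finset.univ j,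
    if_pos (Finset.mem_univ j), nsmul_eq_mul]
  push_cast
  ring

theorem Lsw_T0 (n : ℕ) (j : Fin (n + 1)) (x : Fin (n + 1) → ℝ) (hx : x ∈ T0 n) :
    Lsw n j x ∈ T0 n := by
  have hn : (0 : ℝ) < (n : ℝ) + 2 := by positivity
  have h1 := hx.1
  have h2 := hx.2
  have h3 : (1 - ∑ i, Lsw n j x i) / ((n : ℝ) + 2) = (1 - ∑ i, x i) / ((n : ℝ) + 2) + x j := by
    rw [Lsw_sum]
    field_simp
    ring
  have h4 : 0 ≤ (1 - ∑ i, x i) / ((n : ℝ) + 2) := div_nonneg (by linarith) hn.le
  refine ⟨?_, fun i => ?_⟩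
  · have h5 := h2 j
    have h6 : 0 ≤ (1 - ∑ i, Lsw n j x i) / ((n : ℝ) + 2) := by
      rw [h3]
      linarith
    have h7 := (le_div_iff₀ hn).1 h6
    rw [zero_mul] at h7
    linarith
  · rw [h3, Lsw_apply]
    by_cases h : i = j
    · rw [if_pos h]
      linarith
    · rw [if_neg h]
      have h5 := h2 i
      linarith

theorem thm_L : St_L := by
  intro n j
  refine Fin.cases ?_ (fun j => ?_) j
  · have h1 : L n 0 = LinearMap.id := rfl
    rw [h1]
    refine ⟨fun x => rfl, ?_, fun x => Iff.rfl⟩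
    rw [LinearMap.det_id, abs_one]
  · have h1 : L n j.succ = Lsw n j := rfl
    rw [h1]
    refine ⟨Lsw_invol n j, ?_, fun x => ⟨fun h => ?_, Lsw_T0 n j x⟩⟩
    · have h2 : (Lsw n j).comp (Lsw n j) = LinearMap.id := by
        apply LinearMap.ext
        exact Lsw_invol n j
      have h3 := congrArg LinearMap.det h2
      rw [LinearMap.det_comp, LinearMap.det_id] at h3
      have h4 : |LinearMap.det (Lsw n j)| * |LinearMap.det (Lsw n j)| = 1 := by
        rw [← abs_mul, h3, abs_one]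
      have h5 := abs_nonneg (LinearMap.det (Lsw n j))
      nlinarith
    · have h2 := Lsw_T0 n j _ h
      rwa [Lsw_invol] at h2

end Pool.Agent.SYL
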