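import Pool.Agent.SYL.St

/-! # Sylvester problem: from the normalised form to the theorem (R2) -/

namespace Pool.Agent.SYL

open MeasureTheory Set

theorem MainR_det_inj {d : ℕ} (M : (Fin d → ℝ) →ₗ[ℝ] (Fin d → ℝ)) (h : LinearMap.det M ≠ 0) :
    Function.Bijective M := by
  have hu : IsUnit (LinearMap.det M) := isUnit_iff_ne_zero.mpr h
  have h2 : IsUnit M := (LinearMap.isUnit_iff_isUnit_det M).mpr hu
  rw [Module.End.isUnit_iff] at h2
  exact h2

theorem MainR_sylv_aff (h4 : St_aff) {d : ℕ} (M : (Fin d → ℝ) →ₗ[ℝ] (Fin d → ℝ)) (b : Fin d → ℝ)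
    (K : Set (Fin d → ℝ)) (hM : LinearMap.det M ≠ 0) (hK : MeasurableSet K) :
    Sylv d ((fun x => M x + b) '' K) = Sylv d K := by
  obtain ⟨h5, h6⟩ := h4 d M b K hM hK
  unfold Sylv
  rw [h5, h6, mul_pow]
  have h7 : |LinearMap.det M| ^ (d + 2) ≠ 0 := pow_ne_zero _ (abs_ne_zero.mpr hM)
  rw [div_mul_eq_mul_div, div_mul_eq_mul_div]
  rw [show ((d : ℝ) + 2) * (|LinearMap.det M| ^ (d + 2) * G d K) =
    |LinearMap.det M| ^ (d + 2) * (((d : ℝ) + 2) * G d K) by ring]
  rw [mul_div_mul_left _ _ h7]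

theorem thm_main (h1 : St_normal) (h2 : St_min) (h3 : St_norm) (h4 : St_aff)
    (h5 : St_simplexbody) (h6 : St_eqvol) (h7 : St_T0) (h8 : St_phi) : St_main := by
  intro d hd
  obtain ⟨n, rfl⟩ : ∃ n, d = n + 1 := ⟨d - 1, by omega⟩
  obtain ⟨ε1, hε1, H1⟩ := h2 (n + 1) (by omega)
  obtain ⟨ε2, c, hε2, hc, H2⟩ := h1 n
  obtain ⟨t1, t2, t3, t4, t5⟩ := h7 n
  obtain ⟨p1, p2, p3, p4, p5⟩ := h8 n
  have hT0s : IsSimplex (T0 n) := ⟨w n, t2, t1.symm⟩
  have hT0b := h5 _ _ hT0s
  have hT0pos : 0 < vol (T0 n) := hT0b.2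
  have hSpos : 0 < Sylv (n + 1) (T0 n) := by
    unfold Sylv
    apply mul_pos
    · apply div_pos
      · positivity
      · positivity
    · exact p5
  have hSall : ∀ T : Set (Fin (n + 1) → ℝ), IsSimplex T → Sylv (n + 1) T = Sylv (n + 1) (T0 n) := by
    intro T hT
    obtain ⟨M, b, hM, hT'⟩ := (h3 n).1 T hT
    rw [← hT']
    exact MainR_sylv_aff h4 M b _ hM t3.measurableSet
  refine ⟨min (min ε1 ε2) (1 / 2), c, by positivity, hc, ?_⟩
  intro D T hD hT hDT hvol
  have hTb := h5 _ _ hT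
  have hε1' : min (min ε1 ε2) (1 / 2) ≤ ε1 := le_trans (min_le_left _ _) (min_le_left _ _)
  have hε2' : min (min ε1 ε2) (1 / 2) ≤ ε2 := le_trans (min_le_left _ _) (min_le_right _ _)
  have hε3' : min (min ε1 ε2) (1 / 2) ≤ 1 / 2 := min_le_right _ _
  have hTpos := hTb.2
  obtain ⟨T', hT's, hDT', hmin⟩ := H1 D T hD hT hDT (by nlinarith)
  have hT'pos := (h5 _ _ hT's).2
  have hle : vol T' ≤ vol T := hmin T hT hDT
  obtain ⟨M, b, hM, hMT⟩ := (h3 n).1 T' hT's
  have hbij := MainR_det_inj M hM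
  have hcont : Continuous (fun x => M x + b) :=
    (LinearMap.continuous_of_finiteDimensional M).add continuous_const
  set A : (Fin (n + 1) → ℝ) → (Fin (n + 1) → ℝ) := fun x => M x + b with hA
  have hAinj : Function.Injective A := by
    intro x y hxy
    apply hbij.1
    simpa [hA] using hxy
  have hAsurj : Function.Surjective A := by
    intro y
    obtain ⟨x, hx⟩ := hbij.2 (y - b)
    exact ⟨x, by simp [hA, hx]⟩
  set Ds : Set (Fin (n + 1) → ℝ) := A ⁻¹' D with hDs
  have hDsim : A '' Ds = D := image_preimage_eq D hAsurj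
  have hDsc : IsClosed Ds := hD.2.1.isClosed.preimage hcont
  have hDsconv : Convex ℝ Ds := by
    intro x hx y hy a b' ha hb' hab
    have h9 : A (a • x + b' • y) = a • A x + b' • A y := by
      simp only [hA, map_add, map_smul, smul_add]
      have : b = a • b + b' • b := by rw [← add_smul, hab, one_smul]
      nth_rewrite 1 [this]
      abel
    show A (a • x + b' • y) ∈ D
    rw [h9]
    exact hD.1 hx hy ha hb' hab
  have hDsT0 : Ds ⊆ T0 n := by
    intro x hx
    have hx2 : A x ∈ T' := hDT' hx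
    rw [← hMT] at hx2
    obtain ⟨y, hy, hyx⟩ := hx2
    rw [← hAinj hyx]
    exact hy
  have hDsne : Ds.Nonempty := by
    obtain ⟨x, hx⟩ := hD.2.2
    obtain ⟨y, hy⟩ := hAsurj x
    exact ⟨y, by show A y ∈ D; rw [hy]; exact interior_subset hx⟩
  have hvT' : vol T' = |LinearMap.det M| * vol (T0 n) := by
    rw [← hMT]; exact (h4 _ M b _ hM t3.measurableSet).1
  have hvD : vol D = |LinearMap.det M| * vol Ds := by
    rw [← hDsim]; exact (h4 _ M b _ hM hDsc.measurableSet).1
  have hdetpos : 0 < |LinearMap.det M| := abs_pos.mpr hM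
  have hDsmin : ∀ T'' : Set (Fin (n + 1) → ℝ), IsSimplex T'' → Ds ⊆ T'' →
      vol (T0 n) ≤ vol T'' := by
    intro T'' hT'' hsub
    have ha := hmin (A '' T'') ((h3 n).2 T'' M b hM hT'')
      (by rw [← hDsim]; exact image_mono hsub)
    rw [hvT', (h4 _ M b _ hM (h5 _ _ hT'').1.2.1.measurableSet).1] at ha
    exact le_of_mul_le_mul_left ha hdetpos
  have hratio : vol Ds / vol (T0 n) = vol D / vol T' := by
    rw [hvT', hvD, mul_div_mul_left _ _ hdetpos.ne']
  have hvol2 : (1 - ε2) * vol (T0 n) ≤ vol Ds := by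
    have hv3 : (1 - ε2) * vol T' ≤ vol D := by nlinarith
    rw [hvT', hvD] at hv3
    have : |LinearMap.det M| * ((1 - ε2) * vol (T0 n)) ≤ |LinearMap.det M| * vol Ds := by
      linarith
    exact le_of_mul_le_mul_left this hdetpos
  have key := H2 Ds hDsconv hDsc hDsT0 hDsne hDsmin hvol2
  have hSD : Sylv (n + 1) D = Sylv (n + 1) Ds := by
    rw [← hDsim]; exact MainR_sylv_aff h4 M b _ hM hDsc.measurableSet
  rw [hratio, ← hSD, ← hSall T hT] at key
  refine ⟨⟨T', hT's, hDT', hmin, key⟩, ?_, ?_⟩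
  · intro heq
    have hSTpos : 0 < Sylv (n + 1) T := by rw [hSall T hT]; exact hSpos
    rw [heq] at key
    have hx : c * (1 - vol D / vol T') ≤ 0 := by
      by_contra hcon
      push Not at hcon
      have := mul_pos hSTpos hcon
      nlinarith
    have hx2 : 1 - vol D / vol T' ≤ 0 := by
      by_contra hcon
      push Not at hcon
      have := mul_pos hc hcon
      linarith
    have hx3 : vol T' ≤ vol D := by
      have : 1 ≤ vol D / vol T' := by linarith
      rwa [one_le_div hT'pos] at this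
    rw [h6 _ D T' hD.2.1.isClosed (h5 _ _ hT's).1 hDT' hx3]
    exact hT's
  · intro hs
    rw [hSall D hs, hSall T hT]

end Pool.Agent.SYL
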