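import Pool.Agent.SYL.St

/-! # Sylvester problem, module Min: existence of a least simplex -/

set_option autoImplicit false

namespace Pool.Agent.SYL

open MeasureTheory Set

noncomputable section

theorem Min_hull {d m : ℕ} (v : Fin m → (Fin d → ℝ)) :
    convexHull ℝ (range v) = (fun w : Fin m → ℝ => ∑ i, w i • v i) '' stdSimplex ℝ (Fin m) := by
  apply Subset.antisymm
  · refine convexHull_min ?_ ?_
    · rintro _ ⟨i, rfl⟩
      refine ⟨Pi.single i 1, single_mem_stdSimplex ℝ i, ?_⟩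
      show ∑ j, (Pi.single i (1 : ℝ) : Fin m → ℝ) j • v j = v i
      rw [Finset.sum_eq_single i]
      · simp
      · intro j _ hj
        simp [hj]
      · intro h
        exact absurd (Finset.mem_univ i) h
    · exact (convex_stdSimplex ℝ (Fin m)).linear_image (Fintype.linearCombination ℝ v)
  · rintro _ ⟨w, hw, rfl⟩
    exact (convex_convexHull ℝ _).sum_mem (fun i _ => hw.1 i) hw.2
      (fun i _ => subset_convexHull ℝ _ ⟨i, rfl⟩)

theorem Min_indep {d : ℕ} (v : Fin (d + 1) → (Fin d → ℝ)) (h : dt v ≠ 0) :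
    AffineIndependent ℝ v := by
  rw [affineIndependent_iff_of_fintype]
  intro w hw hw2
  rw [Finset.weightedVSub_eq_linear_combination _ hw] at hw2
  rw [Fin.sum_univ_succ] at hw
  have h1 : Matrix.vecMul (fun i : Fin d => w i.succ)
      (Matrix.of fun i : Fin d => v i.succ - v 0) = 0 := by
    funext j
    have h2 := congrFun hw2 j
    rw [Fin.sum_univ_succ] at h2
    simp only [Pi.add_apply, Pi.smul_apply, smul_eq_mul, Finset.sum_apply, Pi.zero_apply] at h2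
    simp only [Matrix.vecMul, dotProduct, Matrix.of_apply, Pi.sub_apply, Pi.zero_apply, mul_sub,
      Finset.sum_sub_distrib, ← Finset.sum_mul]
    have h3 : ∑ i : Fin d, w i.succ = - w 0 := by linarith
    rw [h3]
    linarith
  have h3 := Matrix.eq_zero_of_vecMul_eq_zero h h1
  have h4 : ∀ i : Fin d, w i.succ = 0 := fun i => congrFun h3 i
  intro i
  refine Fin.cases ?_ h4 i
  simpa [h4] using hw

theorem Min_volmono {d : ℕ} {A B : Set (Fin d → ℝ)} (h : A ⊆ B) (hB : IsCompact B) :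
    vol A ≤ vol B :=
  ENNReal.toReal_mono hB.measure_lt_top.ne (measure_mono h)

theorem Min_norm {d m : ℕ} (v : Fin m → (Fin d → ℝ)) (N : ℝ) (hN : ∀ i, ‖v i‖ ≤ N)
    (x : Fin d → ℝ) (hx : x ∈ convexHull ℝ (range v)) : ‖x‖ ≤ N := by
  have h1 : convexHull ℝ (range v) ⊆ Metric.closedBall 0 N := by
    refine convexHull_min ?_ (convex_closedBall _ _)
    rintro _ ⟨i, rfl⟩
    rw [mem_closedBall_zero_iff]
    exact hN i
  exact mem_closedBall_zero_iff.1 (h1 hx)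

theorem Min_bound (h4 : St_aff) (d : ℕ) (D : Set (Fin d → ℝ)) (R : ℝ) (hR : ∀ x ∈ D, ‖x‖ ≤ R)
    (t : ℝ) (ht0 : 0 < t) (htD : (1 - (1 / 4) ^ d / 2) * t ≤ vol D)
    (v : Fin (d + 1) → (Fin d → ℝ)) (hDv : D ⊆ convexHull ℝ (range v))
    (hv : vol (convexHull ℝ (range v)) ≤ t) : ∀ i, ‖v i‖ ≤ 2 * R := by
  obtain ⟨k, hk⟩ := Finite.exists_max (fun i => ‖v i‖)
  intro i
  refine le_trans (hk i) ?_
  obtain ⟨T', hT'⟩ : ∃ T', T' = convexHull ℝ (range v) := ⟨_, rfl⟩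
  rw [← hT'] at hDv hv
  have hTc : IsCompact T' := by
    rw [hT']
    exact (finite_range v).isCompact_convexHull (𝕜 := ℝ)
  have hTv : Convex ℝ T' := by
    rw [hT']
    exact convex_convexHull ℝ _
  have hkT : v k ∈ T' := by
    rw [hT']
    exact subset_convexHull ℝ _ ⟨k, rfl⟩
  obtain ⟨S, hS⟩ : ∃ S, S = (fun x => ((1 / 4 : ℝ) •
      (LinearMap.id : (Fin d → ℝ) →ₗ[ℝ] (Fin d → ℝ))) x + (3 / 4 : ℝ) • v k) '' T' := ⟨_, rfl⟩
  have hdet : LinearMap.det ((1 / 4 : ℝ) • (LinearMap.id : (Fin d → ℝ) →ₗ[ℝ] (Fin d → ℝ))) =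
      (1 / 4) ^ d := by
    rw [LinearMap.det_smul, LinearMap.det_id, mul_one, Module.finrank_fin_fun]
  have hSv : vol S = (1 / 4) ^ d * vol T' := by
    have h5 := (h4 d ((1 / 4 : ℝ) • LinearMap.id) ((3 / 4 : ℝ) • v k) T'
      (by rw [hdet]; positivity) hTc.measurableSet).1
    rw [hdet, abs_of_pos (by positivity), ← hS] at h5
    exact h5
  have hSc : IsCompact S := by
    rw [hS]
    refine hTc.image ?_
    simp only [LinearMap.smul_apply, LinearMap.id_coe, id_eq]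
    fun_prop
  have hST : S ⊆ T' := by
    rw [hS]
    rintro _ ⟨x, hx, rfl⟩
    exact hTv hx hkT (by norm_num) (by norm_num) (by norm_num)
  have hex : ∃ x ∈ T', (1 / 4 : ℝ) • x + (3 / 4 : ℝ) • v k ∈ D := by
    by_contra hcon
    push Not at hcon
    have h5 : D ⊆ T' \ S := by
      intro z hz
      refine ⟨hDv hz, fun h => ?_⟩
      rw [hS] at h
      obtain ⟨x, hx, rfl⟩ := h
      exact hcon x hx hz
    have h6 : vol (T' \ S) = vol T' - vol S := by
      unfold vol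
      rw [measure_sdiff hST hSc.measurableSet.nullMeasurableSet hSc.measure_lt_top.ne,
        ENNReal.toReal_sub_of_le (measure_mono hST) hTc.measure_lt_top.ne]
    have h7 : vol D ≤ vol (T' \ S) :=
      ENNReal.toReal_mono (ne_top_of_le_ne_top hTc.measure_lt_top.ne
        (measure_mono sdiff_subset)) (measure_mono h5)
    have h8 : (0 : ℝ) < (1 / 4) ^ d := by positivity
    have h9 : ((1 : ℝ) / 4) ^ d ≤ 1 := pow_le_one₀ (by norm_num) (by norm_num)
    have h10 : (1 - (1 / 4 : ℝ) ^ d) * vol T' ≤ (1 - (1 / 4 : ℝ) ^ d) * t :=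
      mul_le_mul_of_nonneg_left hv (by linarith)
    rw [h6, hSv] at h7
    have h11 : (0 : ℝ) < (1 / 4) ^ d * t := by positivity
    linarith
  obtain ⟨x, hx, hxD⟩ := hex
  have h5 := hR _ hxD
  have h6 : ‖x‖ ≤ ‖v k‖ := by
    rw [hT'] at hx
    exact Min_norm v _ hk x hx
  have h7 : ‖(3 / 4 : ℝ) • v k‖ ≤ ‖(1 / 4 : ℝ) • x + (3 / 4 : ℝ) • v k‖ + ‖(1 / 4 : ℝ) • x‖ := by
    calc ‖(3 / 4 : ℝ) • v k‖
        = ‖((1 / 4 : ℝ) • x + (3 / 4 : ℝ) • v k) - (1 / 4 : ℝ) • x‖ := by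
          rw [add_sub_cancel_left]
      _ ≤ _ := norm_sub_le _ _
  rw [norm_smul, norm_smul, Real.norm_of_nonneg (by norm_num), Real.norm_of_nonneg (by norm_num)]
    at h7
  show ‖v k‖ ≤ 2 * R
  linarith

theorem Min_comp {d m : ℕ} (B : Set (Fin m → (Fin d → ℝ))) (hB : IsCompact B) (x : Fin d → ℝ) :
    IsCompact {v | v ∈ B ∧ x ∈ convexHull ℝ (range v)} := by
  have h1 : IsCompact ((stdSimplex ℝ (Fin m) ×ˢ B) ∩
      {z : (Fin m → ℝ) × (Fin m → (Fin d → ℝ)) | ∑ i, z.1 i • z.2 i = x}) := by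
    refine ((isCompact_stdSimplex ℝ (Fin m)).prod hB).inter_right ?_
    exact isClosed_eq (by fun_prop) continuous_const
  have h2 : {v | v ∈ B ∧ x ∈ convexHull ℝ (range v)} = Prod.snd '' ((stdSimplex ℝ (Fin m) ×ˢ B) ∩
      {z : (Fin m → ℝ) × (Fin m → (Fin d → ℝ)) | ∑ i, z.1 i • z.2 i = x}) := by
    ext v
    constructor
    · rintro ⟨hv1, hv2⟩
      rw [Min_hull] at hv2
      obtain ⟨w, hw, hwx⟩ := hv2
      exact ⟨(w, v), ⟨⟨hw, hv1⟩, hwx⟩, rfl⟩
    · rintro ⟨⟨w, v'⟩, ⟨⟨hw, hv1⟩, hwx⟩, rfl⟩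
      refine ⟨hv1, ?_⟩
      rw [Min_hull]
      exact ⟨w, hw, hwx⟩
  rw [h2]
  exact h1.image continuous_snd

theorem Min_K {d m : ℕ} (B : Set (Fin m → (Fin d → ℝ))) (hB : IsCompact B)
    (D : Set (Fin d → ℝ)) : IsCompact {v | v ∈ B ∧ D ⊆ convexHull ℝ (range v)} := by
  have h1 : {v | v ∈ B ∧ D ⊆ convexHull ℝ (range v)} =
      B ∩ ⋂ x ∈ D, {v | v ∈ B ∧ x ∈ convexHull ℝ (range v)} := by
    ext v
    simp only [mem_inter_iff, mem_iInter, mem_ofPred_eq]
    constructor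
    · rintro ⟨h2, h3⟩
      exact ⟨h2, fun x hx => ⟨h2, h3 hx⟩⟩
    · rintro ⟨h2, h3⟩
      exact ⟨h2, fun x hx => (h3 x hx).2⟩
  rw [h1]
  exact hB.inter_right (isClosed_biInter fun x _ => (Min_comp B hB x).isClosed)

theorem thm_min (h1 : St_V) (h2 : St_Vdet) (_h3 : St_Dl) (h4 : St_aff) (_h5 : St_simplexbody) :
    St_min := by
  intro d _
  refine ⟨(1 / 4) ^ d / 2, by positivity, ?_⟩
  intro D T hD hT hDT hvol
  obtain ⟨hDv, hDc, hDi⟩ := hD
  obtain ⟨v₀, hv₀, rfl⟩ := hT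
  have hD0 : 0 < vol D := by
    refine ENNReal.toReal_pos (ne_of_gt ?_) hDc.measure_lt_top.ne
    exact lt_of_lt_of_le (isOpen_interior.measure_pos volume hDi) (measure_mono interior_subset)
  obtain ⟨R, hR⟩ := hDc.isBounded.exists_norm_le
  have ht0 : 0 < vol (convexHull ℝ (range v₀)) :=
    lt_of_lt_of_le hD0 (Min_volmono hDT ((finite_range v₀).isCompact_convexHull (𝕜 := ℝ)))
  obtain ⟨B, hB⟩ : ∃ B : Set (Fin (d + 1) → (Fin d → ℝ)),
    B = Set.pi univ fun _ => Metric.closedBall (0 : Fin d → ℝ) (2 * R) := ⟨_, rfl⟩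
  have hBc : IsCompact B := by
    rw [hB]
    exact isCompact_univ_pi fun _ => isCompact_closedBall _ _
  have hmem : ∀ v : Fin (d + 1) → (Fin d → ℝ), D ⊆ convexHull ℝ (range v) →
      vol (convexHull ℝ (range v)) ≤ vol (convexHull ℝ (range v₀)) →
      v ∈ {v | v ∈ B ∧ D ⊆ convexHull ℝ (range v)} := by
    intro v hv1 hv2
    refine ⟨?_, hv1⟩
    rw [hB]
    intro i _
    rw [mem_closedBall_zero_iff]
    exact Min_bound h4 d D R hR _ ht0 hvol v hv1 hv2 i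
  obtain ⟨v, hvK, hvmin⟩ := (Min_K B hBc D).exists_isMinOn ⟨v₀, hmem v₀ hDT le_rfl⟩
    (h1 d).1.continuousOn
  have hvV : ∀ v' : Fin (d + 1) → (Fin d → ℝ), V v' = vol (convexHull ℝ (range v')) :=
    fun _ => rfl
  have hDv2 := hvK.2
  have hVpos : 0 < V v := by
    rw [hvV]
    exact lt_of_lt_of_le hD0 (Min_volmono hDv2 ((finite_range v).isCompact_convexHull (𝕜 := ℝ)))
  have hdt : dt v ≠ 0 := by
    intro h
    rw [h2, h, abs_zero, mul_zero] at hVpos
    exact lt_irrefl _ hVpos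
  refine ⟨convexHull ℝ (range v), ⟨v, Min_indep v hdt, rfl⟩, hDv2, ?_⟩
  rintro T'' ⟨v'', _, rfl⟩ hDT''
  rw [← hvV, ← hvV]
  by_cases hle : vol (convexHull ℝ (range v'')) ≤ vol (convexHull ℝ (range v₀))
  · exact hvmin (hmem v'' hDT'' hle)
  · push Not at hle
    have h5 := hvmin (hmem v₀ hDT le_rfl)
    exact le_trans h5 hle.le

end

end Pool.Agent.SYL
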