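import Pool.Agent.SYL.St

/-! # Sylvester problem, F1: big homothetic copy inside `D` -/

namespace Pool.Agent.SYL

open MeasureTheory Set Pointwise

noncomputable section

theorem Near_cover {n : ℕ} (hT : Convex ℝ (T0 n)) {D : Set (Fin (n + 1) → ℝ)}
    (hD : Convex ℝ D) {s : ℝ} (hs0 : 0 ≤ s) (hs1 : s < 1) {x : Fin (n + 1) → ℝ}
    (hx : x ∈ T0 n) (hp : s • x ∉ D) :
    (1 - s) • (T0 n ∩ -T0 n) ⊆ (fun z => s • x + z) ⁻¹' (T0 n \ D) ∪
      (fun z => s • x - z) ⁻¹' (T0 n \ D) := by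
  rintro z ⟨y, ⟨hy1, hy2⟩, rfl⟩
  have hy2' : -y ∈ T0 n := hy2
  have h1 : s • x + (1 - s) • y ∈ T0 n := hT hx hy1 hs0 (by linarith) (by ring)
  have h2 : s • x - (1 - s) • y ∈ T0 n := by
    have := hT hx hy2' hs0 (b := 1 - s) (by linarith) (by ring)
    simpa [sub_eq_add_neg, smul_neg] using this
  by_cases h3 : s • x + (1 - s) • y ∈ D
  · by_cases h4 : s • x - (1 - s) • y ∈ D
    · exfalso
      apply hp
      have := hD h3 h4 (a := 1 / 2) (b := 1 / 2) (by norm_num) (by norm_num) (by norm_num)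
      convert this using 1
      module
    · exact Or.inr ⟨h2, h4⟩
  · exact Or.inl ⟨h1, h3⟩

theorem thm_near (h1 : St_T0) : St_near := by
  intro n
  obtain ⟨-, -, hTc, hTv, hTn⟩ := h1 n
  have hKn : T0 n ∩ -T0 n ∈ nhds (0 : Fin (n + 1) → ℝ) := by
    refine Filter.inter_mem hTn ?_
    have : Filter.Tendsto (fun y : Fin (n + 1) → ℝ => -y) (nhds 0) (nhds 0) := by
      have := (continuous_neg (G := Fin (n + 1) → ℝ)).tendsto 0
      rwa [neg_zero] at this
    exact this hTn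
  have hKpos : 0 < volume (T0 n ∩ -T0 n) := Measure.measure_pos_of_mem_nhds volume hKn
  have hTfin : volume (T0 n) ≠ ⊤ := hTc.measure_ne_top
  have hKfin : volume (T0 n ∩ -T0 n) ≠ ⊤ := ne_top_of_le_ne_top hTfin (measure_mono inter_subset_left)
  have hKr : 0 < vol (T0 n ∩ -T0 n) := ENNReal.toReal_pos hKpos.ne' hKfin
  refine ⟨vol (T0 n ∩ -T0 n) / 2, by positivity, ?_⟩
  intro D hD hDc hDT s hs0 hs1 hlt x hx
  by_contra hp
  have hAm : MeasurableSet (T0 n \ D) := hTc.isClosed.measurableSet.diff hDc.measurableSet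
  have hAfin : volume (T0 n \ D) ≠ ⊤ := ne_top_of_le_ne_top hTfin (measure_mono sdiff_subset)
  have hc := measure_mono (μ := volume) (Near_cover hTv hD hs0 hs1 hx hp)
  have e1 : volume ((fun z => s • x + z) ⁻¹' (T0 n \ D)) = volume (T0 n \ D) :=
    measure_preimage_add volume _ _
  have e2 : volume ((fun z => s • x - z) ⁻¹' (T0 n \ D)) = volume (T0 n \ D) :=
    (MeasureTheory.Measure.measurePreserving_sub_left volume (s • x)).measure_preimage hAm.nullMeasurableSet
  have e3 : volume ((1 - s) • (T0 n ∩ -T0 n)) =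
      ENNReal.ofReal ((1 - s) ^ (n + 1)) * volume (T0 n ∩ -T0 n) := by
    rw [Measure.addHaar_smul]
    congr 1
    rw [Module.finrank_fintype_fun_eq_card, Fintype.card_fin,
      abs_of_nonneg (pow_nonneg (by linarith) _)]
  have h5 : ENNReal.ofReal ((1 - s) ^ (n + 1)) * volume (T0 n ∩ -T0 n) ≤
      volume (T0 n \ D) + volume (T0 n \ D) := by
    rw [← e3]
    refine hc.trans ((measure_union_le _ _).trans ?_)
    rw [e1, e2]
  have h6 := ENNReal.toReal_mono (ENNReal.add_ne_top.2 ⟨hAfin, hAfin⟩) h5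
  rw [ENNReal.toReal_mul, ENNReal.toReal_ofReal (pow_nonneg (by linarith) _),
    ENNReal.toReal_add hAfin hAfin] at h6
  unfold vol at hlt
  linarith

end

end Pool.Agent.SYL
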