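import Pool.Agent.SYL.St

/-! # Sylvester problem: the normalised form (R1) -/

namespace Pool.Agent.SYL

open MeasureTheory Set

/-- the last inequality -/
theorem NormalR_num (N : ℕ) (G0 GD vT x m B c : ℝ) (hG0 : 0 < G0) (hvT : 0 < vT) (hx0 : 0 ≤ x)
    (hx1 : x < 1) (hc0 : 0 < c) (hc1 : c ≤ 1) (hB : B * x ≤ m) (hm : c * G0 ≤ m)
    (h : GD ≤ G0 * (1 - N * x) - 2 * m * x + B * x ^ 2) :
    GD / (vT * (1 - x)) ^ N ≤ G0 / vT ^ N * (1 - c * x) := by
  have h1 : 1 - (N : ℝ) * x ≤ (1 - x) ^ N := by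
    have := one_add_mul_le_pow (a := -x) (by linarith) N
    have e1 : (1 : ℝ) + (N : ℝ) * -x = 1 - N * x := by ring
    have e2 : (1 : ℝ) + -x = 1 - x := by ring
    rw [e1, e2] at this
    exact this
  have h2 : GD ≤ G0 * (1 - N * x) - c * G0 * x := by
    have : B * x ^ 2 ≤ m * x := by nlinarith
    nlinarith
  have h3 : 0 ≤ 1 - c * x := by nlinarith
  have h4 : G0 * (1 - N * x) - c * G0 * x ≤ G0 * (1 - c * x) * (1 - x) ^ N := by
    have h5 : (1 - c * x) * (1 - N * x) ≤ (1 - c * x) * (1 - x) ^ N :=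
      mul_le_mul_of_nonneg_left h1 h3
    have h6 : (1 : ℝ) - N * x - c * x ≤ (1 - c * x) * (1 - N * x) := by
      have : (0 : ℝ) ≤ c * x * (N * x) := by positivity
      nlinarith
    have h7 : G0 * (1 - N * x - c * x) ≤ G0 * ((1 - c * x) * (1 - x) ^ N) :=
      mul_le_mul_of_nonneg_left (h6.trans h5) hG0.le
    nlinarith
  have h8 : 0 < (1 - x) ^ N := pow_pos (by linarith) N
  have h9 : 0 < vT ^ N := pow_pos hvT N
  rw [mul_pow, div_le_iff₀ (mul_pos h9 h8)]
  have h10 : G0 / vT ^ N * (1 - c * x) * (vT ^ N * (1 - x) ^ N) =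
      G0 * (1 - c * x) * (1 - x) ^ N := by
    field_simp
  rw [h10]
  linarith

theorem thm_normal (hSC : St_SC) (hcone : St_cone) (hbonf : St_bonf) (hfacet : St_facet)
    (hnear : St_near) (hcent : St_centroid) (hdec : St_dec) (hvol : St_vol) (hL : St_L)
    (hT : St_T0) (hDl : St_Dl) (hphi : St_phi) (hstrict : St_phistrict) : St_normal := by
  intro n
  obtain ⟨t1, t2, t3, t4, t5⟩ := hT n
  obtain ⟨p1, p2, p3, p4, p5⟩ := hphi n
  have hD1 := hDl n
  have hD2 := hDl (n + 1)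
  obtain ⟨hv1, hv2⟩ := hvol n
  set φ := phi (T0 n) with hφ
  set v1 := vol (Dl n) with hv1d
  set v2 := vol (Dl (n + 1)) with hv2d
  set vT := vol (T0 n) with hvTd
  set G0 := G (n + 1) (T0 n) with hG0d
  have hv1pos : 0 < v1 := hD1.2.2
  have hv2pos : 0 < v2 := hD2.2.2
  have hvTpos : 0 < vT := by rw [hv2]; positivity
  set κ : ℝ := ((n : ℝ) + 3) * G0 / (((n : ℝ) + 2) * vT) with hκ
  have hn2 : (0 : ℝ) < (n : ℝ) + 2 := by positivity
  have hn1 : (0 : ℝ) < (n : ℝ) + 1 := by positivity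
  have hκv : κ * v1 ≤ ∫ y in Dl n, φ (e y) := by
    have h1 := hfacet n
    have h2 : κ * v1 = ((n : ℝ) + 3) * ((n : ℝ) + 1) * G0 / ((n : ℝ) + 2) ^ 2 := by
      rw [hκ, hv2, ← hv1]
      field_simp
    rw [h2, div_le_iff₀ (by positivity)]
    nlinarith
  obtain ⟨c, hc, hSCc⟩ := hSC n φ κ p1 p2 p4 (hstrict n) hκv
  obtain ⟨δ, hδ0, hδ1, hcn⟩ := hcone n φ κ c p1 hc hSCc
  obtain ⟨k, hk, hnr⟩ := hnear n
  -- constants
  set m : ℝ := ((n : ℝ) + 2) * c * vT / 4 with hm
  have hmpos : 0 < m := by positivity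
  set B : ℝ := ((n : ℝ) + 2) * ((n : ℝ) + 1) * vT ^ (n + 1) * vT ^ 2 with hB
  have hBpos : 0 < B := by positivity
  set ε : ℝ := min (min (k * δ ^ (n + 1) / (2 * vT)) (m / B)) (1 / 2) with hε
  have hεpos : 0 < ε := by positivity
  have hε1 : ε ≤ k * δ ^ (n + 1) / (2 * vT) := le_trans (min_le_left _ _) (min_le_left _ _)
  have hε2 : ε ≤ m / B := le_trans (min_le_left _ _) (min_le_right _ _)
  have hε3 : ε ≤ 1 / 2 := min_le_right _ _
  set c' : ℝ := min (m / G0) 1 with hc'
  have hc'pos : 0 < c' := by positivity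
  refine ⟨ε, c', hεpos, hc'pos, ?_⟩
  intro D hDconv hDcl hDsub hDne hDmin hDvol
  have hDm : MeasurableSet D := hDcl.measurableSet
  have hTm : MeasurableSet (T0 n) := t3.measurableSet
  have hTfin : volume (T0 n) ≠ ⊤ := t3.measure_lt_top.ne
  have hDfin : volume D ≠ ⊤ := (lt_of_le_of_lt (measure_mono hDsub) t3.measure_lt_top).ne
  have hvolC : vol (T0 n \ D) = vT - vol D := by
    unfold vol
    rw [measure_diff hDsub hDm.nullMeasurableSet hDfin,
      ENNReal.toReal_sub_of_le (measure_mono hDsub) hTfin]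
    rfl
  have hx0' : 0 ≤ vol (T0 n \ D) := ENNReal.toReal_nonneg
  have hCle : vol (T0 n \ D) ≤ ε * vT := by rw [hvolC]; nlinarith
  have hbig : ∀ x ∈ T0 n, (1 - δ) • x ∈ D := by
    apply hnr D hDconv hDcl hDsub (1 - δ) (by linarith) (by linarith)
    have h1 : (1 : ℝ) - (1 - δ) = δ := by ring
    rw [h1]
    have h2 : ε * vT ≤ k * δ ^ (n + 1) / 2 := by
      calc ε * vT ≤ (k * δ ^ (n + 1) / (2 * vT)) * vT := by
            apply mul_le_mul_of_nonneg_right hε1 hvTpos.le
        _ = k * δ ^ (n + 1) / 2 := by field_simp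
    have h3 : 0 < k * δ ^ (n + 1) := by positivity
    linarith
  have hLcont : ∀ j, Continuous (L n j) := fun j =>
    LinearMap.continuous_of_finiteDimensional _
  have hDnhds : D ∈ nhds (0 : Fin (n + 1) → ℝ) := by
    have h1 : (1 - δ) ≠ 0 := by linarith
    have h2 : (fun x : Fin (n + 1) → ℝ => (1 - δ)⁻¹ • x) ⁻¹' (T0 n) ∈
        nhds (0 : Fin (n + 1) → ℝ) := by
      apply ContinuousAt.preimage_mem_nhds
      · exact (continuous_const_smul _).continuousAt
      · rw [smul_zero]; exact t5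
    apply Filter.mem_of_superset h2
    intro x hx
    have := hbig _ hx
    rwa [smul_smul, mul_inv_cancel₀ h1, one_smul] at this
  have hcentr := hcent n D hDcl hDconv hDsub hDne hDmin
  -- the pieces
  have hcone' : ∀ j, c / 2 * vol (Dl (n + 1) \ (L n j ⁻¹' D)) ≤
      ∫ x in Dl (n + 1) \ (L n j ⁻¹' D), (φ x - κ) := by
    intro j
    apply hcn
    · exact hDconv.linear_preimage (L n j)
    · exact hDcl.preimage (hLcont j)
    · apply (hLcont j).continuousAt.preimage_mem_nhds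
      rw [map_zero]; exact hDnhds
    · intro x hx _
      exact ((((hL n j).2.2 x).1 (hDsub hx)).1)
    · intro x hx
      show L n j ((1 - δ) • x) ∈ D
      rw [map_smul]
      apply hbig
      rw [(hL n j).2.2]
      refine ⟨hx.2, fun i => ?_⟩
      have h1 := hx.1 i
      have h2 : 0 ≤ (1 - ∑ k, x k) / ((n : ℝ) + 2) := div_nonneg (by linarith [hx.2]) hn2.le
      linarith
    · exact hcentr j
  have hDlm : MeasurableSet (Dl (n + 1)) := hD2.1.measurableSet
  have hpiece : ∀ (g : (Fin (n + 1) → ℝ) → ℝ), Continuous g → (∀ j x, g (L n j x) = g x) →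
      ∫ x in T0 n \ D, g x = ∑ j, ∫ x in Dl (n + 1) \ (L n j ⁻¹' D), g x := by
    intro g hg hgL
    have h1 : ∫ x in T0 n \ D, g x = ∫ x in T0 n, (Dᶜ).indicator g x := by
      rw [setIntegral_indicator hDm.compl]
      rfl
    have hint : IntegrableOn ((Dᶜ).indicator g) (T0 n) := by
      apply IntegrableOn.indicator _ hDm.compl
      exact hg.continuousOn.integrableOn_compact t3
    rw [h1, (hdec n _ hint).2]
    apply Finset.sum_congr rfl
    intro j _
    have h2 : ∀ x, (Dᶜ).indicator g (L n j x) = ((L n j ⁻¹' D)ᶜ).indicator g x := by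
      intro x
      by_cases hx : L n j x ∈ D
      · rw [indicator_of_notMem (by simpa using hx), indicator_of_notMem (by simpa using hx)]
      · rw [indicator_of_mem (by simpa using hx), indicator_of_mem (by simpa using hx), hgL]
    simp only [h2]
    rw [setIntegral_indicator ((hLcont j).measurable hDm).compl]
    rfl
  have hvolpiece : vol (T0 n \ D) = ∑ j, vol (Dl (n + 1) \ (L n j ⁻¹' D)) := by
    have h1 := hpiece (fun _ => 1) continuous_const (fun _ _ => rfl)
    simp only [integral_const, smul_eq_mul, mul_one, MeasurableSet.univ,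
      measureReal_restrict_apply, univ_inter] at h1
    exact h1
  have hmain : c / 2 * vol (T0 n \ D) ≤ ∫ x in T0 n \ D, (φ x - κ) := by
    rw [hvolpiece, hpiece (fun x => φ x - κ) (p1.sub continuous_const)
      (fun j x => by rw [p3 j x]), Finset.mul_sum]
    exact Finset.sum_le_sum (fun j _ => hcone' j)
  have hCfin : volume (T0 n \ D) < ⊤ :=
    lt_of_le_of_lt (measure_mono diff_subset) t3.measure_lt_top
  have hφint : IntegrableOn φ (T0 n \ D) :=
    (p1.continuousOn.integrableOn_compact t3).mono_set diff_subset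
  have hsplit : ∫ x in T0 n \ D, (φ x - κ) = (∫ x in T0 n \ D, φ x) - κ * vol (T0 n \ D) := by
    rw [integral_sub hφint (integrableOn_const hCfin.ne)]
    congr 1
    simp only [integral_const, smul_eq_mul, MeasurableSet.univ,
      measureReal_restrict_apply, univ_inter]
    rw [mul_comm]
    rfl
  have hbf := (hbonf (n + 1) (T0 n) D t3 t4 hDm hDsub).2
  rw [← hφ, ← hG0d, ← hvTd] at hbf
  push_cast at hbf
  -- final
  set x : ℝ := vol (T0 n \ D) / vT with hx
  have hCx : vol (T0 n \ D) = vT * x := by rw [hx]; field_simp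
  have hx0 : 0 ≤ x := by positivity
  have hxε : x ≤ ε := by rw [hx, div_le_iff₀ hvTpos]; exact hCle
  have hDx : vol D = vT * (1 - x) := by
    have := hvolC
    rw [hCx] at this
    linarith
  have hκvT : ((n : ℝ) + 2) * κ * vT = ((n : ℝ) + 3) * G0 := by
    rw [hκ]; field_simp
  have hGD : G (n + 1) D ≤ G0 * (1 - ((n + 1 + 2 : ℕ) : ℝ) * x) - 2 * m * x + B * x ^ 2 := by
    rw [hCx] at hbf hmain hsplit
    have h1 : (∫ x in T0 n \ D, φ x) ≥ (κ + c / 2) * (vT * x) := by
      rw [hsplit] at hmain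
      linarith
    have h2 : G (n + 1) D ≤ G0 - ((n : ℝ) + 1 + 1) * ((κ + c / 2) * (vT * x)) +
        ((n : ℝ) + 1 + 1) * ((n : ℝ) + 1) * vT ^ (n + 1) * (vT * x) ^ 2 := by
      have h3 : ((n : ℝ) + 1 + 1) * ((κ + c / 2) * (vT * x)) ≤
          ((n : ℝ) + 1 + 1) * (∫ x in T0 n \ D, φ x) := by
        apply mul_le_mul_of_nonneg_left h1 (by positivity)
      linarith
    have h4 : ((n : ℝ) + 1 + 1) * ((κ + c / 2) * (vT * x)) =
        (((n : ℝ) + 2) * κ * vT) * x + 2 * m * x := by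
      rw [hm]; ring
    rw [h4, hκvT] at h2
    have h5 : ((n : ℝ) + 1 + 1) * ((n : ℝ) + 1) * vT ^ (n + 1) * (vT * x) ^ 2 = B * x ^ 2 := by
      rw [hB]; ring
    rw [h5] at h2
    push_cast
    nlinarith
  have hfin := NormalR_num (n + 1 + 2) G0 (G (n + 1) D) vT x m B c' p5 hvTpos hx0
    (by linarith) hc'pos (min_le_right _ _) ?_ ?_ hGD
  · have hxx : 1 - vol D / vol (T0 n) = x := by
      rw [← hvTd, hDx]; field_simp; ring
    rw [hxx]
    unfold Sylv
    rw [hDx, ← hvTd, ← hG0d]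
    have h1 : (((n + 1 : ℕ) : ℝ) + 2) / (vT * (1 - x)) ^ (n + 1 + 2) * G (n + 1) D =
        (((n + 1 : ℕ) : ℝ) + 2) * (G (n + 1) D / (vT * (1 - x)) ^ (n + 1 + 2)) := by ring
    have h2 : (((n + 1 : ℕ) : ℝ) + 2) / vT ^ (n + 1 + 2) * G0 * (1 - c' * x) =
        (((n + 1 : ℕ) : ℝ) + 2) * (G0 / vT ^ (n + 1 + 2) * (1 - c' * x)) := by ring
    rw [h1, h2]
    exact mul_le_mul_of_nonneg_left hfin (by positivity)
  · calc B * x ≤ B * (m / B) := mul_le_mul_of_nonneg_left (hxε.trans hε2) hBpos.le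
      _ = m := by field_simp
  · calc c' * G0 ≤ m / G0 * G0 := mul_le_mul_of_nonneg_right (min_le_left _ _) p5.le
      _ = m := by field_simp

end Pool.Agent.SYL
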