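import Pool.Agent.SYL.St

/-! # Sylvester problem: polar formula on the standard simplex -/

namespace Pool.Agent.SYL

open MeasureTheory Set
open scoped ENNReal

noncomputable section

theorem Polar_sum {n : ℕ} (s : ℝ) (y : Fin n → ℝ) :
    (Fin.cons (s - ∑ i, (s • y) i) (s • y) : Fin (n + 1) → ℝ) = s • e y := by
  funext i
  refine Fin.cases ?_ (fun i => ?_) i
  · simp only [Fin.cons_zero, e, Pi.smul_apply, smul_eq_mul]
    rw [mul_sub, mul_one, Finset.mul_sum]
  · simp only [Fin.cons_succ, e, Pi.smul_apply, smul_eq_mul]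

theorem Polar_mem {n : ℕ} {s : ℝ} (hs : 0 < s) (hs1 : s ≤ 1) (y : Fin n → ℝ) :
    s • e y ∈ Dl (n + 1) ↔ y ∈ Dl n := by
  have hsum : ∑ i, (s • e y) i = s := by
    rw [Fin.sum_univ_succ]
    simp only [e, Pi.smul_apply, smul_eq_mul, Fin.cons_zero, Fin.cons_succ]
    rw [← Finset.mul_sum]
    ring
  constructor
  · rintro ⟨h1, _⟩
    refine ⟨fun i => ?_, ?_⟩
    · have := h1 i.succ
      simp only [e, Pi.smul_apply, smul_eq_mul, Fin.cons_succ] at this
      exact nonneg_of_mul_nonneg_right this hs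
    · have := h1 0
      simp only [e, Pi.smul_apply, smul_eq_mul, Fin.cons_zero] at this
      have := nonneg_of_mul_nonneg_right this hs
      linarith
  · rintro ⟨h1, h2⟩
    refine ⟨fun i => ?_, by rw [hsum]; exact hs1⟩
    refine Fin.cases ?_ (fun i => ?_) i
    · simp only [e, Pi.smul_apply, smul_eq_mul, Fin.cons_zero]
      exact mul_nonneg hs.le (by linarith)
    · simp only [e, Pi.smul_apply, smul_eq_mul, Fin.cons_succ]
      exact mul_nonneg hs.le (h1 i)

theorem Polar_out {n : ℕ} {s : ℝ} (hs : s ≤ 0 ∨ 1 < s) (hs0 : s ≠ 0) (y : Fin n → ℝ) :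
    (Fin.cons (s - ∑ i, y i) y : Fin (n + 1) → ℝ) ∉ Dl (n + 1) := by
  rintro ⟨h1, h2⟩
  have hsum : ∑ i, (Fin.cons (s - ∑ i, y i) y : Fin (n + 1) → ℝ) i = s := by
    rw [Fin.sum_univ_succ]
    simp only [Fin.cons_zero, Fin.cons_succ]
    ring
  rw [hsum] at h2
  have h3 : 0 ≤ s := by
    rw [← hsum]
    exact Finset.sum_nonneg fun i _ => h1 i
  rcases hs with h | h
  · exact hs0 (le_antisymm h h3)
  · linarith

theorem Polar_meas_cons {n : ℕ} :
    Measurable (fun p : ℝ × (Fin n → ℝ) => (Fin.cons p.1 p.2 : Fin (n + 1) → ℝ)) := by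
  refine measurable_pi_iff.2 fun i => ?_
  refine Fin.cases ?_ (fun i => ?_) i
  · simp only [Fin.cons_zero]
    exact measurable_fst
  · simp only [Fin.cons_succ]
    exact (measurable_pi_apply i).comp measurable_snd

theorem Polar_meas_e {n : ℕ} :
    Measurable (fun p : ℝ × (Fin n → ℝ) => p.1 • e p.2) := by
  have h : (fun p : ℝ × (Fin n → ℝ) => p.1 • e p.2) =
      fun p => (Fin.cons (p.1 - ∑ i, (p.1 • p.2) i) (p.1 • p.2) : Fin (n + 1) → ℝ) := by
    funext p
    rw [Polar_sum]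
  rw [h]
  have h2 : Measurable (fun p : ℝ × (Fin n → ℝ) => (p.1 - ∑ i, (p.1 • p.2) i, p.1 • p.2)) := by
    refine Measurable.prodMk ?_ ?_
    · refine measurable_fst.sub (Finset.measurable_sum _ fun i _ => ?_)
      exact measurable_fst.mul ((measurable_pi_apply i).comp measurable_snd)
    · exact measurable_fst.smul measurable_snd
  exact Polar_meas_cons.comp h2

theorem Polar_scale {n : ℕ} {s : ℝ} (hs : 0 < s) (f : (Fin n → ℝ) → ℝ≥0∞) (hf : Measurable f) :
    ∫⁻ x, f x = ENNReal.ofReal (s ^ n) * ∫⁻ y, f (s • y) := by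
  have h1 : ∫⁻ y, f (s • y) = ∫⁻ x, f x ∂(Measure.map (fun y : Fin n → ℝ => s • y) volume) := by
    rw [lintegral_map hf (measurable_const_smul s)]
  rw [h1, Measure.map_addHaar_smul volume hs.ne', lintegral_smul_measure, smul_eq_mul,
    ← mul_assoc, ← ENNReal.ofReal_mul (by positivity)]
  have h2 : s ^ n * |(s ^ Module.finrank ℝ (Fin n → ℝ))⁻¹| = 1 := by
    rw [Module.finrank_fin_fun, abs_of_pos (by positivity)]
    exact mul_inv_cancel₀ (by positivity)
  rw [h2, ENNReal.ofReal_one, one_mul]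

theorem Polar_lint {n : ℕ} (hDl : MeasurableSet (Dl (n + 1))) (hDn : MeasurableSet (Dl n))
    (F : (Fin (n + 1) → ℝ) → ℝ≥0∞) (hF : Measurable F) :
    ∫⁻ x in Dl (n + 1), F x =
      ∫⁻ p in Ioc (0 : ℝ) 1 ×ˢ Dl n, ENNReal.ofReal (p.1 ^ n) * F (p.1 • e p.2) := by
  set G0 : (Fin (n + 1) → ℝ) → ℝ≥0∞ := (Dl (n + 1)).indicator F with hG0
  have hG0m : Measurable G0 := hF.indicator hDl
  have h1 : ∫⁻ x in Dl (n + 1), F x = ∫⁻ x, G0 x := by
    rw [hG0, lintegral_indicator hDl]
  have h2 : ∫⁻ x, G0 x = ∫⁻ p : ℝ × (Fin n → ℝ), G0 (Fin.cons p.1 p.2) := by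
    have hmp := (volume_preserving_piFinSuccAbove (fun _ : Fin (n + 1) => ℝ) 0).symm
    rw [← hmp.lintegral_comp hG0m]
    refine lintegral_congr fun p => ?_
    congr 1
    rw [MeasurableEquiv.piFinSuccAbove_symm_apply]
    exact Fin.insertNthEquiv_zero _ ▸ rfl
  have h3 : ∫⁻ p : ℝ × (Fin n → ℝ), G0 (Fin.cons p.1 p.2) =
      ∫⁻ y : Fin n → ℝ, ∫⁻ t : ℝ, G0 (Fin.cons t y) := by
    rw [Measure.volume_eq_prod]
    exact lintegral_prod_symm' _ (hG0m.comp Polar_meas_cons)
  have h4 : ∀ y : Fin n → ℝ, ∫⁻ t : ℝ, G0 (Fin.cons t y) =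
      ∫⁻ s : ℝ, G0 (Fin.cons (s - ∑ i, y i) y) := fun y =>
    (lintegral_sub_right_eq_self (fun t : ℝ => G0 (Fin.cons t y)) (∑ i, y i)).symm
  have hmeas : Measurable (fun p : (Fin n → ℝ) × ℝ =>
      G0 (Fin.cons (p.2 - ∑ i, p.1 i) p.1)) := by
    refine hG0m.comp (Polar_meas_cons.comp (f := fun p : (Fin n → ℝ) × ℝ =>
      (p.2 - ∑ i, p.1 i, p.1)) ?_)
    refine Measurable.prodMk (measurable_snd.sub (Finset.measurable_sum _ fun i _ => ?_))
      measurable_fst
    exact (measurable_pi_apply i).comp measurable_fst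
  have h5 : ∫⁻ y : Fin n → ℝ, ∫⁻ s : ℝ, G0 (Fin.cons (s - ∑ i, y i) y) =
      ∫⁻ s : ℝ, ∫⁻ y : Fin n → ℝ, G0 (Fin.cons (s - ∑ i, y i) y) :=
    lintegral_lintegral_swap hmeas.aemeasurable
  have h6 : ∀ s : ℝ, s ≠ 0 → ∫⁻ y : Fin n → ℝ, G0 (Fin.cons (s - ∑ i, y i) y) =
      (Ioc (0 : ℝ) 1).indicator (fun s => ∫⁻ y in Dl n,
        ENNReal.ofReal (s ^ n) * F (s • e y)) s := by
    intro s hs0
    by_cases hs : s ∈ Ioc (0 : ℝ) 1
    · rw [indicator_of_mem hs]
      have hm : Measurable (fun y : Fin n → ℝ => G0 (Fin.cons (s - ∑ i, y i) y)) :=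
        hmeas.comp (measurable_id.prodMk measurable_const)
      rw [Polar_scale hs.1 _ hm]
      rw [lintegral_const_mul' _ _ ENNReal.ofReal_ne_top]
      congr 1
      rw [← lintegral_indicator hDn]
      refine lintegral_congr fun y => ?_
      rw [Polar_sum, hG0]
      by_cases hy : y ∈ Dl n
      · rw [indicator_of_mem hy, indicator_of_mem ((Polar_mem hs.1 hs.2 y).2 hy)]
      · rw [indicator_of_notMem hy,
          indicator_of_notMem (fun h => hy ((Polar_mem hs.1 hs.2 y).1 h))]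
    · rw [indicator_of_notMem hs]
      have hs' : s ≤ 0 ∨ 1 < s := by
        by_contra hcon
        push Not at hcon
        exact hs hcon
      rw [← lintegral_zero (μ := (volume : Measure (Fin n → ℝ)))]
      refine lintegral_congr fun y => ?_
      rw [hG0, indicator_of_notMem (Polar_out hs' hs0 y)]
  have h7 : ∫⁻ s : ℝ, ∫⁻ y : Fin n → ℝ, G0 (Fin.cons (s - ∑ i, y i) y) =
      ∫⁻ s in Ioc (0 : ℝ) 1, ∫⁻ y in Dl n, ENNReal.ofReal (s ^ n) * F (s • e y) := by
    rw [← lintegral_indicator measurableSet_Ioc]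
    refine lintegral_congr_ae ?_
    have : ∀ᵐ s : ℝ, s ≠ 0 := by
      have : (volume : Measure ℝ) {0} = 0 := by simp
      exact (measure_eq_zero_iff_ae_notMem.1 this).mono fun s hs => by simpa using hs
    filter_upwards [this] with s hs
    exact h6 s hs
  have h8 : ∫⁻ p in Ioc (0 : ℝ) 1 ×ˢ Dl n, ENNReal.ofReal (p.1 ^ n) * F (p.1 • e p.2) =
      ∫⁻ s in Ioc (0 : ℝ) 1, ∫⁻ y in Dl n, ENNReal.ofReal (s ^ n) * F (s • e y) := by
    rw [Measure.volume_eq_prod, ← Measure.prod_restrict]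
    refine lintegral_prod _ ?_
    refine Measurable.aemeasurable ?_
    exact (ENNReal.measurable_ofReal.comp (measurable_fst.pow_const n)).mul
      (hF.comp Polar_meas_e)
  rw [h1, h2, h3, lintegral_congr h4, h5, h7, h8]

theorem thm_polar (h1 : St_Dl) : St_polar := by
  intro n H hH
  have hDl : MeasurableSet (Dl (n + 1)) := (h1 (n + 1)).1.measurableSet
  have hDn : MeasurableSet (Dl n) := (h1 n).1.measurableSet
  set Φ : ℝ × (Fin n → ℝ) → (Fin (n + 1) → ℝ) := fun p => p.1 • e p.2 with hΦ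
  have hΦm : Measurable Φ := Polar_meas_e
  set S : Set (ℝ × (Fin n → ℝ)) := Ioc (0 : ℝ) 1 ×ˢ Dl n with hS
  have hSm : MeasurableSet S := measurableSet_Ioc.prod hDn
  set w0 : ℝ × (Fin n → ℝ) → ℝ≥0∞ := fun p => ENNReal.ofReal (p.1 ^ n) with hw0
  have hw0m : Measurable w0 := ENNReal.measurable_ofReal.comp (measurable_fst.pow_const n)
  set ν : Measure (ℝ × (Fin n → ℝ)) := (volume.restrict S).withDensity w0 with hν
  have hmap : Measure.map Φ ν = volume.restrict (Dl (n + 1)) := by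
    refine Measure.ext fun A hA => ?_
    rw [Measure.map_apply hΦm hA, hν, withDensity_apply _ (hΦm hA)]
    have e1 : (volume.restrict (Dl (n + 1))) A = ∫⁻ x in Dl (n + 1), A.indicator 1 x := by
      rw [lintegral_indicator_one hA]
    rw [e1, Polar_lint hDl hDn (A.indicator 1) (measurable_one.indicator hA),
      ← lintegral_indicator (hΦm hA)]
    refine lintegral_congr fun p => ?_
    by_cases hp : p ∈ Φ ⁻¹' A
    · rw [indicator_of_mem hp]
      have : p.1 • e p.2 ∈ A := hp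
      rw [indicator_of_mem this]
      simp [hw0]
    · rw [indicator_of_notMem hp]
      have : p.1 • e p.2 ∉ A := hp
      rw [indicator_of_notMem this]
      simp
  have hlt : ∀ᵐ p ∂(volume.restrict S), w0 p < ∞ :=
    Filter.Eventually.of_forall fun p => ENNReal.ofReal_lt_top
  have hcongr : ∀ᵐ p ∂(volume.restrict S),
      (w0 p).toReal • H (Φ p) = p.1 ^ n * H (p.1 • e p.2) := by
    filter_upwards [ae_restrict_mem hSm] with p hp
    have hp1 : 0 < p.1 := hp.1.1
    rw [hw0]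
    simp only [smul_eq_mul]
    rw [ENNReal.toReal_ofReal (pow_nonneg hp1.le n)]
  have hHm : AEStronglyMeasurable H (Measure.map Φ ν) := by
    rw [hmap]
    exact hH.aestronglyMeasurable
  constructor
  · have hI : Integrable (H ∘ Φ) ν := by
      rw [← integrable_map_measure hHm hΦm.aemeasurable, hmap]
      exact hH
    rw [hν, integrable_withDensity_iff_integrable_smul' hw0m hlt] at hI
    exact hI.congr hcongr
  · rw [← hmap, integral_map hΦm.aemeasurable hHm, hν,
      integral_withDensity_eq_integral_toReal_smul hw0m hlt]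
    exact integral_congr_ae hcongr

end

end Pool.Agent.SYL
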