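import Pool.Agent.SYL.St

/-! # Simplices are bodies -/

namespace Pool.Agent.SYL

open MeasureTheory Set

theorem thm_simplexbody (_h1 : St_hull) (_h2 : St_Vdet) (_h3 : St_Dl) : St_simplexbody := by
  rintro d T ⟨v, hv, rfl⟩
  have hc : IsCompact (convexHull ℝ (range v)) := (Set.finite_range v).isCompact_convexHull (𝕜 := ℝ)
  have hi : (interior (convexHull ℝ (range v))).Nonempty := by
    rw [interior_convexHull_nonempty_iff_affineSpan_eq_top,
      hv.affineSpan_eq_top_iff_card_eq_finrank_add_one]
    simp
  refine ⟨⟨convex_convexHull ℝ _, hc, hi⟩, ?_⟩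
  unfold vol
  refine ENNReal.toReal_pos ?_ hc.measure_lt_top.ne
  exact (Measure.measure_pos_of_nonempty_interior volume hi).ne'

end Pool.Agent.SYL
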