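import Pool.Agent.SYL.St

/-! # SYL: the strict covariance inequality (C6) -/

namespace Pool.Agent.SYL

open MeasureTheory Set

noncomputable section

theorem sc_e_cont (n : ℕ) : Continuous (fun y : Fin n → ℝ => (e y : Fin (n + 1) → ℝ)) := by
  apply continuous_pi
  intro i
  refine Fin.cases ?_ (fun j => ?_) i
  · simp only [e, Fin.cons_zero]
    fun_prop
  · simp only [e, Fin.cons_succ]
    fun_prop

theorem sc_e_mem {n : ℕ} {y : Fin n → ℝ} (hy : y ∈ Dl n) :
    (e y : Fin (n + 1) → ℝ) ∈ stdSimplex ℝ (Fin (n + 1)) := by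
  refine ⟨fun i => ?_, ?_⟩
  · refine Fin.cases ?_ (fun j => ?_) i
    · simp only [e, Fin.cons_zero]
      linarith [hy.2]
    · simp only [e, Fin.cons_succ]
      exact hy.1 j
  · rw [Fin.sum_univ_succ]
    simp [e]

theorem sc_integrable (h4 : St_Dl) (n : ℕ) (f : (Fin (n + 1) → ℝ) → ℝ) (hf : Continuous f) :
    IntegrableOn (fun y => f (e y)) (Dl n) :=
  (hf.comp (sc_e_cont n)).continuousOn.integrableOn_compact (h4 n).1

theorem sc_e_center (n : ℕ) :
    (e (fun _ : Fin n => 1 / ((n : ℝ) + 1)) : Fin (n + 1) → ℝ) = gS n := by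
  funext i
  have hn : (n : ℝ) + 1 ≠ 0 := by positivity
  refine Fin.cases ?_ (fun j => ?_) i
  · simp only [e, gS, Fin.cons_zero, Finset.sum_const, Finset.card_univ, Fintype.card_fin,
      nsmul_eq_mul]
    field_simp
    ring
  · simp only [e, gS, Fin.cons_succ]

theorem sc_pos (h4 : St_Dl) (n : ℕ) (g : (Fin (n + 1) → ℝ) → ℝ) (hg : Continuous g)
    (h0 : ∀ p, 0 ≤ g p) (hp : 0 < g (gS n)) : 0 < ∫ y in Dl n, g (e y) := by
  have hint := sc_integrable h4 n g hg
  rw [setIntegral_pos_iff_support_of_nonneg_ae (Filter.Eventually.of_forall fun y => h0 _) hint]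
  have hopen : IsOpen ({y : Fin n → ℝ | 0 < g (e y)} ∩
      ({y | ∀ i, 0 < y i} ∩ {y | ∑ i, y i < 1})) := by
    refine IsOpen.inter ?_ (IsOpen.inter ?_ ?_)
    · exact isOpen_lt continuous_const (hg.comp (sc_e_cont n))
    · have : {y : Fin n → ℝ | ∀ i, 0 < y i} = ⋂ i, {y | 0 < y i} := by
        ext y; simp
      rw [this]
      exact isOpen_iInter_of_finite fun i => isOpen_lt continuous_const (continuous_apply i)
    · exact isOpen_lt (continuous_finsetSum _ fun i _ => continuous_apply i) continuous_const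
  have hne : ({y : Fin n → ℝ | 0 < g (e y)} ∩
      ({y | ∀ i, 0 < y i} ∩ {y | ∑ i, y i < 1})).Nonempty := by
    refine ⟨fun _ => 1 / ((n : ℝ) + 1), ?_, fun i => ?_, ?_⟩
    · show 0 < g (e (fun _ : Fin n => 1 / ((n : ℝ) + 1)))
      rw [sc_e_center]
      exact hp
    · show (0 : ℝ) < 1 / ((n : ℝ) + 1)
      positivity
    · show ∑ _i : Fin n, 1 / ((n : ℝ) + 1) < 1
      rw [Finset.sum_const, Finset.card_univ, Fintype.card_fin, nsmul_eq_mul, mul_one_div,
        div_lt_one (by positivity)]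
      linarith
  refine lt_of_lt_of_le (hopen.measure_pos volume hne) (measure_mono ?_)
  rintro y ⟨h1, h2, h3⟩
  exact ⟨(ne_of_gt h1), fun i => (h2 i).le, h3.le⟩

/-- C6 -/
theorem thm_SC (h1 : St_cov) (h2 : St_int) (h3 : St_sub) (h4 : St_Dl) : St_SC := by
  intro n ψ κ hψ hψc hψs hstr hκ
  have hv : 0 < vol (Dl n) := (h4 n).2.2
  obtain ⟨τ, hτ, hsub⟩ := h3 n ψ hψ hstr (1 / 2 ^ (n + 2)) (by positivity)
  have hg : Continuous (fun p => max (τ - ψ p) 0) := (continuous_const.sub hψ).max continuous_const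
  have hI := sc_pos h4 n (fun p => max (τ - ψ p) 0) hg (fun p => le_max_right _ _)
    (lt_max_of_lt_left (by linarith))
  set Ig : ℝ := ∫ y in Dl n, max (τ - ψ (e y)) 0 with hIg
  refine ⟨Ig / (2 * vol (Dl n)), by positivity, ?_⟩
  intro u hu huc hu0 hug
  have hIu : 0 ≤ ∫ y in Dl n, u (e y) :=
    setIntegral_nonneg (h4 n).1.measurableSet fun y hy => hu0 _ (sc_e_mem hy)
  -- the pointwise bound where `g` is positive
  have hpt : ∀ y ∈ Dl n, vol (Dl n) * (u (e y) * max (τ - ψ (e y)) 0) ≤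
      (1 / 2 * ∫ y in Dl n, u (e y)) * max (τ - ψ (e y)) 0 := by
    intro y hy
    rcases le_or_gt τ (ψ (e y)) with hle | hlt
    · rw [max_eq_right (by linarith)]
      simp
    · obtain ⟨q, hq, s, hs0, hs1, hp⟩ := hsub (e y) (sc_e_mem hy) hlt
      have hr : (1 : ℝ) / 2 ^ (n + 2) ≤ 1 / 2 := by
        apply one_div_le_one_div_of_le (by norm_num)
        calc (2 : ℝ) = 2 ^ 1 := by norm_num
          _ ≤ 2 ^ (n + 2) := pow_le_pow_right₀ (by norm_num) (by omega)
      have hcomb : (e y : Fin (n + 1) → ℝ) =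
          (1 - 2 * s) • gS n + (2 * s) • ((1 / 2 : ℝ) • (q + gS n)) := by
        rw [hp]
        funext i
        simp only [Pi.add_apply, Pi.smul_apply, Pi.sub_apply, smul_eq_mul]
        ring
      have hmid : (1 / 2 : ℝ) • (q + gS n) ∈ stdSimplex ℝ (Fin (n + 1)) := by
        refine ⟨fun i => ?_, ?_⟩
        · simp only [Pi.add_apply, Pi.smul_apply, smul_eq_mul, gS]
          have := hq.1 i
          positivity
        · simp only [Pi.add_apply, Pi.smul_apply, smul_eq_mul, gS]
          rw [← Finset.mul_sum, Finset.sum_add_distrib, hq.2, Finset.sum_const, Finset.card_univ,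
            Fintype.card_fin, nsmul_eq_mul]
          push_cast
          have : (n : ℝ) + 1 ≠ 0 := by positivity
          field_simp
          norm_num
      have hu1 : u (e y) ≤ 2 * s * u ((1 / 2 : ℝ) • (q + gS n)) := by
        rw [hcomb]
        have := huc.2 (mem_univ (gS n)) (mem_univ ((1 / 2 : ℝ) • (q + gS n)))
          (show (0 : ℝ) ≤ 1 - 2 * s by linarith) (show (0 : ℝ) ≤ 2 * s by linarith) (by ring)
        rw [hug] at this
        simpa using this
      have hu2 := h2 n u hu huc hu0 q hq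
      have hum : 0 ≤ u ((1 / 2 : ℝ) • (q + gS n)) := hu0 _ hmid
      have hkey : vol (Dl n) * u (e y) ≤ 1 / 2 * ∫ y in Dl n, u (e y) := by
        calc vol (Dl n) * u (e y)
            ≤ vol (Dl n) * (2 * s * u ((1 / 2 : ℝ) • (q + gS n))) :=
              mul_le_mul_of_nonneg_left hu1 hv.le
          _ = 2 * s * (vol (Dl n) * u ((1 / 2 : ℝ) • (q + gS n))) := by ring
          _ ≤ 2 * (1 / 2 ^ (n + 2)) * (vol (Dl n) * u ((1 / 2 : ℝ) • (q + gS n))) := by
              apply mul_le_mul_of_nonneg_right _ (by positivity)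
              linarith
          _ ≤ 2 * (1 / 2 ^ (n + 2)) * (2 ^ n * ∫ y in Dl n, u (e y)) :=
              mul_le_mul_of_nonneg_left hu2 (by positivity)
          _ = 1 / 2 * ∫ y in Dl n, u (e y) := by
              rw [pow_add]
              field_simp
      calc vol (Dl n) * (u (e y) * max (τ - ψ (e y)) 0)
          = (vol (Dl n) * u (e y)) * max (τ - ψ (e y)) 0 := by ring
        _ ≤ _ := mul_le_mul_of_nonneg_right hkey (le_max_right _ _)
  -- integrated
  have huI := sc_integrable h4 n u hu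
  have hψI := sc_integrable h4 n ψ hψ
  have hgI := sc_integrable h4 n _ hg
  have hugI := sc_integrable h4 n (fun p => u p * max (τ - ψ p) 0) (hu.mul hg)
  have huψI := sc_integrable h4 n (fun p => u p * ψ p) (hu.mul hψ)
  have hmax : Continuous (fun p => max (ψ p) τ) := hψ.max continuous_const
  have humI := sc_integrable h4 n (fun p => max (ψ p) τ * u p) (hmax.mul hu)
  have hug2 : vol (Dl n) * ∫ y in Dl n, u (e y) * max (τ - ψ (e y)) 0 ≤
      (1 / 2 * ∫ y in Dl n, u (e y)) * Ig := by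
    rw [hIg, ← integral_const_mul, ← integral_const_mul]
    exact setIntegral_mono_on (hugI.const_mul _) (hgI.const_mul _) (h4 n).1.measurableSet hpt
  have hcov := h1 n (fun p => max (ψ p) τ) u hmax hu
    (ConvexOn.sup hψc (convexOn_const τ convex_univ)) huc
    (fun σ x => by show max (ψ (x ∘ σ)) τ = max (ψ x) τ; rw [hψs])
  have hid : ∀ y : Fin n → ℝ, max (ψ (e y)) τ = ψ (e y) + max (τ - ψ (e y)) 0 := by
    intro y
    rcases le_total (ψ (e y)) τ with h | h
    · rw [max_eq_right h, max_eq_left (by linarith)]; ring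
    · rw [max_eq_left h, max_eq_right (by linarith)]; ring
  have e1 : ∫ y in Dl n, max (ψ (e y)) τ = (∫ y in Dl n, ψ (e y)) + Ig := by
    rw [hIg, ← integral_add hψI hgI]
    exact integral_congr_ae (Filter.Eventually.of_forall fun y => hid y)
  have e2 : ∫ y in Dl n, max (ψ (e y)) τ * u (e y) =
      (∫ y in Dl n, u (e y) * ψ (e y)) + ∫ y in Dl n, u (e y) * max (τ - ψ (e y)) 0 := by
    rw [← integral_add huψI hugI]
    refine integral_congr_ae (Filter.Eventually.of_forall fun y => ?_)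
    show max (ψ (e y)) τ * u (e y) = u (e y) * ψ (e y) + u (e y) * max (τ - ψ (e y)) 0
    rw [hid y]; ring
  rw [e1, e2] at hcov
  have e3 : ∫ y in Dl n, u (e y) * (ψ (e y) - κ) =
      (∫ y in Dl n, u (e y) * ψ (e y)) - κ * ∫ y in Dl n, u (e y) := by
    rw [← integral_const_mul, ← integral_sub huψI (huI.const_mul κ)]
    refine integral_congr_ae (Filter.Eventually.of_forall fun y => ?_)
    show u (e y) * (ψ (e y) - κ) = u (e y) * ψ (e y) - κ * u (e y)
    ring
  rw [e3]
  set U : ℝ := ∫ y in Dl n, u (e y) with hU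
  set P : ℝ := ∫ y in Dl n, ψ (e y) with hP
  set A : ℝ := ∫ y in Dl n, u (e y) * ψ (e y) with hA
  set B : ℝ := ∫ y in Dl n, u (e y) * max (τ - ψ (e y)) 0 with hB
  -- v A ≥ U P + (1/2) U Ig
  have hfin : vol (Dl n) * (Ig / (2 * vol (Dl n)) * U) ≤ vol (Dl n) * (A - κ * U) := by
    have e4 : vol (Dl n) * (Ig / (2 * vol (Dl n)) * U) = 1 / 2 * U * Ig := by
      field_simp
    rw [e4]
    have e5 : κ * vol (Dl n) * U ≤ P * U := mul_le_mul_of_nonneg_right hκ hIu
    nlinarith [hcov, hug2, e5]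
  exact le_of_mul_le_mul_left hfin hv

end

end Pool.Agent.SYL
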