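import Pool.Agent.SYL.St

set_option autoImplicit false

/-! # SYL Sub: sublevel sets near the strict minimum -/

namespace Pool.Agent.SYL

open MeasureTheory Set

theorem thm_sub : St_sub := by
  intro n ψ hψ hmin r hr
  have hn : (0 : ℝ) < (n : ℝ) + 1 := by positivity
  obtain ⟨r', hr', hr1, hr0⟩ : ∃ r' : ℝ, r' ≤ r ∧ r' ≤ 1 ∧ 0 < r' :=
    ⟨min r 1, min_le_left _ _, min_le_right _ _, lt_min hr one_pos⟩
  have hB : IsCompact (stdSimplex ℝ (Fin (n + 1)) ∩
      ⋃ i : Fin (n + 1), {p : Fin (n + 1) → ℝ | ((n : ℝ) + 1) * p i ≤ 1 - r'}) := by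
    refine (isCompact_stdSimplex ℝ (Fin (n + 1))).inter_right ?_
    refine isClosed_iUnion_of_finite fun i => ?_
    exact isClosed_le (by fun_prop) continuous_const
  have hgood : ∀ p ∈ stdSimplex ℝ (Fin (n + 1)),
      p ∉ stdSimplex ℝ (Fin (n + 1)) ∩
        ⋃ i : Fin (n + 1), {p : Fin (n + 1) → ℝ | ((n : ℝ) + 1) * p i ≤ 1 - r'} →
      ∃ q ∈ stdSimplex ℝ (Fin (n + 1)), ∃ s : ℝ, 0 ≤ s ∧ s ≤ r ∧ p = gS n + s • (q - gS n) := by
    intro p hp hpB
    have h1 : ∀ i, 1 - r' < ((n : ℝ) + 1) * p i := by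
      intro i
      by_contra hcon
      push Not at hcon
      exact hpB ⟨hp, mem_iUnion.2 ⟨i, hcon⟩⟩
    refine ⟨fun i => gS n i + (p i - gS n i) / r', ⟨fun i => ?_, ?_⟩, r', hr0.le, hr', ?_⟩
    · have h2 : gS n i = 1 / ((n : ℝ) + 1) := rfl
      change 0 ≤ gS n i + (p i - gS n i) / r'
      rw [h2]
      have h3 : 1 / ((n : ℝ) + 1) + (p i - 1 / ((n : ℝ) + 1)) / r' =
          (((n : ℝ) + 1) * p i - (1 - r')) / (((n : ℝ) + 1) * r') := by
        field_simp
        ring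
      rw [h3]
      exact div_nonneg (by linarith [h1 i]) (by positivity)
    · have h2 : ∑ i, gS n i = 1 := by
        unfold gS
        rw [Finset.sum_const, Finset.card_univ, Fintype.card_fin, nsmul_eq_mul]
        push_cast
        field_simp
      rw [Finset.sum_add_distrib, ← Finset.sum_div, Finset.sum_sub_distrib, h2, hp.2]
      simp
    · funext i
      change p i = gS n i + r' * ((gS n i + (p i - gS n i) / r') - gS n i)
      field_simp
      ring
  rcases (stdSimplex ℝ (Fin (n + 1)) ∩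
      ⋃ i : Fin (n + 1), {p : Fin (n + 1) → ℝ | ((n : ℝ) + 1) * p i ≤ 1 - r'}).eq_empty_or_nonempty
    with he | hne
  · refine ⟨ψ (gS n) + 1, by linarith, fun p hp _ => hgood p hp ?_⟩
    rw [he]
    exact notMem_empty p
  · obtain ⟨p0, hp0, hle⟩ := hB.exists_isMinOn hne hψ.continuousOn
    refine ⟨ψ p0, hmin p0 hp0.1 ?_, fun p hp hlt => hgood p hp fun hpB => ?_⟩
    · rintro rfl
      obtain ⟨i, hi⟩ := mem_iUnion.1 hp0.2
      have h2 : ((n : ℝ) + 1) * gS n i = 1 := by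
        unfold gS
        field_simp
      have h3 : ((n : ℝ) + 1) * gS n i ≤ 1 - r' := hi
      rw [h2] at h3
      linarith
    · have h2 := hle hpB
      exact absurd hlt (not_lt.2 h2)

end Pool.Agent.SYL
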