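import Pool.Agent.SYL.St

/-! # C1: the facet mean is invariant under permutations of the coordinates -/

namespace Pool.Agent.SYL

open MeasureTheory Set

noncomputable section

/-- linear part of the chart `e` -/
def Sym_e0 (n : ℕ) : (Fin n → ℝ) →ₗ[ℝ] (Fin (n + 1) → ℝ) where
  toFun y := (Fin.cons (-∑ i, y i) y : Fin (n + 1) → ℝ)
  map_add' x y := by
    funext j
    refine Fin.cases ?_ ?_ j
    · simp [Finset.sum_add_distrib]; ring
    · intro i; simp
  map_smul' c x := by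
    funext j
    refine Fin.cases ?_ ?_ j
    · simp [Finset.mul_sum]
    · intro i; simp

theorem Sym_e0_zero (n : ℕ) (y : Fin n → ℝ) : Sym_e0 n y 0 = -∑ i, y i := rfl

theorem Sym_e0_succ (n : ℕ) (y : Fin n → ℝ) (i : Fin n) : Sym_e0 n y i.succ = y i := rfl

theorem Sym_e_zero (n : ℕ) (y : Fin n → ℝ) : e y 0 = 1 - ∑ i, y i := rfl

theorem Sym_e_succ (n : ℕ) (y : Fin n → ℝ) (i : Fin n) : e y i.succ = y i := rfl

theorem Sym_e0_sum (n : ℕ) (y : Fin n → ℝ) : ∑ j, Sym_e0 n y j = 0 := by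
  rw [Fin.sum_univ_succ]
  simp only [Sym_e0_zero, Sym_e0_succ]
  ring

theorem Sym_e_sum (n : ℕ) (y : Fin n → ℝ) : ∑ j, e y j = 1 := by
  rw [Fin.sum_univ_succ]
  simp only [Sym_e_zero, Sym_e_succ]
  ring

theorem Sym_e0_rec (n : ℕ) (z : Fin (n + 1) → ℝ) (hz : ∑ j, z j = 0) :
    Sym_e0 n (fun i => z i.succ) = z := by
  rw [Fin.sum_univ_succ] at hz
  funext j
  refine Fin.cases ?_ ?_ j
  · rw [Sym_e0_zero]; linarith
  · intro i; rfl

theorem Sym_e_rec (n : ℕ) (z : Fin (n + 1) → ℝ) (hz : ∑ j, z j = 1) :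
    e (fun i => z i.succ) = z := by
  rw [Fin.sum_univ_succ] at hz
  funext j
  refine Fin.cases ?_ ?_ j
  · rw [Sym_e_zero]; linarith
  · intro i; rfl

/-- linear part of the map of the chart which corresponds to `σ` -/
def Sym_A (n : ℕ) (σ : Equiv.Perm (Fin (n + 1))) : (Fin n → ℝ) →ₗ[ℝ] (Fin n → ℝ) where
  toFun y := fun i => Sym_e0 n y (σ i.succ)
  map_add' x y := by funext i; simp
  map_smul' c x := by funext i; simp

theorem Sym_A_apply (n : ℕ) (σ : Equiv.Perm (Fin (n + 1))) (y : Fin n → ℝ) (i : Fin n) :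
    Sym_A n σ y i = Sym_e0 n y (σ i.succ) := rfl

theorem Sym_e0_A (n : ℕ) (σ : Equiv.Perm (Fin (n + 1))) (y : Fin n → ℝ) :
    Sym_e0 n (Sym_A n σ y) = Sym_e0 n y ∘ σ := by
  apply Sym_e0_rec n (Sym_e0 n y ∘ σ)
  rw [← Sym_e0_sum n y]
  exact Equiv.sum_comp σ (fun j => Sym_e0 n y j)

theorem Sym_A_mul (n : ℕ) (σ τ : Equiv.Perm (Fin (n + 1))) :
    (Sym_A n σ).comp (Sym_A n τ) = Sym_A n (τ * σ) := by
  apply LinearMap.ext
  intro y
  funext i
  rw [LinearMap.comp_apply, Sym_A_apply, Sym_e0_A, Sym_A_apply]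
  rfl

theorem Sym_A_one (n : ℕ) : Sym_A n 1 = LinearMap.id := by
  apply LinearMap.ext
  intro y
  funext i
  rfl

theorem Sym_det (n : ℕ) (σ : Equiv.Perm (Fin (n + 1))) : |LinearMap.det (Sym_A n σ)| = 1 := by
  have h1 : ∀ k : ℕ, LinearMap.det (Sym_A n (σ ^ k)) = LinearMap.det (Sym_A n σ) ^ k := by
    intro k
    induction k with
    | zero => rw [pow_zero, pow_zero, Sym_A_one, LinearMap.det_id]
    | succ k ih =>
      rw [pow_succ, ← Sym_A_mul, LinearMap.det_comp, ih, pow_succ]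
      ring
  have h2 := h1 (orderOf σ)
  rw [pow_orderOf_eq_one, Sym_A_one, LinearMap.det_id] at h2
  have h3 : |LinearMap.det (Sym_A n σ)| ^ orderOf σ = 1 := by
    rw [← abs_pow, ← h2, abs_one]
  exact (pow_eq_one_iff_of_nonneg (abs_nonneg _) (orderOf_pos σ).ne').1 h3

/-- the map of the chart which corresponds to `σ` -/
def Sym_T (n : ℕ) (σ : Equiv.Perm (Fin (n + 1))) (y : Fin n → ℝ) : Fin n → ℝ :=
  fun i => e y (σ i.succ)

theorem Sym_e_T (n : ℕ) (σ : Equiv.Perm (Fin (n + 1))) (y : Fin n → ℝ) :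
    e (Sym_T n σ y) = e y ∘ σ := by
  apply Sym_e_rec n (e y ∘ σ)
  rw [← Sym_e_sum n y]
  exact Equiv.sum_comp σ (fun j => e y j)

theorem Sym_T_T (n : ℕ) (σ τ : Equiv.Perm (Fin (n + 1))) (y : Fin n → ℝ) :
    Sym_T n σ (Sym_T n τ y) = Sym_T n (τ * σ) y := by
  funext i
  show e (Sym_T n τ y) (σ i.succ) = e y ((τ * σ) i.succ)
  rw [Sym_e_T]
  rfl

theorem Sym_T_one (n : ℕ) (y : Fin n → ℝ) : Sym_T n 1 y = y := rfl

theorem Sym_T_eq (n : ℕ) (σ : Equiv.Perm (Fin (n + 1))) (y : Fin n → ℝ) :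
    Sym_T n σ y = Sym_A n σ y + fun i => (Pi.single 0 (1 : ℝ) : Fin (n + 1) → ℝ) (σ i.succ) := by
  have h1 : e y = Sym_e0 n y + (Pi.single 0 (1 : ℝ) : Fin (n + 1) → ℝ) := by
    funext j
    refine Fin.cases ?_ ?_ j
    · rw [Sym_e_zero, Pi.add_apply, Sym_e0_zero, Pi.single_eq_same]; ring
    · intro i
      rw [Sym_e_succ, Pi.add_apply, Sym_e0_succ, Pi.single_eq_of_ne (Fin.succ_ne_zero i), add_zero]
  funext i
  show e y (σ i.succ) = _
  rw [h1]
  rfl

theorem Sym_cont (n : ℕ) (σ : Equiv.Perm (Fin (n + 1))) : Continuous (Sym_T n σ) := by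
  have h : Sym_T n σ = fun y => Sym_A n σ y +
      fun i => (Pi.single 0 (1 : ℝ) : Fin (n + 1) → ℝ) (σ i.succ) := by
    funext y; exact Sym_T_eq n σ y
  rw [h]
  exact (LinearMap.continuous_of_finiteDimensional (Sym_A n σ)).add continuous_const

theorem Sym_mp (n : ℕ) (σ : Equiv.Perm (Fin (n + 1))) :
    MeasurePreserving (Sym_T n σ) volume volume := by
  have h1 : MeasurePreserving (Sym_A n σ) volume volume := by
    refine ⟨(LinearMap.continuous_of_finiteDimensional (Sym_A n σ)).measurable, ?_⟩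
    have hd : LinearMap.det (Sym_A n σ) ≠ 0 := by
      intro h
      have := Sym_det n σ
      rw [h, abs_zero] at this
      exact zero_ne_one this
    rw [Measure.map_linearMap_addHaar_eq_smul_addHaar _ hd]
    rw [abs_inv, Sym_det, inv_one, ENNReal.ofReal_one, one_smul]
  have h2 := measurePreserving_add_right (volume : Measure (Fin n → ℝ))
    (fun i => (Pi.single 0 (1 : ℝ) : Fin (n + 1) → ℝ) (σ i.succ))
  have h3 := h2.comp h1
  have h : Sym_T n σ = (fun x => x + fun i => (Pi.single 0 (1 : ℝ) : Fin (n + 1) → ℝ) (σ i.succ)) ∘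
      (Sym_A n σ) := by
    funext y; exact Sym_T_eq n σ y
  rw [h]
  exact h3

/-- the map of the chart as a measurable equivalence -/
def Sym_equiv (n : ℕ) (σ : Equiv.Perm (Fin (n + 1))) : (Fin n → ℝ) ≃ᵐ (Fin n → ℝ) where
  toFun := Sym_T n σ
  invFun := Sym_T n σ⁻¹
  left_inv y := by rw [Sym_T_T, mul_inv_cancel, Sym_T_one]
  right_inv y := by rw [Sym_T_T, inv_mul_cancel, Sym_T_one]
  measurable_toFun := (Sym_cont n σ).measurable
  measurable_invFun := (Sym_cont n σ⁻¹).measurable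

theorem Sym_Dl_iff (n : ℕ) (y : Fin n → ℝ) : y ∈ Dl n ↔ ∀ j, 0 ≤ e y j := by
  constructor
  · rintro ⟨h1, h2⟩ j
    refine Fin.cases ?_ ?_ j
    · rw [Sym_e_zero]; linarith
    · intro i; exact h1 i
  · intro h
    refine ⟨fun i => h i.succ, ?_⟩
    have := h 0
    rw [Sym_e_zero] at this
    linarith

theorem Sym_pre (n : ℕ) (σ : Equiv.Perm (Fin (n + 1))) : Sym_T n σ ⁻¹' Dl n = Dl n := by
  ext y
  rw [mem_preimage, Sym_Dl_iff, Sym_Dl_iff, Sym_e_T]
  constructor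
  · intro h j
    have := h (σ⁻¹ j)
    simpa using this
  · intro h j
    exact h (σ j)

theorem thm_sym : St_sym := by
  intro n f _ σ
  have h := (Sym_mp n σ).setIntegral_preimage_emb (Sym_equiv n σ).measurableEmbedding
    (fun y => f (e y)) (Dl n)
  rw [Sym_pre] at h
  rw [← h]
  simp only [Sym_e_T]

end

end Pool.Agent.SYL
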