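import Pool.Agent.SYL.St

/-! # Sylvester problem, volume recursion (module Vol) -/

namespace Pool.Agent.SYL

open MeasureTheory Set

noncomputable section

private theorem Vol_one {d : ℕ} (D : Set (Fin d → ℝ)) : ∫ _ in D, (1 : ℝ) = vol D := by
  simp [vol, Measure.real]

private theorem Vol_pow (n : ℕ) : ∫ s in Ioc (0 : ℝ) 1, s ^ n = 1 / ((n : ℝ) + 1) := by
  rw [← intervalIntegral.integral_of_le (zero_le_one), integral_pow]
  simp

theorem thm_vol (h1 : St_polar) (h2 : St_dec) (h3 : St_Dl) (h4 : St_T0) : St_vol := by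
  intro n
  obtain ⟨hc1, -, -⟩ := h3 (n + 1)
  obtain ⟨-, -, hcT, -, -⟩ := h4 n
  constructor
  · have hI : IntegrableOn (fun _ : Fin (n + 1) → ℝ => (1 : ℝ)) (Dl (n + 1)) :=
      integrableOn_const hc1.measure_lt_top.ne
    have h := (h1 n (fun _ => 1) hI).2
    rw [Vol_one, Measure.volume_eq_prod] at h
    have hp := setIntegral_prod_mul (μ := (volume : Measure ℝ))
      (ν := (volume : Measure (Fin n → ℝ)))
      (fun s : ℝ => s ^ n) (fun _ : Fin n → ℝ => (1 : ℝ)) (Ioc 0 1) (Dl n)
    rw [hp, Vol_one, Vol_pow] at h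
    rw [h]
    field_simp
  · have hI : IntegrableOn (fun _ : Fin (n + 1) → ℝ => (1 : ℝ)) (T0 n) :=
      integrableOn_const hcT.measure_lt_top.ne
    have h := (h2 n (fun _ => 1) hI).2
    rw [Vol_one] at h
    rw [h]
    simp only [Vol_one, Finset.sum_const, Finset.card_univ, Fintype.card_fin, nsmul_eq_mul]
    push_cast
    ring

end

end Pool.Agent.SYL
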