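import Pool.Agent.SYL.Dl
import Pool.Agent.SYL.Hull
import Pool.Agent.SYL.Vdet
import Pool.Agent.SYL.VProp
import Pool.Agent.SYL.Aff
import Pool.Agent.SYL.T0
import Pool.Agent.SYL.Norm
import Pool.Agent.SYL.Lsw
import Pool.Agent.SYL.Dec
import Pool.Agent.SYL.Phi
import Pool.Agent.SYL.Phis
import Pool.Agent.SYL.Polar
import Pool.Agent.SYL.Vol
import Pool.Agent.SYL.Sym
import Pool.Agent.SYL.Cov1
import Pool.Agent.SYL.Cov
import Pool.Agent.SYL.Int
import Pool.Agent.SYL.Sub
import Pool.Agent.SYL.SC
import Pool.Agent.SYL.Gauge
import Pool.Agent.SYL.Omega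
import Pool.Agent.SYL.Cone
import Pool.Agent.SYL.Bonf
import Pool.Agent.SYL.Facet
import Pool.Agent.SYL.Near
import Pool.Agent.SYL.Min
import Pool.Agent.SYL.Cent0
import Pool.Agent.SYL.Cent
import Pool.Agent.SYL.Eqvol
import Pool.Agent.SYL.SBody
import Pool.Agent.SYL.NormalR
import Pool.Agent.SYL.MainR

/-! # Sylvester problem: assembly -/

namespace Pool.Agent.SYL

theorem main : St_main := by
  have dl : St_Dl := thm_Dl
  have hull : St_hull := thm_hull
  have vdet : St_Vdet := thm_Vdet hull dl
  have hV : St_V := thm_V vdet hull dl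
  have aff : St_aff := thm_aff hV
  have t0 : St_T0 := thm_T0
  have norm : St_norm := thm_norm t0
  have lsw : St_L := thm_L
  have dec : St_dec := thm_dec lsw t0 dl
  have phi : St_phi := thm_phi hV lsw t0 vdet dl
  have phis : St_phistrict := thm_phistrict hV phi vdet dl t0
  have polar : St_polar := thm_polar dl
  have volr : St_vol := thm_vol polar dec dl t0
  have sym : St_sym := thm_sym
  have cov : St_cov := thm_cov polar sym thm_cov1 volr dl
  have int : St_int := thm_int sym dl
  have sc : St_SC := thm_SC cov int thm_sub dl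
  have cone : St_cone := thm_cone thm_gauge thm_omega polar dl
  have bonf : St_bonf := thm_bonf hV
  have facet : St_facet := thm_facet bonf aff dec polar phi t0 lsw dl
  have near : St_near := thm_near t0
  have sbody : St_simplexbody := thm_simplexbody hull vdet dl
  have mn : St_min := thm_min hV vdet dl aff sbody
  have cent0 : St_cent0 := thm_cent0 hull vdet t0 dl
  have cent : St_centroid := thm_centroid cent0 lsw norm aff t0 sbody
  have normal : St_normal :=
    thm_normal sc cone bonf facet near cent dec volr lsw t0 dl phi phis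
  exact thm_main normal mn norm aff sbody thm_eqvol t0 phi

end Pool.Agent.SYL
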