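import Mathlib

/-! # Sylvester problem, upper side: definitions

`V x` volume of the convex hull of `d+1` points of `R^d`; `G d D` its integral over `D^{d+1}`;
`Sylv d D` the Sylvester functional. `Dl n` the solid standard simplex of `R^n`,
`e` the chart of the facet `∑ p = 1` of `Dl (n+1)`, `T0 n` the simplex of `R^{n+1}` with the
vertices `w n 0 = (-1,…,-1)` and the unit vectors (centroid at the origin), `L n j` the linear
involution swapping the vertices `w n 0` and `w n j` (the identity for `j = 0`). -/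

namespace Pool.Agent.SYL

open MeasureTheory Set

noncomputable section

/-- volume as a real number -/
def vol {d : ℕ} (D : Set (Fin d → ℝ)) : ℝ := (volume D).toReal

/-- volume of the convex hull of `d+1` points -/
def V {d : ℕ} (x : Fin (d + 1) → (Fin d → ℝ)) : ℝ := vol (convexHull ℝ (range x))

/-- integral of `V` over `D^{d+1}` -/
def G (d : ℕ) (D : Set (Fin d → ℝ)) : ℝ :=
  ∫ x in Set.pi univ (fun _ : Fin (d + 1) => D), V x

/-- the Sylvester functional -/
def Sylv (d : ℕ) (D : Set (Fin d → ℝ)) : ℝ := ((d : ℝ) + 2) / vol D ^ (d + 2) * G d D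

/-- convex bodies -/
def IsBody {d : ℕ} (D : Set (Fin d → ℝ)) : Prop :=
  Convex ℝ D ∧ IsCompact D ∧ (interior D).Nonempty

/-- full-dimensional simplices -/
def IsSimplex {d : ℕ} (T : Set (Fin d → ℝ)) : Prop :=
  ∃ v : Fin (d + 1) → (Fin d → ℝ), AffineIndependent ℝ v ∧ T = convexHull ℝ (range v)

/-- determinant of the edge vectors at the first vertex -/
def dt {d : ℕ} (v : Fin (d + 1) → (Fin d → ℝ)) : ℝ :=
  Matrix.det (Matrix.of fun i : Fin d => v i.succ - v 0)

/-- solid standard simplex -/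
def Dl (n : ℕ) : Set (Fin n → ℝ) := {x | (∀ i, 0 ≤ x i) ∧ ∑ i, x i ≤ 1}

/-- chart of the facet `∑ p = 1` -/
def e {n : ℕ} (y : Fin n → ℝ) : Fin (n + 1) → ℝ :=
  (Fin.cons (1 - ∑ i, y i) y : Fin (n + 1) → ℝ)

/-- centroid of the facet -/
def gS (n : ℕ) : Fin (n + 1) → ℝ := fun _ => 1 / ((n : ℝ) + 1)

/-- vertices of the normalised simplex -/
def w (n : ℕ) : Fin (n + 2) → (Fin (n + 1) → ℝ) :=
  (Fin.cons (fun _ => (-1 : ℝ)) (fun i => Pi.single i (1 : ℝ)) :
    Fin (n + 2) → (Fin (n + 1) → ℝ))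

/-- normalised simplex by its facet inequalities -/
def T0 (n : ℕ) : Set (Fin (n + 1) → ℝ) :=
  {x | ∑ i, x i ≤ 1 ∧ ∀ i, 0 ≤ x i + (1 - ∑ k, x k) / ((n : ℝ) + 2)}

/-- swap of the vertices `w n 0` and `w n (j+1)` -/
def Lsw (n : ℕ) (j : Fin (n + 1)) : (Fin (n + 1) → ℝ) →ₗ[ℝ] (Fin (n + 1) → ℝ) where
  toFun x := fun i => if i = j then - x j else x i - x j
  map_add' x y := by
    funext i
    by_cases h : i = j
    · simp [h]; ring
    · simp [h]; ring
  map_smul' c x := by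
    funext i
    by_cases h : i = j
    · simp [h]
    · simp [h]; ring

/-- the identity for `0`, the swap of `w n 0` and `w n (j+1)` for `j+1` -/
def L (n : ℕ) (j : Fin (n + 2)) : (Fin (n + 1) → ℝ) →ₗ[ℝ] (Fin (n + 1) → ℝ) :=
  (Fin.cons LinearMap.id (Lsw n) : Fin (n + 2) → ((Fin (n + 1) → ℝ) →ₗ[ℝ] (Fin (n + 1) → ℝ))) j

/-- mean volume function -/
def phi {d : ℕ} (T : Set (Fin d → ℝ)) (x : Fin d → ℝ) : ℝ :=
  ∫ y in Set.pi univ (fun _ : Fin d => T), V (Fin.cons x y : Fin (d + 1) → (Fin d → ℝ))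

/-- the strict covariance inequality on the facet, with constants `κ`, `c` -/
def SC (n : ℕ) (ψ : (Fin (n + 1) → ℝ) → ℝ) (κ c : ℝ) : Prop :=
  ∀ u : (Fin (n + 1) → ℝ) → ℝ, Continuous u → ConvexOn ℝ univ u →
    (∀ p ∈ stdSimplex ℝ (Fin (n + 1)), 0 ≤ u p) → u (gS n) = 0 →
    c * ∫ y in Dl n, u (e y) ≤ ∫ y in Dl n, u (e y) * (ψ (e y) - κ)

end

end Pool.Agent.SYL
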