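import Pool.Agent.SYL.St

/-! # Sylvester problem: the radial integral -/

set_option autoImplicit false

namespace Pool.Agent.SYL

open MeasureTheory Set

noncomputable section

theorem Omega_aux (m : ℕ) (u : ℝ) (hu : 0 ≤ u) :
    m * u * (1 - m * u) ≤ 1 - (1 / (1 + u)) ^ m := by
  have h1 : 1 + m * u ≤ (1 + u) ^ m := one_add_mul_le_pow (by linarith) m
  have h2 : 0 < 1 + m * u := by positivity
  have h3 : (1 / (1 + u)) ^ m ≤ 1 / (1 + m * u) := by
    rw [div_pow, one_pow]
    exact one_div_le_one_div_of_le h2 h1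
  have h4 : m * u * (1 - m * u) ≤ 1 - 1 / (1 + m * u) := by
    have e : 1 - 1 / (1 + m * u) = m * u / (1 + m * u) := by
      field_simp
      ring
    rw [e, le_div_iff₀ h2]
    have h5 : 0 ≤ (m : ℝ) * u := by positivity
    nlinarith [mul_nonneg h5 (sq_nonneg ((m : ℝ) * u))]
  linarith

theorem thm_omega : St_omega := by
  intro n u hu
  have h1u : 0 < 1 + u := by linarith
  obtain ⟨a, ha⟩ : ∃ a, a = 1 / (1 + u) := ⟨_, rfl⟩
  have ha0 : 0 < a := by rw [ha]; positivity
  have ha1 : a ≤ 1 := by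
    rw [ha, div_le_one h1u]
    linarith
  have hcongr : EqOn (fun s : ℝ => if s * (1 + u) ≤ 1 then 0 else s ^ n)
      ((Ioc a 1).indicator fun s => s ^ n) (Ioc (0 : ℝ) 1) := by
    intro s hs
    have h2 : s * (1 + u) ≤ 1 ↔ s ≤ a := by
      rw [ha, le_div_iff₀ h1u]
    simp only [h2]
    by_cases h : s ≤ a
    · rw [if_pos h, indicator_of_notMem]
      intro h3
      exact absurd h3.1 (not_lt.2 h)
    · rw [if_neg h, indicator_of_mem]
      exact ⟨not_le.1 h, hs.2⟩
  have hint : IntegrableOn (fun s : ℝ => s ^ n) (Ioc a 1) :=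
    (continuous_pow n).integrableOn_Ioc
  have hI : ∫ s in Ioc (0 : ℝ) 1, (if s * (1 + u) ≤ 1 then 0 else s ^ n) =
      (1 - a ^ (n + 1)) / (n + 1) := by
    rw [setIntegral_congr_fun measurableSet_Ioc hcongr, setIntegral_indicator measurableSet_Ioc]
    have e : Ioc (0 : ℝ) 1 ∩ Ioc a 1 = Ioc a 1 := by
      apply inter_eq_right.2
      exact Ioc_subset_Ioc_left ha0.le
    rw [e, ← intervalIntegral.integral_of_le ha1, integral_pow, one_pow]
  refine ⟨?_, ?_, ?_⟩
  · refine IntegrableOn.congr_fun ?_ (fun s hs => (hcongr hs).symm) measurableSet_Ioc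
    rw [IntegrableOn, integrable_indicator_iff measurableSet_Ioc]
    exact (hint.mono_measure Measure.restrict_le_self)
  · rw [hI, le_div_iff₀ (by positivity)]
    have h := Omega_aux (n + 1) u hu
    rw [← ha] at h
    push_cast at h
    linarith
  · rw [hI, div_le_iff₀ (by positivity)]
    have h1 : 1 + ((n + 1 : ℕ) : ℝ) * (a - 1) ≤ (1 + (a - 1)) ^ (n + 1) :=
      one_add_mul_le_pow (by linarith) (n + 1)
    have h2 : 1 + (a - 1) = a := by ring
    rw [h2] at h1
    push_cast at h1
    have h3 : 1 - a ≤ u := by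
      have h4 : a * (1 + u) = 1 := by
        rw [ha]
        field_simp
      nlinarith
    have h5 : (0 : ℝ) ≤ n + 1 := by positivity
    nlinarith

end

end Pool.Agent.SYL
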