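import Pool.Agent.SYL.Defs

/-! # Sylvester problem, upper side: the simplex is a strict local maximiser (all dimensions)

Statements of the modules with their proofs. We write `d = n + 1`. Main line:
1. `T'` the least simplex around `D`; its facet centroids lie in `D` (F3). Normalise `T' = T0 n`.
2. `C = T0 \ D`. `G T0 - G D ≥ (d+1) ∫_C phi - O(vol(C)^2)` (E1), so it is enough that the mean of
   `phi` over `C` is at least `κ + c`, `κ = (d+2)/(d+1) G(T0)/vol(T0)`.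
3. `T0` is the union of the `d+1` cones `L j (Dl d)` over the facets with apex at the centroid `0`
   (A9). In each cone `C` is described by the gauge of `D`; its excess `u ≥ 0` over 1 is convex on
   the facet and vanishes at the centroid of the facet (D1). To first order the integral over the
   cone is the facet integral of `u (phi - κ)` (D3).
4. `κ` is at most the mean of `phi` over the facet (E2), and `phi` is symmetric and convex with a
   strict minimum at the centroid. A symmetric convex function and any convex function are positively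
   correlated on a simplex (C3), with a strict form for `u` (C6). -/

namespace Pool.Agent.SYL

open MeasureTheory Set

noncomputable section

/-! ## A. simplices, determinants, invariance -/

/-- A1. `Dl n` is closed and contained in `[0,1]^n`; it contains the open nonempty set
`{x | 0 < x i, ∑ x < 1}` (point `1/(n+1)` in each coordinate). -/
def St_Dl : Prop := ∀ n : ℕ, IsCompact (Dl n) ∧ Convex ℝ (Dl n) ∧ 0 < vol (Dl n)

/-- A2. `convexHull (range v) = {∑ w_i v_i : w in the standard simplex}`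
(`convexHull_range_eq_exists_affineCombination` or `Finset`/`Fintype` forms), drop the weight of
`v 0`: `w_0 = 1 - ∑ x`. -/
def St_hull : Prop := ∀ (d : ℕ) (v : Fin (d + 1) → (Fin d → ℝ)),
  convexHull ℝ (range v) =
    (fun x : Fin d → ℝ => v 0 + ∑ i, x i • (v i.succ - v 0)) '' Dl d

/-- A3. From A2: translate of the image of `Dl d` under the linear map `x ↦ ∑ x i (v i.succ - v 0)`
with matrix the transpose of the matrix in `dt`; `Measure.addHaar_image_linearMap` (valid for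
determinant 0 too), `Measure.addHaar` translation invariance (`measure_preimage_add`...). -/
def St_Vdet : Prop := ∀ (d : ℕ) (v : Fin (d + 1) → (Fin d → ℝ)),
  V v = vol (Dl d) * |dt v|

/-- A4. Continuity, convexity in one point, behaviour under affine maps and permutations, bound.
From A3: `dt` is continuous (polynomial); for fixed `y`, `x ↦ dt (cons x y)` is affine in `x`:
by (row operations) `dt (cons x y) = det` of the rows `y i - x`; subtracting the row `y 0 - x` from the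
others gives rows `y 0 - x, y 1 - y 0, …`, affine in `x` (for `d = 0` constant). Absolute value of
an affine function is convex. Alternative for convexity: `x ↦ |dt (cons x y)|` is continuous and
convex because `dt (cons (a x + b x') y) = a dt (cons x y) + b dt (cons x' y)` for `a + b = 1`.
Affine maps: `convexHull` of the image is the image of `convexHull`
(`AffineMap.image_convexHull`), volume by `addHaar_image_linearMap`. Permutations: the range is the
same. Bound: `convexHull (range x) ⊆ T` and `T` has finite volume. -/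
def St_V : Prop := ∀ d : ℕ,
  Continuous (V : (Fin (d + 1) → (Fin d → ℝ)) → ℝ) ∧
  (∀ y : Fin d → (Fin d → ℝ),
    ConvexOn ℝ univ (fun x => V (Fin.cons x y : Fin (d + 1) → (Fin d → ℝ)))) ∧
  (∀ (M : (Fin d → ℝ) →ₗ[ℝ] (Fin d → ℝ)) (b : Fin d → ℝ) (x : Fin (d + 1) → (Fin d → ℝ)),
    V (fun i => M (x i) + b) = |LinearMap.det M| * V x) ∧
  (∀ (σ : Equiv.Perm (Fin (d + 1))) (x : Fin (d + 1) → (Fin d → ℝ)), V (x ∘ σ) = V x) ∧
  (∀ x : Fin (d + 1) → (Fin d → ℝ), 0 ≤ V x) ∧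
  (∀ (T : Set (Fin d → ℝ)), IsCompact T → Convex ℝ T →
    ∀ x : Fin (d + 1) → (Fin d → ℝ), (∀ i, x i ∈ T) → V x ≤ vol T)

/-- A5. Change of variables `x ↦ M x + b` in each of the `d+1` points
(`MeasurePreserving`/`volume_preserving_pi` after scaling the measure, or `integral_image_eq...` for
the linear map on `Fin (d+1) → Fin d → ℝ` with determinant `det M ^ (d+1)`; or
`Measure.map_linearMap_addHaar_eq_smul_addHaar` and `Measure.pi` of scaled measures), and
`V (M x + b) = |det M| V x` (A4). -/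
def St_aff : Prop := ∀ (d : ℕ) (M : (Fin d → ℝ) →ₗ[ℝ] (Fin d → ℝ)) (b : Fin d → ℝ)
  (K : Set (Fin d → ℝ)), LinearMap.det M ≠ 0 → MeasurableSet K →
  vol ((fun x => M x + b) '' K) = |LinearMap.det M| * vol K ∧
  G d ((fun x => M x + b) '' K) = |LinearMap.det M| ^ (d + 2) * G d K

/-- A6. Barycentric coordinates with respect to `w n`: `b_0 = (1 - ∑ x)/(n+2)`, `b_{i+1} = x i + b_0`;
they are nonnegative exactly on `T0` and sum to 1, and `x = ∑ b_i w_i`. `0` is interior: all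
`n+2` inequalities are strict at `0`. Compact: convex hull of a finite set. -/
def St_T0 : Prop := ∀ n : ℕ,
  convexHull ℝ (range (w n)) = T0 n ∧ AffineIndependent ℝ (w n) ∧
  IsCompact (T0 n) ∧ Convex ℝ (T0 n) ∧ T0 n ∈ nhds (0 : Fin (n + 1) → ℝ)

/-- A7. Every simplex is an affine image of `T0`, and conversely. The linear map with
`w n i.succ - w n 0 ↦ v i.succ - v 0` (both families are bases), `b = v 0 - M (w n 0)`; image of a
convex hull under an affine map. -/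
def St_norm : Prop := ∀ (n : ℕ),
  (∀ T : Set (Fin (n + 1) → ℝ), IsSimplex T →
    ∃ (M : (Fin (n + 1) → ℝ) →ₗ[ℝ] (Fin (n + 1) → ℝ)) (b : Fin (n + 1) → ℝ),
      LinearMap.det M ≠ 0 ∧ (fun x => M x + b) '' T0 n = T) ∧
  (∀ (T : Set (Fin (n + 1) → ℝ)) (M : (Fin (n + 1) → ℝ) →ₗ[ℝ] (Fin (n + 1) → ℝ))
    (b : Fin (n + 1) → ℝ), LinearMap.det M ≠ 0 → IsSimplex T →
      IsSimplex ((fun x => M x + b) '' T))

/-- A8. The swaps. `Lsw j` maps `x` to `x - x_j` off `j` and to `-x_j` at `j`: an involution, so its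
determinant squares to 1. In the barycentric coordinates of A6 it exchanges `b_0` and `b_{j+1}`:
`∑ (Lsw x) = ∑ x - (n+2) x_j`, so the new `b_0` is `b_0 + x_j = b_{j+1}`, the new `b_{j+1}` is
`-x_j + b_0 + x_j = b_0`, the new `b_{i+1}` is `x_i - x_j + b_0 + x_j = b_{i+1}`. -/
def St_L : Prop := ∀ (n : ℕ) (j : Fin (n + 2)),
  (∀ x, L n j (L n j x) = x) ∧ |LinearMap.det (L n j)| = 1 ∧
  (∀ x, L n j x ∈ T0 n ↔ x ∈ T0 n)

/-- A9. `T0` is the almost disjoint union of the `n+2` images `L j '' Dl (n+1)`: the image with index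
`j` is the set of points of `T0` whose smallest barycentric coordinate is `b_j` (A6, A8:
`Dl (n+1) = {x in T0 | all x i ≥ 0} = {b_0 ≤ b_i for all i}`). Two of them meet in a subset of a
hyperplane `x_i = 0` or `x_i = x_k` (null: `Measure.addHaar_submodule` or
`addHaar_affineSubspace`). Integral over the image of `L j` equals the integral of `f ∘ L j`
(`|det| = 1`, `MeasurePreserving`). -/
def St_dec : Prop := ∀ (n : ℕ) (f : (Fin (n + 1) → ℝ) → ℝ), IntegrableOn f (T0 n) →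
  (∀ j, IntegrableOn (fun x => f (L n j x)) (Dl (n + 1))) ∧
  ∫ x in T0 n, f x = ∑ j : Fin (n + 2), ∫ x in Dl (n + 1), f (L n j x)

/-- A10. The mean volume function of `T0`. Continuity: parametric integral of a continuous function
over a compact set (`continuous_parametric_integral_of_continuous`). Convexity: A4. Invariance:
for a linear `M` with `|det M| = 1` and `M x ∈ T0 ↔ x ∈ T0` (M = `L j`, or a permutation of the
coordinates, which preserves the formula of `T0`), substitute `y_i = M z_i` for all `i`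
(measure preserving on the product), and `V (M x, M z) = V (x, z)`. `G > 0`: `V` is continuous,
`≥ 0`, and positive at the point `w n` of `T0^{n+2}`; `T0^{n+2}` is the closure of its interior. -/
def St_phi : Prop := ∀ n : ℕ,
  Continuous (phi (T0 n)) ∧ ConvexOn ℝ univ (phi (T0 n)) ∧
  (∀ j x, phi (T0 n) (L n j x) = phi (T0 n) x) ∧
  (∀ (σ : Equiv.Perm (Fin (n + 1))) x, phi (T0 n) (x ∘ σ) = phi (T0 n) x) ∧
  0 < G (n + 1) (T0 n)

/-- A11. Strict minimum on the facet. Let `p ≠ gS`, `∑ p = 1`, `p ≥ 0`: two coordinates differ,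
`p i ≠ p k`. Let `p'` be `p` with these two exchanged, `m = (p + p')/2`. By A10
`phi p = (phi p + phi p')/2 = ∫ (V(p,y) + V(p',y))/2 ≥ ∫ V(m,y) = phi m`, and it is strict: the integrand
`(V(p,y) + V(p',y))/2 - V(m,y)` is continuous, `≥ 0` (A4), and positive at the configuration `y⁰` with
the `n+1` points `w 0`, `(e_i + e_k)/2`, and `e_l` for `l ≠ i, k` (all in `T0`): the function
`x ↦ dt (cons x y⁰)` is affine and vanishes at these points, so it is a multiple `c (x_i - x_k)`, `c ≠ 0`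
(value at `e_i`: then the points are affinely independent), so `V(m,y⁰) = 0 < V(p,y⁰)`. Since
`T0^{n+1}` is the closure of its interior, the integral is positive. Finally `phi gS ≤ phi m`: `gS` is
the average of the `n+1` cyclic shifts of `m`, `phi` is convex and symmetric. -/
def St_phistrict : Prop := ∀ n : ℕ, ∀ p ∈ stdSimplex ℝ (Fin (n + 1)), p ≠ gS n →
  phi (T0 n) (gS n) < phi (T0 n) p

/-! ## B. polar formula -/

/-- B1. Write `x = cons t x'` (`volume_preserving_piFinSuccAbove`), put `s = t + ∑ x'` for fixed `x'`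
(translation), so that `x = cons (s - ∑ x') x'` with `x' ∈ s Dl n`, `0 ≤ s ≤ 1`; then `x' = s y`,
`y ∈ Dl n`, factor `s^n` (`Measure.setIntegral_comp_smul` or `integral_comp_smul`), and
`cons (s - ∑ s y) (s y) = s • e y`. Best: prove it for `lintegral` of measurable nonnegative
functions or as an identity of measures and deduce both parts. -/
def St_polar : Prop := ∀ (n : ℕ) (H : (Fin (n + 1) → ℝ) → ℝ), IntegrableOn H (Dl (n + 1)) →
  IntegrableOn (fun p : ℝ × (Fin n → ℝ) => p.1 ^ n * H (p.1 • e p.2)) (Ioc (0 : ℝ) 1 ×ˢ Dl n) ∧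
  ∫ x in Dl (n + 1), H x =
    ∫ p in Ioc (0 : ℝ) 1 ×ˢ Dl n, p.1 ^ n * H (p.1 • e p.2)

/-- B2. `H = 1` in B1, and `f = 1` in A9. -/
def St_vol : Prop := ∀ n : ℕ, ((n : ℝ) + 1) * vol (Dl (n + 1)) = vol (Dl n) ∧
  vol (T0 n) = ((n : ℝ) + 2) * vol (Dl (n + 1))

/-! ## C. the covariance inequality -/

/-- C1. The facet mean is invariant under permutations of the `n+1` coordinates. For the swap of `0`
and `i+1`: `e y ∘ swap = e y'` where `y'` is `y` with `y_i` replaced by `1 - ∑ y`; by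
`volume_preserving_piFinSuccAbove` at `i` this is a reflection `t ↦ c - t` of one real variable for
fixed other coordinates, and it maps `Dl n` onto itself. Every permutation is a product of such swaps
(`swap i k = swap 0 i * swap 0 k * swap 0 i`, `Equiv.Perm.swap_induction_on`). -/
def St_sym : Prop := ∀ (n : ℕ) (f : (Fin (n + 1) → ℝ) → ℝ), Continuous f →
  ∀ σ : Equiv.Perm (Fin (n + 1)), ∫ y in Dl n, f (e y ∘ σ) = ∫ y in Dl n, f (e y)

/-- C2. Two convex functions on `[0,1]`, the first orthogonal to `1` and `s`. If `F ≥ 0` on `[0,1]`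
then `∫ s^n F = 0` gives `F = 0` on `[0,1]` (continuity), done. Otherwise `N = {s in [0,1] | F s < 0}` is a
nonempty relatively open interval; `a = inf N < b = sup N`. By convexity `F ≤ 0` on `(a,b)` (in fact
`< 0`), `F ≥ 0` on `[0,1]` outside `(a,b)`. Let `l` be the affine function with `l a = H a`,
`l b = H b`. By convexity `H ≤ l` on `[a,b]` and `H ≥ l` outside. So `F (H - l) ≥ 0` on `[0,1]`, and
`∫ s^n F H = ∫ s^n F (H - l) ≥ 0` since `∫ s^n F l = 0`. -/
def St_cov1 : Prop := ∀ (n : ℕ) (F H : ℝ → ℝ), Continuous F → Continuous H →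
  ConvexOn ℝ univ F → ConvexOn ℝ univ H →
  ∫ s in Ioc (0 : ℝ) 1, s ^ n * F s = 0 → ∫ s in Ioc (0 : ℝ) 1, s ^ n * (s * F s) = 0 →
  0 ≤ ∫ s in Ioc (0 : ℝ) 1, s ^ n * (F s * H s)

/-- C3. A symmetric convex function and a convex function are positively correlated. Induction on `n`.
`n = 0`: `Dl 0` is a point of mass 1, `e y` is constant. Step `n → n+1` (functions on
`Fin (n+2) → ℝ`, facet over `Dl (n+1)`): by B1 and Fubini
`∫_{Dl (n+1)} F (e y) = ∫_{s in Ioc 0 1} s^n ∫_{z in Dl n} F (cons (1 - s) (s • e z))`, because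
`e (s • e z) = cons (1 - s) (s • e z)`. For each `s` the functions
`q ↦ f (cons (1-s) (s • q))`, `q ↦ h (cons (1-s) (s • q))` satisfy the hypotheses for `n`, so with
`F s = ∫_{z in Dl n} f (cons (1-s) (s • e z))` and `H s` likewise (continuous and convex in `s`, since
for fixed `z` the argument is affine in `s`): `vol (Dl n) ∫_{Dl n} f h ≥ F s * H s`. Let
`I = ∫ s^n F s = ∫_{Dl (n+1)} f (e y)`, `m = (n+1) I`. By C1 all coordinates have the same mean
against `f`: `(n+2) ∫_{Dl (n+1)} (e y 0) f (e y) = ∫_{Dl (n+1)} f (e y)` as `∑ e y i = 1`, i.e.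
`(n+2) ∫ s^n (1-s) F s = I`. Hence `F - m` satisfies both hypotheses of C2
(`∫ s^n (1-s) = 1/((n+1)(n+2))`), so `∫ s^n (F - m) H ≥ 0`, `∫ s^n F H ≥ m ∫ s^n H
= (n+1) (∫ f)(∫ h)`. With `vol (Dl n) = (n+1) vol (Dl (n+1))` (B2):
`vol (Dl (n+1)) ∫_{Dl (n+1)} f h = vol (Dl n)/(n+1) ∫ s^n ∫_{Dl n} f h ≥ 1/(n+1) ∫ s^n F H ≥ (∫ f)(∫ h)`. -/
def St_cov : Prop := ∀ (n : ℕ) (f h : (Fin (n + 1) → ℝ) → ℝ), Continuous f → Continuous h →
  ConvexOn ℝ univ f → ConvexOn ℝ univ h →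
  (∀ (σ : Equiv.Perm (Fin (n + 1))) x, f (x ∘ σ) = f x) →
  (∫ y in Dl n, f (e y)) * (∫ y in Dl n, h (e y)) ≤
    vol (Dl n) * ∫ y in Dl n, f (e y) * h (e y)

/-- C4. Interior bound for convex functions. Jensen (`ConvexOn.map_set_average_le` or
`ConvexOn.map_average_le`) for `z ↦ u ((q + e z)/2)` on `Dl n`; the mean of `e z` is `gS` (C1: all
coordinates have the same mean, sum 1):
`vol (Dl n) u ((q + gS)/2) ≤ ∫_{z in Dl n} u ((q + e z)/2)`. With `q = e q'`, `q' i = q i.succ`, we have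
`(q + e z)/2 = e ((q' + z)/2)`; substitute `y = (q' + z)/2` (factor `2^n`), `y` runs over a subset of
`Dl n`, and `u (e y) ≥ 0` on `Dl n`. -/
def St_int : Prop := ∀ (n : ℕ) (u : (Fin (n + 1) → ℝ) → ℝ), Continuous u →
  ConvexOn ℝ univ u → (∀ p ∈ stdSimplex ℝ (Fin (n + 1)), 0 ≤ u p) →
  ∀ q ∈ stdSimplex ℝ (Fin (n + 1)),
    vol (Dl n) * u ((1 / 2 : ℝ) • (q + gS n)) ≤ 2 ^ n * ∫ y in Dl n, u (e y)

/-- C5. Sublevel sets near the strict minimum. For `p` in the standard simplex put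
`ρ p = 1 - (n+1) min_i (p i)`, `0 ≤ ρ ≤ 1`. If `0 < ρ p ≤ r`, then `q = gS + (p - gS)/ρ` is in the
standard simplex and `p = gS + ρ (q - gS)`; if `ρ p = 0` then `p = gS` (take `q = gS`, `s = 0`). The
set `{ρ ≥ r}` is compact and `ψ > ψ gS` on it: `τ` its minimum there (or `ψ gS + 1` if it is empty). -/
def St_sub : Prop := ∀ (n : ℕ) (ψ : (Fin (n + 1) → ℝ) → ℝ), Continuous ψ →
  (∀ p ∈ stdSimplex ℝ (Fin (n + 1)), p ≠ gS n → ψ (gS n) < ψ p) →
  ∀ r : ℝ, 0 < r → ∃ τ : ℝ, ψ (gS n) < τ ∧ ∀ p ∈ stdSimplex ℝ (Fin (n + 1)), ψ p < τ →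
    ∃ q ∈ stdSimplex ℝ (Fin (n + 1)), ∃ s : ℝ, 0 ≤ s ∧ s ≤ r ∧ p = gS n + s • (q - gS n)

/-- C6. Strict form. Write `v = vol (Dl n)`, `∫` for the facet integrals. Take `r = 1/(2^(n+2))` in C5
(so `r ≤ 1/2`), `τ` from it, `g = max (τ - ψ) 0`, `c = (∫ g)/(2 v)`; `∫ g > 0` since `g ∘ e` is
continuous, `≥ 0`, positive at the interior point `1/(n+1)` of `Dl n`. Let `u` be as in `SC`. If
`g p > 0`, then `p = gS + s (q - gS)`, `s ≤ r`, and `p` is the convex combination of `gS` and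
`(q + gS)/2` with weights `1 - 2 s`, `2 s`, so `u p ≤ 2 s u ((q+gS)/2)` and
`v u p ≤ 2 r 2^n ∫ u = (∫ u)/2` (C4). So `v ∫ u g ≤ (1/2) (∫ u)(∫ g)`. Now `ψ = max ψ τ - g`, and C3
with `f = max ψ τ` (symmetric, convex, continuous), `h = u`:
`v ∫ u ψ = v ∫ u max(ψ,τ) - v ∫ u g ≥ (∫ u)(∫ ψ + ∫ g) - (1/2)(∫ u)(∫ g) = (∫ u)(∫ ψ) + (1/2)(∫ u)(∫ g)`
`≥ κ v ∫ u + c v ∫ u`. -/
def St_SC : Prop := ∀ (n : ℕ) (ψ : (Fin (n + 1) → ℝ) → ℝ) (κ : ℝ), Continuous ψ →
  ConvexOn ℝ univ ψ → (∀ (σ : Equiv.Perm (Fin (n + 1))) x, ψ (x ∘ σ) = ψ x) →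
  (∀ p ∈ stdSimplex ℝ (Fin (n + 1)), p ≠ gS n → ψ (gS n) < ψ p) →
  κ * vol (Dl n) ≤ ∫ y in Dl n, ψ (e y) →
  ∃ c : ℝ, 0 < c ∧ SC n ψ κ c

/-! ## D. one cone -/

/-- D1. The gauge defect: `u p = gauge D p - ∑ p i`. `gauge D` is continuous (`continuous_gauge`),
sublinear so convex, and `gauge D x ≤ 1 ↔ x ∈ D` (`gauge_le_one_iff_mem_closure`, `D` closed). On
the standard simplex: `gauge D p ≥ 1`, otherwise `p/r ∈ D` with `r < 1` and coordinate sum
`1/r > 1`; `(1-δ) p ∈ D` gives `gauge D p ≤ 1/(1-δ) ≤ 1 + 2 δ`; `gS ∈ D` gives `gauge D gS ≤ 1`;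
`s p ∈ D ↔ s gauge D p ≤ 1`. -/
def St_gauge : Prop := ∀ (n : ℕ) (D : Set (Fin (n + 1) → ℝ)) (δ : ℝ), 0 < δ → δ ≤ 1 / 2 →
  Convex ℝ D → IsClosed D → D ∈ nhds (0 : Fin (n + 1) → ℝ) →
  (∀ x ∈ D, (∀ i, 0 ≤ x i) → ∑ i, x i ≤ 1) →
  (∀ x ∈ Dl (n + 1), (1 - δ) • x ∈ D) → gS n ∈ D →
  ∃ u : (Fin (n + 1) → ℝ) → ℝ, Continuous u ∧ ConvexOn ℝ univ u ∧
    (∀ p ∈ stdSimplex ℝ (Fin (n + 1)), 0 ≤ u p ∧ u p ≤ 2 * δ) ∧ u (gS n) = 0 ∧
    ∀ p ∈ stdSimplex ℝ (Fin (n + 1)), ∀ s ∈ Ioc (0 : ℝ) 1, (s • p ∈ D ↔ s * (1 + u p) ≤ 1)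

/-- D2. The radial integral is `∫ s^n` over `(1/(1+u), 1]`, an interval of length `u/(1+u)` where
`(1+u)^(-n) ≤ s^n ≤ 1`; so it is `≤ u` and `≥ u (1+u)^(-n-1) ≥ u (1 - (n+1) u)`. -/
def St_omega : Prop := ∀ (n : ℕ) (u : ℝ), 0 ≤ u →
  IntegrableOn (fun s : ℝ => if s * (1 + u) ≤ 1 then 0 else s ^ n) (Ioc (0 : ℝ) 1) ∧
  u * (1 - (n + 1) * u) ≤ (∫ s in Ioc (0 : ℝ) 1, if s * (1 + u) ≤ 1 then 0 else s ^ n) ∧
  (∫ s in Ioc (0 : ℝ) 1, if s * (1 + u) ≤ 1 then 0 else s ^ n) ≤ u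

/-- D3. Cone estimate. Let `M` bound `|ψ - κ|` on the standard simplex, `η = c/4`; by uniform
continuity take `δ` with `|ψ (s p) - ψ p| ≤ η` for `p` in the standard simplex, `1 - 2δ ≤ s ≤ 1`, and
`2 (n+1) M δ ≤ c/4`, `δ ≤ 1/2`. With `u` of D1 and
`ω p = ∫_{Ioc 0 1} (if s (1 + u p) ≤ 1 then 0 else s^n)` (D2): by B1 with the indicator function and
Fubini `vol (Dl (n+1) \ D) = ∫_{Dl n} ω (e y) ≤ ∫ u`, and (if `s (1 + u p) > 1` then
`s > 1/(1+2δ) ≥ 1 - 2δ`)
`∫_{Dl (n+1) \ D} (ψ - κ) = ∫_{Dl n} ∫_s [s (1+u) > 1] s^n (ψ (s e y) - κ) ≥ ∫ ω (ψ - κ - η)`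
`≥ ∫ u (ψ - κ) - ∫ (u - ω) M - η ∫ u ≥ (c - 2 (n+1) M δ - η) ∫ u ≥ (c/2) ∫ u ≥ (c/2) vol`, using
`0 ≤ u - ω ≤ (n+1) u^2 ≤ 2 (n+1) δ u`. -/
def St_cone : Prop := ∀ (n : ℕ) (ψ : (Fin (n + 1) → ℝ) → ℝ) (κ c : ℝ), Continuous ψ → 0 < c →
  SC n ψ κ c →
  ∃ δ : ℝ, 0 < δ ∧ δ ≤ 1 / 2 ∧ ∀ D : Set (Fin (n + 1) → ℝ), Convex ℝ D → IsClosed D →
    D ∈ nhds (0 : Fin (n + 1) → ℝ) → (∀ x ∈ D, (∀ i, 0 ≤ x i) → ∑ i, x i ≤ 1) →
    (∀ x ∈ Dl (n + 1), (1 - δ) • x ∈ D) → gS n ∈ D →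
    c / 2 * vol (Dl (n + 1) \ D) ≤ ∫ x in Dl (n + 1) \ D, (ψ x - κ)

/-! ## E. inclusion and exclusion, facet mean -/

/-- E1. On `T^{d+1}` let `a_i` be the indicator of `x_i ∈ T \ D`. `G T - G D` is the integral of
`(1 - ∏ (1 - a_i)) V`. For numbers in `{0,1}`:
`∑ a_i - ∑_{i ≠ j} a_i a_j ≤ 1 - ∏ (1 - a_i) ≤ ∑ a_i`. The integral of `a_i V` is
`∫_{T \ D} phi T` for every `i` (exchange the points `0` and `i`, `V` is symmetric, Fubini with
`volume_preserving_piFinSuccAbove`); the integral of `a_i a_j V` is at most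
`vol T * vol (T \ D)^2 * vol T^(d-1)` (`V ≤ vol T` on `T^{d+1}`, A4). -/
def St_bonf : Prop := ∀ (d : ℕ) (T D : Set (Fin d → ℝ)), IsCompact T → Convex ℝ T →
  MeasurableSet D → D ⊆ T →
  G d T - G d D ≤ ((d : ℝ) + 1) * ∫ x in T \ D, phi T x ∧
  ((d : ℝ) + 1) * (∫ x in T \ D, phi T x) - ((d : ℝ) + 1) * d * vol T ^ d * vol (T \ D) ^ 2 ≤
    G d T - G d D

/-- E2. For `0 < s < 1` let `D = s T0`. By A5 (`M = s id`, determinant `s^(n+1)`)
`G D = s^((n+1)(n+3)) G T0`, so E1 gives `(1 - s^((n+1)(n+3))) G T0 ≤ (n+2) ∫_{T0 \ s T0} phi`. By A9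
(all `L j` preserve `T0`, `s T0` and `phi`, and for `x ∈ Dl (n+1)`: `x ∈ s T0 ↔ ∑ x ≤ s`), the
integral is `(n+2) ∫_{x in Dl (n+1), ∑ x > s} phi`, by B1 this is `(n+2) ∫_{t in (s,1]} t^n M t` with
`M t = ∫_{Dl n} phi (t • e y)`. `M` is continuous: for every `η > 0`, `M t ≤ M 1 + η` for `t` near 1. So
`(1 - s^((n+1)(n+3))) G T0 ≤ (n+2)^2 (M 1 + η)(1 - s^(n+1))/(n+1)` for `s` near 1; divide by
`1 - s^(n+1)` (`(1 - x^(n+3))/(1 - x) → n+3` as `x → 1`) and let `s → 1`, `η → 0`. -/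
def St_facet : Prop := ∀ n : ℕ,
  ((n : ℝ) + 1) * ((n : ℝ) + 3) * G (n + 1) (T0 n) ≤
    ((n : ℝ) + 2) ^ 2 * ∫ y in Dl n, phi (T0 n) (e y)

/-! ## F. the least simplex -/

/-- F1. Big homothetic copy inside `D`. `K = T0 ∩ (-T0)` is a neighbourhood of 0, `k = vol K / 2`. If
`x ∈ T0` and `p = s x ∉ D`: for `z ∈ (1-s) K` both `p + z` and `p - z` are in `T0`, and not both in
`D` (`D` convex, `p` the midpoint). So `(1-s) K` is covered by two sets `{z | p ± z ∈ T0 \ D}` of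
measure `vol (T0 \ D)`: `(1-s)^(n+1) vol K ≤ 2 vol (T0 \ D)`, a contradiction. -/
def St_near : Prop := ∀ n : ℕ, ∃ k : ℝ, 0 < k ∧ ∀ D : Set (Fin (n + 1) → ℝ), Convex ℝ D →
  IsClosed D → D ⊆ T0 n → ∀ s : ℝ, 0 ≤ s → s < 1 →
  vol (T0 n \ D) < k * (1 - s) ^ (n + 1) → ∀ x ∈ T0 n, s • x ∈ D

/-- F2. Existence of a least simplex. `ε = (1/4)^d / 2`. Let `R` bound the norm on `D`. Let
`T' = convexHull (range v)` be a simplex with `D ⊆ T'`, `vol T' ≤ vol T`, and `v k` a vertex of largest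
norm `N`. The set `S = v k + (1/4) (T' - v k) ⊆ T'` has volume `(1/4)^d vol T'`. If `S` missed `D` then
`vol D ≤ (1 - (1/4)^d) vol T' ≤ (1 - (1/4)^d) vol T < (1 - ε) vol T`, a contradiction. So
`(3/4) v k + (1/4) t = p ∈ D` for some `t ∈ T'`, `(3/4) N ≤ R + N/4`, `N ≤ 2 R`. So all these simplices
have vertex tuples in the set of `v` with `‖v i‖ ≤ 2 R` and `D ⊆ convexHull (range v)`, which is
compact: for each `x ∈ D` the condition `x ∈ convexHull (range v)` is closed in `v` (projection of the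
closed set `∑ w i • v i = x` along the compact standard simplex). `V` is continuous (A4) and attains its
minimum there (`T` gives a point of the set); the minimiser contains `D`, so it has positive volume and
its vertices are affinely independent (`V = vol (Dl d) |dt|`, A3). -/
def St_min : Prop := ∀ d : ℕ, 0 < d → ∃ ε : ℝ, 0 < ε ∧ ∀ D T : Set (Fin d → ℝ), IsBody D →
  IsSimplex T → D ⊆ T → (1 - ε) * vol T ≤ vol D →
  ∃ T' : Set (Fin d → ℝ), IsSimplex T' ∧ D ⊆ T' ∧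
    ∀ T'' : Set (Fin d → ℝ), IsSimplex T'' → D ⊆ T'' → vol T' ≤ vol T''

/-- F3a. If the centroid of the facet opposite to `w 0` is not in `D`, there is a smaller simplex.
Separate: a linear `l` and a number `r` with `l gS < r < l x` for `x ∈ D`; `a x = l x - r`,
`α_0 = a (w 0)`, `α_i = a (e_i)`, `∑_{i ≥ 1} α_i = (n+1) a gS < 0`. For small `t > 0` (with
`t |α_0| ≤ 1`, `t |α_i| ≤ 1/2`, and `∏_{i ≥ 1} (1 - t α_i) > 1`, possible since the derivative at
`t = 0` is `-∑ α_i > 0`) let `v 0 = w 0`, `v i = w 0 + (e_i - w 0)/(1 - t α_i)`. Volume: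
`vol T0 / ∏ (1 - t α_i) < vol T0` (A3). `D ⊆ convexHull (range v)`: for `x ∈ D` with barycentric
coordinates `b` (A6), by A2 it is enough that `z_i = b_i (1 - t α_i) ≥ 0` and `∑_{i≥1} z_i ≤ 1`, i.e.
`b_0 + t ∑_{i ≥ 1} α_i b_i ≥ 0`; this is `(1 - t α_0) b_0 + t a x ≥ 0`. -/
def St_cent0 : Prop := ∀ (n : ℕ) (D : Set (Fin (n + 1) → ℝ)), IsClosed D → Convex ℝ D →
  D ⊆ T0 n → gS n ∉ D → D.Nonempty →
  ∃ T'' : Set (Fin (n + 1) → ℝ), IsSimplex T'' ∧ D ⊆ T'' ∧ vol T'' < vol (T0 n)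

/-- F3. Facet centroids of the least simplex: apply F3a to `L j '' D` (A8, A7, A5: images of
simplices under `L j` are simplices of the same volume); `D` is nonempty, otherwise the simplex
`(1/2) T0` would be smaller. -/
def St_centroid : Prop := ∀ (n : ℕ) (D : Set (Fin (n + 1) → ℝ)), IsClosed D → Convex ℝ D →
  D ⊆ T0 n → D.Nonempty →
  (∀ T'' : Set (Fin (n + 1) → ℝ), IsSimplex T'' → D ⊆ T'' → vol (T0 n) ≤ vol T'') →
  ∀ j, L n j (gS n) ∈ D

/-- F4. Equality of volumes: `interior T \ D` is open and null, so empty; `T` is the closure of its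
interior. -/
def St_eqvol : Prop := ∀ (d : ℕ) (D T : Set (Fin d → ℝ)), IsClosed D → IsBody T → D ⊆ T →
  vol T ≤ vol D → D = T

/-- F5. Simplices are bodies (`AffineIndependent` with `d+1` points spans;
`interior_convexHull_nonempty_iff_affineSpan_eq_top` or A3 and A2). -/
def St_simplexbody : Prop := ∀ (d : ℕ) (T : Set (Fin d → ℝ)), IsSimplex T → IsBody T ∧ 0 < vol T

/-! ## R. the result -/

/-- R1. Normalised form: `D ⊆ T0` with `T0` least. -/
def St_normal : Prop := ∀ n : ℕ, ∃ ε c : ℝ, 0 < ε ∧ 0 < c ∧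
  ∀ D : Set (Fin (n + 1) → ℝ), Convex ℝ D → IsClosed D → D ⊆ T0 n → D.Nonempty →
  (∀ T'' : Set (Fin (n + 1) → ℝ), IsSimplex T'' → D ⊆ T'' → vol (T0 n) ≤ vol T'') →
  (1 - ε) * vol (T0 n) ≤ vol D →
  Sylv (n + 1) D ≤ Sylv (n + 1) (T0 n) * (1 - c * (1 - vol D / vol (T0 n)))

/-- R2. The simplex is a strict local maximiser. -/
def St_main : Prop := ∀ d : ℕ, 1 ≤ d → ∃ ε c : ℝ, 0 < ε ∧ 0 < c ∧
  ∀ D T : Set (Fin d → ℝ), IsBody D → IsSimplex T → D ⊆ T → (1 - ε) * vol T ≤ vol D →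
    (∃ T' : Set (Fin d → ℝ), IsSimplex T' ∧ D ⊆ T' ∧
      (∀ T'' : Set (Fin d → ℝ), IsSimplex T'' → D ⊆ T'' → vol T' ≤ vol T'') ∧
      Sylv d D ≤ Sylv d T * (1 - c * (1 - vol D / vol T'))) ∧
    (Sylv d D = Sylv d T ↔ IsSimplex D)

end

end Pool.Agent.SYL
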